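import Pool.Agent.ETCR2.D2cQ2
import Pool.Agent.ETCD2.OG4
import Pool.Agent.ETCD2.D2p

/-!
THEOREM D2c of note 2600 (helper58), set-valued, steps (8), (9).
-/

set_option autoImplicit false
set_option linter.unusedSectionVars false
set_option linter.unusedSimpArgs false
set_option linter.unnecessarySeqFocus false

namespace Pool.Agent.ETCR2

open Pool.Agent.Helper58.PLine (QData)
open Pool.Agent.ETCP
open Pool.Agent.ED2 (Ac LD)
open Pool.Agent.ETCD2 (K4At)

variable {V Q : Type} [AddCommGroup V] [Module (ZMod 2) V]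
variable {D : QData V Q} {x : V} {c : Q}

namespace DQ

variable (X : DQ D x c)

include X

variable [Finite V]

/-- the geometry on `V_A` -/
theorem geo : Pool.Agent.ETCD2.OG.Geo (fun a b : X.VA => C D (a : V) (b : V))
    (fun a b : X.VA => D.q (a : V) (b : V) = c) where
  zs := fun h => h.symm
  ns := fun h => by rw [D.symm]; exact h
  za := fun a => C.self X.he _
  zadd := fun h h' => h.add h'
  nadd := fun h h' => by
    rw [Submodule.coe_add, add_comm]
    exact q_of_C h' h
  nn := fun h h' => q_qC h h'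
  nz := fun h h' => X.cne (h.symm.trans h')
  link := by
    intro s t r r' h h'
    obtain ⟨v, hv, h1, h2⟩ := X.lkA s.2 t.2 ⟨r, h⟩ ⟨r', h'⟩
    exact ⟨⟨v, hv⟩, h1, h2⟩

/-- (8) -/
theorem eight {s : V} (hs' : s ∈ X.VA) (hs : SlQ D c s) : s = x ∨ D.q x s = c := by
  by_cases h4 : 4 ≤ Nat.card {t : X.VA // C D x t}
  · have sl : ∀ t : X.VA, SlQ D c (t : V) →
        Pool.Agent.ETCD2.OG.Sl (fun a b : X.VA => D.q (a : V) (b : V) = c) t := by
      intro t ht
      obtain ⟨v, hv, h⟩ := X.slA ht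
      exact ⟨⟨v, hv⟩, h⟩
    have ls : ∀ t : X.VA, Pool.Agent.ETCD2.OG.Sl
        (fun a b : X.VA => D.q (a : V) (b : V) = c) t → SlQ D c (t : V) := by
      rintro t ⟨v, hv⟩
      exact ⟨v, hv⟩
    have hx := sl ⟨x, X.xA⟩ X.slx
    have M : Pool.Agent.ETCD2.OG.MX (fun a b : X.VA => C D (a : V) (b : V))
        (fun a b : X.VA => D.q (a : V) (b : V) = c) (Nat.card {t : X.VA // C D x t}) :=
      { toGeo := X.geo
        thin := fun t s ht hs h => X.geo.thin1 hx
          (fun v hv h => Subtype.ext (X.thA v.2 (ls v hv) h)) ht hs h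
        mx := fun v hv => X.cardA v.2 fun h => hv (Subtype.ext h) }
    rcases M.an h4 hx rfl ⟨s, hs'⟩ (sl ⟨s, hs'⟩ hs) with h | h
    · exact Or.inl (congrArg Subtype.val h)
    · exact Or.inr h
  · exact X.eight0 h4 hs' hs

/-- (9): `Δ_c(x) = <c>` -/
theorem nine {w s : V} (hw : D.q x w = c) (hs : C D w s) : C D x s ∨ D.q x s = c := by
  have h1 : SlQ D c (s + x) := ⟨w, q_of_C' hs.symm hw⟩
  obtain ⟨p, hp, h2, h3⟩ := X.seven h1
  rcases X.eight (s := s + x + p) h3 h2 with h | h
  · left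
    have e : s = p := eo (by
      have : s + p = s + x + p + x := eo (by
        abel_nf <;> simp only [ch2, ch3, ch4, add_zero, zero_add])
      rw [this, h, ZModModule.add_self])
    rw [e]
    exact hp.1
  · right
    have h4 : C D x (x + p) := (C.self X.he x).add hp.1
    have h5 := q_of_C h4 h
    have e : x + p + (s + x + p) = s := eo (by
      abel_nf <;> simp only [ch2, ch3, ch4, add_zero, zero_add])
    rwa [e] at h5

end DQ

/-- **THEOREM D2c** (note 2600, helper58; with THEOREM AN-M of helper62 and LDc of helper32).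
`D` is a finite structure with `-1 = 1`, `x ≠ 0` has a maximal centralizer, and `c = q (x, u)` is
not zero.  If `V_{x+l} ⊆ V_x` for all `l ∈ V_x` commuting with some `v`, `q (x, v) = c`, then
`q (x, w) = c` and `q (w, s) = 0` imply that `q (x, s)` is `0` or `c`. -/
theorem d2cQ [Finite V] (he : D.e = 0) {x : V}
    (mr : ∀ v, v ≠ 0 → Nat.card (D.ann v) ≤ Nat.card (D.ann x)) {u : V} (hu : ¬ C D x u)
    (hd : ∀ l v, C D x l → C D x (u + v) → C D l v → ∀ t, C D (x + l) t → C D x t)
    {w s : V} (hw : C D x (u + w)) (hs : C D w s) : C D x s ∨ C D x (s + u) := by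
  have X : DQ D x (D.q x u) :=
    { he := he
      cne := hu
      hw := ⟨u, rfl⟩
      d2 := fun l ⟨h1, v, h2, h3⟩ _ => hd l v h1 (q_qC rfl h2) h3
      mr := mr }
  rcases X.nine (w := w) (q_eq_iff.2 hw).symm hs with h | h
  · exact Or.inl h
  · exact Or.inr (q_qC h rfl)

/-- With (K4) at `x`: for every class `u + V_x ≠ V_x` some `l ∈ V_x` commutes with an element of
the class and `V_{x+l}` is not inside `V_x`. -/
theorem no_d2c [Finite V] (he : D.e = 0) {x : V}
    (mr : ∀ v, v ≠ 0 → Nat.card (D.ann v) ≤ Nat.card (D.ann x)) (k4 : K4At D x) {u : V}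
    (hu : ¬ C D x u) :
    ∃ l v t, C D x l ∧ C D x (u + v) ∧ C D l v ∧ C D (x + l) t ∧ ¬ C D x t := by
  by_contra hcon
  obtain ⟨w, s, h1, h2, h3, h4⟩ := k4 u hu
  rcases d2cQ he mr hu (fun l v h5 h6 h7 t h8 => by
    by_contra h9
    exact hcon ⟨l, v, t, h5, h6, h7, h8, h9⟩) h1 h2 with h | h
  · exact h3 h
  · exact h4 h

end Pool.Agent.ETCR2
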