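import Pool.Agent.ETC.QSat2

/-!
Towards THEOREM R2 of note 2569 (helper46, helper31): the frame (only planes meeting `K = V_x` are
linked), the count of section 7 of the note, and Theorem (I) for a linked subspace.
-/

set_option autoImplicit false

namespace Pool.Agent.ETCR2

open Pool.Agent.Helper58.PLine (QData)
open ETC (ind ind_true ind_false ind_and ind_congr ind_nonneg ind_le)

variable {V B : Type} [AddCommGroup V] [Module (ZMod 2) V] [AddCommGroup B] [Module (ZMod 2) B]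

theorem two (b : B) : b + b = 0 := ZModModule.add_self b

theorem eo {a b : B} (h : a + b = 0) : a = b := by
  have h1 : a + b + b = b := by rw [h, zero_add]
  rwa [add_assoc, two, add_zero] at h1

theorem oe {a b : B} (h : a = b) : a + b = 0 := by rw [h, two]

theorem addl (q : V →ₗ[ZMod 2] V →ₗ[ZMod 2] B) (a b c : V) : q (a + b) c = q a c + q b c := by
  rw [map_add, LinearMap.add_apply]

theorem addr (q : V →ₗ[ZMod 2] V →ₗ[ZMod 2] B) (a b c : V) : q a (b + c) = q a b + q a c :=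
  map_add _ _ _

theorem aa (a b : B) : a + (a + b) = b := by rw [← add_assoc, two, zero_add]

theorem aab (a b : B) : a + b + b = a := by rw [add_assoc, two, add_zero]

theorem sw {a b c : B} (h : a + b = c) : a = c + b := by rw [← h, aab]

/-- the frame: the elements of `K - 0`, `K = V_x`, are linked with everything -/
structure Kc (q : V →ₗ[ZMod 2] V →ₗ[ZMod 2] B) (x : V) : Prop where
  alt : ∀ v, q v v = 0
  link : ∀ k, q x k = 0 → k ≠ 0 → ∀ w r s, q k r = q w s → ∃ y, q k y = q k r ∧ q w y = q k r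

section
variable {q : V →ₗ[ZMod 2] V →ₗ[ZMod 2] B} {x : V}

theorem Kc.symm (F : Kc q x) (a b : V) : q a b = q b a := by
  have h := F.alt (a + b)
  rw [addl, addr, addr, F.alt a, F.alt b, zero_add, add_zero] at h
  exact eo h

/-- linking `k ∈ K - 0` and any `w` at the value `t` -/
theorem Kc.lk (F : Kc q x) {k w r s : V} {t : B} (hk : q x k = 0) (k0 : k ≠ 0) (h1 : q k r = t)
    (h2 : q w s = t) : ∃ y, q k y = t ∧ q w y = t := by
  obtain ⟨y, h3, h4⟩ := F.link k hk k0 w r s (by rw [h1, h2])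
  exact ⟨y, by rw [h3, h1], by rw [h4, h1]⟩

/-- linking at a nonzero value -/
theorem Kc.lkn (F : Kc q x) {k w r s : V} {t : B} (hk : q x k = 0) (ht : t ≠ 0) (h1 : q k r = t)
    (h2 : q w s = t) : ∃ y, q k y = t ∧ q w y = t := by
  refine F.lk hk ?_ h1 h2
  rintro rfl
  exact ht (by rw [← h1, map_zero, LinearMap.zero_apply])

/-- linking a pair whose sum is in `K` -/
theorem Kc.lks (F : Kc q x) {a b r s : V} {t : B} (hk : q x (a + b) = 0) (h1 : q a r = t)
    (h2 : q b s = t) : ∃ y, q a y = t ∧ q b y = t := by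
  by_cases h0 : a + b = 0
  · have e : a = b := by
      have h3 : a + b + b = b := by rw [h0, zero_add]
      rwa [add_assoc, ZModModule.add_self, add_zero] at h3
    subst e
    exact ⟨r, h1, h1⟩
  · obtain ⟨y, h3, h4⟩ := F.link (a + b) hk h0 a s (r + s) (by
      rw [addl, addr, h1, h2, add_comm])
    refine ⟨y + s, ?_, ?_⟩
    · rw [addr, h4, addl, h2, add_comm (q a s), aab]
    · have h5 : q b y = q (a + b) y + q a y := by rw [addl, add_comm, aa]
      rw [addr, h5, h3, h4, two, zero_add, h2]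

end

/-! ### the count -/

section count

variable {q : V →ₗ[ZMod 2] V →ₗ[ZMod 2] B} {W : Submodule (ZMod 2) V}

theorem sum_shift [Fintype W] (P P' : W → Prop) (a : W) (h : ∀ v, P (v + a) ↔ P' v) :
    ∑ v, ind (P v) = ∑ v, ind (P' v) := by
  rw [← Equiv.sum_comp (Equiv.addRight a)]
  exact Finset.sum_congr rfl fun v _ => ind_congr (h v)

theorem count_eq [Fintype W] (alt : ∀ v, q v v = 0) (sy : ∀ a b, q a b = q b a) {w : V}
    (ha : ∀ a : W, ∀ s : W, ∃ k : W, q (w + a) k = 0 ∧ q (w + a + k) s = 0) :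
    ∑ m : W, ∑ l : W, ∑ a : W, ind (q (w + a) m = 0 ∧ q (w + a) l = 0) =
    ∑ m : W, ∑ l : W, ∑ a : W, ind (q a m = 0 ∧ q a l = 0) := by
  have e1 : ∑ m : W, ∑ l : W, ∑ a : W, ind (q (w + a) m = 0 ∧ q (w + a) l = 0) =
      ∑ m : W, ∑ l : W, ∑ a : W, ind (q (w + a) m = 0 ∧ q (w + a + m) l = 0) := by
    refine Finset.sum_congr rfl fun m _ => Finset.sum_congr rfl fun l _ => ?_
    symm
    refine sum_shift _ _ m fun a => ?_
    have h1 : q (w + ((a + m : W) : V)) m = q (w + a) m := by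
      rw [Submodule.coe_add, ← add_assoc, addl, alt, add_zero]
    have h2 : q (w + ((a + m : W) : V) + m) l = q (w + a) l := by
      rw [Submodule.coe_add, ← add_assoc, addl, addl, aab]
    rw [h1, h2]
  have e2 : ∑ m : W, ∑ l : W, ∑ a : W, ind (q (w + a) m = 0 ∧ q (w + a + m) l = 0) =
      ∑ m : W, ∑ l : W, ∑ a : W, ind (q (w + a) m = 0 ∧ q m l = 0) := by
    rw [Finset.sum_comm]
    rw [Finset.sum_comm (f := fun m l : W => ∑ a : W, ind (q (w + a) m = 0 ∧ q m l = 0))]
    refine Finset.sum_congr rfl fun l _ => ?_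
    rw [Finset.sum_comm]
    rw [Finset.sum_comm (f := fun m a : W => ind (q (w + a) m = 0 ∧ q m l = 0))]
    refine Finset.sum_congr rfl fun a _ => ?_
    obtain ⟨m0, h1, h2⟩ := ha a l
    refine sum_shift _ _ m0 fun m => ?_
    have g1 : q (w + a) ((m + m0 : W) : V) = q (w + a) m := by
      rw [Submodule.coe_add, addr, h1, add_zero]
    have g2 : q (w + a + ((m + m0 : W) : V)) l = q m l := by
      rw [Submodule.coe_add, add_comm (m : V), ← add_assoc, addl, h2, zero_add]
    rw [g1, g2]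
  have e3 : ∑ m : W, ∑ l : W, ∑ a : W, ind (q (w + a) m = 0 ∧ q m l = 0) =
      ∑ m : W, ∑ l : W, ∑ a : W, ind (q a m = 0 ∧ q m l = 0) := by
    refine Finset.sum_congr rfl fun m _ => Finset.sum_congr rfl fun l _ => ?_
    obtain ⟨k, -, h2⟩ := ha 0 m
    refine sum_shift _ _ k fun a => ?_
    have g : q (w + ((a + k : W) : V)) m = q a m := by
      have h3 : w + ((a + k : W) : V) = w + ((0 : W) : V) + k + a := by
        rw [Submodule.coe_add, Submodule.coe_zero]; abel
      rw [h3, addl, h2, zero_add]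
    rw [g]
  rw [e1, e2, e3]
  have e4 : ∀ (f : W → W → W → ℤ), ∑ m, ∑ l, ∑ a, f m l a = ∑ m, ∑ l, ∑ a, f a l m := by
    intro f
    calc ∑ m, ∑ l, ∑ a, f m l a = ∑ l, ∑ m, ∑ a, f m l a := Finset.sum_comm
      _ = ∑ l, ∑ a, ∑ m, f m l a := Finset.sum_congr rfl fun l _ => Finset.sum_comm
      _ = ∑ a, ∑ l, ∑ m, f m l a := Finset.sum_comm
  rw [e4]
  refine Finset.sum_congr rfl fun m _ => Finset.sum_congr rfl fun l _ =>
    Finset.sum_congr rfl fun a _ => ind_congr ?_
  rw [sy a m]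

/-- section 7 of the note: every element of the coset `w + W` acts on every pair of elements of
`W` as an element of `W` -/
theorem count [Finite V] (alt : ∀ v, q v v = 0) (sy : ∀ a b, q a b = q b a) {w : V}
    (ha : ∀ a ∈ W, ∀ s ∈ W, ∃ k ∈ W, q (w + a) k = 0 ∧ q (w + a + k) s = 0) {m l : V}
    (hm : m ∈ W) (hl : l ∈ W) : ∃ n ∈ W, q (w + n) m = 0 ∧ q (w + n) l = 0 := by
  classical
  have := Fintype.ofFinite W
  have ha' : ∀ a : W, ∀ s : W, ∃ k : W, q (w + a) k = 0 ∧ q (w + a + k) s = 0 := by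
    rintro ⟨a, h1⟩ ⟨s, h2⟩
    obtain ⟨k, h3, h4⟩ := ha a h1 s h2
    exact ⟨⟨k, h3⟩, h4⟩
  have hle : ∀ m l : W, ∑ a : W, ind (q (w + a) m = 0 ∧ q (w + a) l = 0) ≤
      ∑ a : W, ind (q a m = 0 ∧ q a l = 0) := by
    intro m l
    by_cases h : ∃ a : W, q (w + a) m = 0 ∧ q (w + a) l = 0
    · obtain ⟨a0, h4, h5⟩ := h
      refine le_of_eq (sum_shift _ _ a0 fun a => ?_)
      have g : ∀ y, q (w + a0) y = 0 → q (w + ((a + a0 : W) : V)) y = q a y := by
        intro y hy
        have h3 : w + ((a + a0 : W) : V) = w + (a0 : V) + a := by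
          rw [Submodule.coe_add]; abel
        rw [h3, addl, hy, zero_add]
      rw [g _ h4, g _ h5]
    · push Not at h
      rw [Finset.sum_eq_zero]
      · exact Finset.sum_nonneg fun a _ => ind_nonneg _
      · intro a _
        exact ind_false fun hh => h a hh.1 hh.2
  have heq := count_eq alt sy ha'
  have h1 := (Finset.sum_eq_sum_iff_of_le
    (fun m _ => Finset.sum_le_sum fun l _ => hle m l)).1 heq ⟨m, hm⟩ (Finset.mem_univ _)
  have h2 := (Finset.sum_eq_sum_iff_of_le (fun l _ => hle ⟨m, hm⟩ l)).1 h1 ⟨l, hl⟩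
    (Finset.mem_univ _)
  by_contra hne
  push Not at hne
  have h3 : ∑ a : W, ind (q (w + a) m = 0 ∧ q (w + a) l = 0) = 0 := by
    refine Finset.sum_eq_zero fun a _ => ind_false fun hh => hne a a.2 hh.1 hh.2
  have h4 : (0 : ℤ) < ∑ a : W, ind (q (a : V) m = 0 ∧ q (a : V) l = 0) := by
    refine Finset.sum_pos' (fun a _ => ind_nonneg _) ⟨0, Finset.mem_univ _, ?_⟩
    rw [ind_true ⟨by simp, by simp⟩]
    exact one_pos
  simp only at h2
  rw [← h2, h3] at h4
  exact lt_irrefl _ h4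

/-- Theorem (I) on a linked subspace -/
theorem inner [Finite V] (alt : ∀ v, q v v = 0) (sy : ∀ a b, q a b = q b a)
    (hL : ∀ a ∈ W, ∀ b ∈ W, ∀ a' ∈ W, ∀ b' ∈ W, q a b = q a' b' →
      ∃ n ∈ W, q a n = q a b ∧ q a' n = q a b) {v : V}
    (hv : ∀ m ∈ W, ∀ l ∈ W, ∃ n ∈ W, q (v + n) m = 0 ∧ q (v + n) l = 0) :
    ∃ p ∈ W, ∀ m ∈ W, q m (v + p) = 0 := by
  let S : QData W B :=
    { q := fun a b => q a b
      z := 0
      e := 0
      symm := fun a b => sy _ _
      add := fun a b w => by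
        rw [Submodule.coe_add, addr]
        exact ⟨oe, eo⟩
      diag := fun a => by rw [add_zero]; exact alt _
      link := by
        rintro ⟨a, ha⟩ ⟨b, hb⟩ ⟨a', ha'⟩ ⟨b', hb'⟩ h
        simp only at h
        obtain ⟨n, h1, h2, h3⟩ := hL a ha b hb a' ha' b' hb' h
        exact ⟨⟨n, h1⟩, h2.symm, by rw [← h]; exact h3.symm⟩ }
  have hα : ETC.Pairwise2 S (fun m : W => q (m : V) v) := by
    rintro ⟨m, hm⟩ ⟨l, hl⟩
    obtain ⟨n, hn, h1, h2⟩ := hv m hm l hl
    have e1 : q m v = q m n := by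
      rw [sy, addr] at h1
      exact eo h1
    have e2 : q l v = q l n := by
      rw [sy, addr] at h2
      exact eo h2
    refine ⟨⟨n, hn⟩, e1, e2, ?_⟩
    change q (m + l) v = q (m + l) n
    rw [addl, addl, e1, e2]
  obtain ⟨⟨p, hp⟩, h⟩ := ETC.saturation hα
  refine ⟨p, hp, fun m hm => ?_⟩
  have h1 : q m v = q m p := h ⟨m, hm⟩
  rw [addr, h1, two]

end count

end Pool.Agent.ETCR2
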