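import Pool.Agent.ETCR2.Base

/-!
(2') of note 2600 (helper58), for all linked structures without radical: every functional vanishes
on the centralizer of some element.
-/

set_option autoImplicit false
set_option linter.unusedSectionVars false

namespace Pool.Agent.ETCR2

open Pool.Agent.Helper58.PLine (QData)
open ETC

variable {V B : Type} [AddCommGroup V] [Module (ZMod 2) V] [AddCommGroup B] [Module (ZMod 2) B]

theorem sepQ {Q : Type} (S : QData V Q) [Finite V] (hr : ∀ v, (∀ m, S.q m v = S.z) → v = 0)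
    (f : V →ₗ[ZMod 2] ZMod 2) : ∃ m, ∀ n, S.q m n = S.z → f n = 0 := by
  have hw : Fam S (fun _ => (LinearMap.id : V →ₗ[ZMod 2] V)) :=
    ⟨fun x x' => ⟨LinearMap.id, fun η => ⟨rfl, rfl, rfl⟩⟩⟩
  have hL : ∀ η η', LkQ S (fun _ => (LinearMap.id : V →ₗ[ZMod 2] V)) η η' := by
    intro η η' x x' h
    have h' : S.q η x = S.q η' x' := by
      rw [S.symm η, S.symm η']; exact h
    obtain ⟨t, h1, h2⟩ := S.link _ _ _ _ h'
    refine ⟨t, ?_, ?_⟩
    · change S.q t η = S.q x η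
      rw [S.symm t, ← h1, S.symm]
    · change S.q t η' = S.q x η
      rw [S.symm t, ← h2, ← h', S.symm]
  let G : Submodule (ZMod 2) (V →ₗ[ZMod 2] ZMod 2) :=
    { carrier := {χ | ∃ x, ∀ η ∈ Vx S (fun _ => (LinearMap.id : V →ₗ[ZMod 2] V)) x, χ η = 0}
      add_mem' := fun h₁ h₂ => closureQ hw hL h₁ h₂
      zero_mem' := ⟨0, fun η _ => rfl⟩
      smul_mem' := by
        rintro a χ ⟨x, h⟩
        exact ⟨x, fun η hη => by rw [LinearMap.smul_apply, h η hη, smul_zero]⟩ }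
  have hf : f ∈ G := by
    by_contra hne
    obtain ⟨F, hF1, hF2⟩ := exists_dual_sep hne
    obtain ⟨z, rfl⟩ := (Module.evalEquiv (ZMod 2) V).surjective F
    have hz : z = 0 := by
      refine hr z fun m => ?_
      by_contra hne
      have hne' : z ∉ Vx S (fun _ => (LinearMap.id : V →ₗ[ZMod 2] V)) m := hne
      obtain ⟨χ, hχ1, hχ2⟩ := exists_dual_sep hne'
      have h3 := hF2 χ ⟨m, hχ2⟩
      rw [Module.evalEquiv_apply, Module.Dual.eval_apply, hχ1] at h3
      exact one_ne_zero h3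
    rw [Module.evalEquiv_apply, Module.Dual.eval_apply, hz, map_zero] at hF1
    exact zero_ne_one hF1
  obtain ⟨m, hm⟩ := hf
  exact ⟨m, fun n hn => hm n hn⟩

/-- the same for a linked subspace -/
theorem sep [Finite V] {q : V →ₗ[ZMod 2] V →ₗ[ZMod 2] B} {W : Submodule (ZMod 2) V}
    (alt : ∀ v, q v v = 0) (sy : ∀ a b, q a b = q b a)
    (hL : ∀ a ∈ W, ∀ b ∈ W, ∀ a' ∈ W, ∀ b' ∈ W, q a b = q a' b' →
      ∃ n ∈ W, q a n = q a b ∧ q a' n = q a b)
    (hr : ∀ v ∈ W, (∀ m ∈ W, q m v = 0) → v = 0) (f : V →ₗ[ZMod 2] ZMod 2) :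
    ∃ m ∈ W, ∀ n ∈ W, q m n = 0 → f n = 0 := by
  let S : QData W B :=
    { q := fun a b => q a b
      z := 0
      e := 0
      symm := fun a b => sy _ _
      add := fun a b w => by
        rw [Submodule.coe_add, addr]
        exact ⟨oe, ETCR2.eo⟩
      diag := fun a => by rw [add_zero]; exact alt _
      link := by
        rintro ⟨a, ha⟩ ⟨b, hb⟩ ⟨a', ha'⟩ ⟨b', hb'⟩ h
        simp only at h
        obtain ⟨n, h1, h2, h3⟩ := hL a ha b hb a' ha' b' hb' h
        exact ⟨⟨n, h1⟩, h2.symm, by rw [← h]; exact h3.symm⟩ }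
  obtain ⟨⟨m, hm⟩, h⟩ := sepQ S (by
    rintro ⟨v, hv⟩ h
    exact Subtype.ext (hr v hv fun m hm => h ⟨m, hm⟩)) (f.comp W.subtype)
  exact ⟨m, hm, fun n hn h0 => h ⟨n, hn⟩ h0⟩

end Pool.Agent.ETCR2
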