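import Pool.Agent.ETCR2.LD
import Pool.Agent.ETCR2.Sep
import Pool.Agent.ETCD2.AN4

/-!
THEOREM D2c of note 2600 (helper58): if `|V_x|` is maximal and `V_{x+l} ⊆ V_x` for all
`l ∈ A_c(x)`, then the elements commuting with an element of `X_c` are in `V_x ∪ X_c`.
-/

set_option autoImplicit false
set_option linter.unusedSectionVars false

namespace Pool.Agent.ETCR2

open Pool.Agent.ETCD2.TT (Sl)
open Pool.Agent.ETCD2.AN (CL Kx)

variable {V B : Type} [AddCommGroup V] [Module (ZMod 2) V] [AddCommGroup B] [Module (ZMod 2) B]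

/-- the hypotheses -/
structure DX (q : V →ₗ[ZMod 2] V →ₗ[ZMod 2] B) (x : V) (c : B) : Prop extends LD q x c where
  full : ∀ a b r s, q a b = q r s → ∃ y, q a y = q a b ∧ q r y = q a b
  x0 : x ≠ 0
  mr : ∀ v, v ≠ 0 → Nat.card {t // q v t = 0} ≤ Nat.card {t // q x t = 0}

section
variable {q : V →ₗ[ZMod 2] V →ₗ[ZMod 2] B} {x : V} {c : B}

namespace DX

variable (X : DX q x c)

include X

theorem com {s t : V} (hs : Sl q c s) (ht : Sl q c t) : ∃ y, q s y = c ∧ q t y = c := by
  obtain ⟨v, hv⟩ := hs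
  obtain ⟨w, hw⟩ := ht
  obtain ⟨y, h1, h2⟩ := X.full s v t w (hv.trans hw.symm)
  exact ⟨y, h1.trans hv, h2.trans hv⟩

theorem slx : Sl q c x := X.hw

/-- (0) -/
theorem z0 {s t : V} (ht : Sl q c t) (h : Sl q c (s + t)) : ∃ u, q s u = 0 ∧ q t u = c := by
  obtain ⟨u, h1, h2⟩ := X.com ht h
  refine ⟨u, ?_, h1⟩
  rw [addl, h1] at h2
  have := sw h2
  rwa [two] at this

theorem slot_of {s t : V} (h : q s t = c) : Sl q c t := ⟨s, by rw [X.symm]; exact h⟩

theorem memA {l : V} (hl : q x l = 0) (h : Sl q c (l + x)) : A q x c l := by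
  obtain ⟨u, h1, h2⟩ := X.z0 (s := l) X.slx h
  exact ⟨hl, u, h2, h1⟩

/-- (1) -/
theorem one {s y : V} (hs : Sl q c s) (hy : q x y = c) (h : q s y = 0) :
    q x s = c ∧ A q x c (s + y) := by
  have h1 : Sl q c (x + s) := ⟨y, by rw [addl, hy, h, add_zero]⟩
  obtain ⟨t, h2, h3⟩ := X.z0 hs h1
  have h4 : Sl q c (t + x + x) := by
    rw [add_assoc, ZModModule.add_self, add_zero]
    exact X.slot_of h3
  have h5 : A q x c (t + x) := X.memA (by rw [addr, h2, X.alt, add_zero]) h4
  have h6 : q (t + x + x) s = c := by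
    rw [add_assoc, ZModModule.add_self, add_zero, X.symm]
    exact h3
  obtain ⟨h7, -⟩ := X.nb h5 h6
  refine ⟨h7, X.memA (by rw [addr, h7, hy, two]) ⟨y, ?_⟩⟩
  rw [addl, addl, h, X.alt, hy, zero_add, zero_add]

variable [Finite V]

theorem no_bigger {v t : V} (hv : v ≠ 0) (h : ∀ t, q x t = 0 → q v t = 0) (ht : q v t = 0) :
    q x t = 0 := by
  have h1 := X.mr v hv
  have h2 : ({t | q x t = 0} : Set V) = {t | q v t = 0} :=
    Set.eq_of_subset_of_ncard_le (fun t ht => h t ht) h1 (Set.toFinite _)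
  have h3 : t ∈ ({t | q v t = 0} : Set V) := ht
  rw [← h2] at h3
  exact h3

/-- `T` is not empty -/
theorem exT {w : V} (hw : q x w = c) : ∃ p, A q x c p ∧ q x (w + p) = c ∧
    ∀ m, A q x c m → q m (w + p) = 0 := by
  obtain ⟨p, h1, h2⟩ := X.exw hw
  exact ⟨p, h1, by rw [addr, hw, h1.1, add_zero], h2⟩

/-- `rad A = 0` -/
theorem rad {l : V} (hl : A q x c l) (h : ∀ m, A q x c m → q l m = 0) : l = 0 := by
  by_contra hne
  obtain ⟨w, hw⟩ := X.hw
  obtain ⟨p, -, h1, h2⟩ := X.exT hw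
  have h3 : ∀ t, q x t = 0 → q l t = 0 := by
    intro t ht
    obtain ⟨p, hp, hp'⟩ := X.split ht
    have := hp' l hl
    rw [addr, h p hp, add_zero] at this
    exact this
  have h4 := X.no_bigger hne h3 (h2 l hl)
  rw [h1] at h4
  exact X.cne h4

theorem uniq {t l l' : V} (hl : A q x c l) (hl' : A q x c l')
    (h : ∀ m, A q x c m → q m (t + l) = 0) (h' : ∀ m, A q x c m → q m (t + l') = 0) :
    l = l' := by
  apply eo
  refine X.rad (X.Aadd hl hl') fun m hm => ?_
  have h1 := h m hm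
  have h2 := h' m hm
  rw [addr] at h1 h2
  rw [X.symm, addr, ← eo h1, ← eo h2, two]

theorem sepA (f : V →ₗ[ZMod 2] ZMod 2) : ∃ m, A q x c m ∧ ∀ n, A q x c n → q m n = 0 → f n = 0 := by
  obtain ⟨m, h1, h2⟩ := sep (W := X.sub) X.alt X.symm
    (fun a ha b hb a' ha' b' hb' h => X.linked ha hb ha' hb' h)
    (fun v hv h => X.rad hv fun m hm => by rw [X.symm]; exact h m hm) f
  exact ⟨m, h1, fun n hn => h2 n hn⟩

/-- (3) (J1) -/
theorem j1 {s : V} (hs : Sl q c s) :
    ∃ y, q s y = c ∧ q x y = c ∧ ∀ m, A q x c m → q m y = 0 := by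
  -- `U`: the `A`-components of the elements of `V_s ∩ K`
  let U : Submodule (ZMod 2) V :=
    { carrier := {a | A q x c a ∧ ∃ k, q s k = 0 ∧ q x k = 0 ∧
        ∀ m, A q x c m → q m (k + a) = 0}
      zero_mem' := ⟨X.A0, 0, map_zero _, map_zero _, fun m _ => by rw [add_zero, map_zero]⟩
      add_mem' := by
        rintro a b ⟨ha, k, h1, h2, h3⟩ ⟨hb, l, h1', h2', h3'⟩
        refine ⟨X.Aadd ha hb, k + l, by rw [addr, h1, h1', add_zero],
          by rw [addr, h2, h2', add_zero], fun m hm => ?_⟩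
        have e : k + l + (a + b) = (k + a) + (l + b) := by abel
        rw [e, addr, h3 m hm, h3' m hm, add_zero]
      smul_mem' := by
        intro r a ha
        rcases Pool.Agent.Helper58.PLine.zm r with rfl | rfl
        · rw [zero_smul]
          exact ⟨X.A0, 0, map_zero _, map_zero _, fun m _ => by rw [add_zero, map_zero]⟩
        · rw [one_smul]; exact ha }
  obtain ⟨t0, h1, h2⟩ := X.com hs X.slx
  obtain ⟨p0, hp0, h3, h4⟩ := X.exT h2
  by_cases hU : p0 ∈ U
  · obtain ⟨-, k, k1, k2, k3⟩ := hU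
    refine ⟨t0 + k, by rw [addr, h1, k1, add_zero], by rw [addr, h2, k2, add_zero],
      fun m hm => ?_⟩
    have e : t0 + k = (t0 + p0) + (k + p0) := by
      have : (t0 + p0) + (k + p0) = t0 + k + (p0 + p0) := by abel
      rw [this, ZModModule.add_self, add_zero]
    rw [e, addr, h4 m hm, k3 m hm, add_zero]
  · exfalso
    obtain ⟨f, f1, f2⟩ := ETC.exists_dual_sep hU
    obtain ⟨m, hm, hf⟩ := X.sepA f
    -- `t` in `N_s ∩ X_c` commutes with `m`
    have h5 : Sl q c (m + x) := by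
      obtain ⟨-, u, h6, h7⟩ := hm
      exact ⟨u, X.slot h6 h7⟩
    obtain ⟨t, h6, h7⟩ := X.com hs h5
    obtain ⟨h8, h9⟩ := X.nb hm h7
    obtain ⟨p, hp, h10, h11⟩ := X.exT h8
    have h12 : q m p = 0 := by
      have := h11 m hm
      rw [addr, h9, zero_add] at this
      exact this
    have h13 := hf p hp h12
    have h14 : p0 + p ∈ U := by
      refine ⟨X.Aadd hp0 hp, t0 + t, by rw [addr, h1, h6, two], by rw [addr, h2, h8, two],
        fun n hn => ?_⟩
      have e : t0 + t + (p0 + p) = (t0 + p0) + (t + p) := by abel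
      rw [e, addr, h4 n hn, h11 n hn, add_zero]
    have h15 := f2 _ h14
    rw [map_add, f1, h13, add_zero] at h15
    exact one_ne_zero h15

/-- `A < Stab (S)` -/
theorem stab {s a : V} (hs : Sl q c s) (ha : A q x c a) : Sl q c (s + a) := by
  obtain ⟨y, h1, -, h3⟩ := X.j1 hs
  exact ⟨y, by rw [addl, h1, h3 a ha, add_zero]⟩

/-- (4) -/
theorem four {s y l : V} (hs : Sl q c s) (hy : q x y = c) (hyA : ∀ m, A q x c m → q m y = 0)
    (hsy : Sl q c (s + y)) (hl : A q x c l) : ∃ k, A q x c k ∧ q l k = 0 ∧ q s (y + k) = c := by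
  have h1 : Sl q c ((y + l) + s) := by
    have e : (y + l) + s = (s + y) + l := by abel
    rw [e]
    exact X.stab hsy hl
  obtain ⟨t, h2, h3⟩ := X.z0 hs h1
  have h4 : q x (y + l) = c := by rw [addr, hy, hl.1, add_zero]
  obtain ⟨h5, h6⟩ := X.one (s := t) (X.slot_of h3) h4 (by rw [X.symm]; exact h2)
  refine ⟨t + (y + l) + l, X.Aadd h6 hl, ?_, ?_⟩
  · have h7 : q y (t + (y + l)) = 0 := by
      rw [X.symm]
      exact hyA _ h6
    have h8 : q (y + l) (t + (y + l)) = 0 := by rw [addr, h2, X.alt, add_zero]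
    rw [addl, h7, zero_add] at h8
    rw [addr, h8, X.alt, add_zero]
  · have e : y + (t + (y + l) + l) = t + ((y + y) + (l + l)) := by abel
    rw [e, ZModModule.add_self, ZModModule.add_self, add_zero, add_zero]
    exact h3

/-- (5) -/
theorem five {s y : V} (hs : Sl q c s) (hy : q x y = c) (hyA : ∀ m, A q x c m → q m y = 0)
    (hsy : Sl q c (s + y)) : q s y = c := by
  by_contra hne
  have hd : c + q s y ≠ 0 := fun h => hne (eo h).symm
  obtain ⟨lam, hlam⟩ := ETC.exists_dual_ne hd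
  obtain ⟨m, hm, hf⟩ := X.sepA (lam.comp (q s))
  obtain ⟨k, h1, h2, h3⟩ := X.four hs hy hyA hsy hm
  have h4 := hf k h1 h2
  have h5 : q s k = c + q s y := by
    rw [addr, add_comm] at h3
    exact sw h3
  rw [LinearMap.comp_apply, h5, hlam] at h4
  exact one_ne_zero h4

theorem Ay {y l : V} (hy : q x y = c) (hl : A q y c l) : A q x c l := by
  obtain ⟨h1, w, h2, h3⟩ := hl
  obtain ⟨-, h4⟩ := X.one (s := y + l) (y := y) ⟨w, by rw [addl, h2, h3, add_zero]⟩ hy
    (by rw [addl, X.alt, X.symm, h1, add_zero])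
  have e : y + l + y = l := by
    have : y + l + y = l + (y + y) := by abel
    rw [this, ZModModule.add_self, add_zero]
  rwa [e] at h4

/-- (6) -/
theorem six {y : V} (hy : q x y = c) (hyA : ∀ m, A q x c m → q m y = 0) : LD q y c where
  alt := X.alt
  link := fun k _ _ w r s h => X.full k r w s h
  cne := X.cne
  hw := ⟨x, by rw [X.symm]; exact hy⟩
  d2 := by
    intro l hl u hu
    have hl' := X.Ay hy hl
    have h1 : q (x + u) (y + l) = c := by
      rw [addl, addr, hy, hl'.1, add_zero, X.symm u, add_comm y l, hu, add_zero]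
    have h2 : q y (y + l) = 0 := by
      rw [addr, X.alt, X.symm, hyA l hl', add_zero]
    have h3 := X.five (s := x + u) ⟨_, h1⟩ hy hyA ⟨y + l, by rw [addl, h1, h2, add_zero]⟩
    rw [addl, hy, X.symm u] at h3
    exact add_eq_left.1 h3

/-- (7) -/
theorem seven {s : V} (hs : Sl q c s) :
    ∃ p, A q x c p ∧ Sl q c (s + p) ∧ ∀ m, A q x c m → q m (s + p) = 0 := by
  obtain ⟨y, h1, h2, h3⟩ := X.j1 hs
  obtain ⟨p, h4, h5⟩ := (X.six h2 h3).split (k := s + x) (by
    rw [addr, X.symm, h1, X.symm, h2, two])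
  have h6 := X.Ay h2 h4
  refine ⟨p, h6, X.stab hs h6, fun m hm => ?_⟩
  have h7 := h5 m ⟨by rw [X.symm]; exact h3 m hm, x, by rw [X.symm]; exact h2, by
    rw [X.symm]; exact hm.1⟩
  have e : s + x + p = x + (s + p) := by abel
  rw [e, addr, X.symm m x, hm.1, zero_add] at h7
  exact h7

omit [Finite V] in
/-- `V_A` -/
def VA (_ : DX q x c) : Submodule (ZMod 2) V where
  carrier := {v | ∀ m, A q x c m → q m v = 0}
  zero_mem' := fun m _ => map_zero _
  add_mem' := fun h h' m hm => by rw [addr, h m hm, h' m hm, add_zero]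
  smul_mem' := fun r v h m hm => by rw [map_smul, h m hm, smul_zero]

/-- the restriction to `V_A` -/
def qA (X : DX q x c) : X.VA →ₗ[ZMod 2] X.VA →ₗ[ZMod 2] B := q.domRestrict₁₂ X.VA X.VA

omit [Finite V] in
theorem qA_apply (a b : X.VA) : X.qA a b = q a b := rfl

theorem slA {s : X.VA} (hs : Sl q c (s : V)) : Sl X.qA c s := by
  obtain ⟨y, h1, -, h3⟩ := X.j1 hs
  exact ⟨⟨y, h3⟩, h1⟩

theorem clA : CL X.qA c where
  alt := fun v => X.alt _
  c0 := X.cne
  link := by
    rintro s t ⟨v, hv⟩ ⟨w, hw⟩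
    obtain ⟨z, h1, h2⟩ := X.com (s := (s : V)) (t := (t : V)) ⟨v, hv⟩ ⟨w, hw⟩
    obtain ⟨p, hp, -, h4⟩ := X.seven (s := z) (X.slot_of h1)
    refine ⟨⟨z + p, h4⟩, ?_, ?_⟩
    · change q (s : V) (z + p) = c
      rw [addr, h1, X.symm, s.2 p hp, add_zero]
    · change q (t : V) (z + p) = c
      rw [addr, h2, X.symm, t.2 p hp, add_zero]

omit [Finite V] in
theorem xA : x ∈ X.VA := fun m hm => by rw [X.symm]; exact hm.1

theorem cardA {v : X.VA} (hv : v ≠ 0) :
    Nat.card (Kx X.qA v) ≤ Nat.card (Kx X.qA ⟨x, X.xA⟩) := by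
  have hv' : (v : V) ≠ 0 := fun h => hv (Subtype.ext h)
  have h1 : Nat.card (X.sub × Kx X.qA v) ≤ Nat.card {t // q (v : V) t = 0} := by
    refine Nat.card_le_card_of_injective (fun p => ⟨(p.1 : V) + ((p.2 : X.VA) : V), ?_⟩) ?_
    · have h2 : q (v : V) ((p.2 : X.VA) : V) = 0 := p.2.2
      rw [addr, h2, X.symm, v.2 _ p.1.2, add_zero]
    · rintro ⟨⟨a, ha⟩, ⟨w, hw⟩⟩ ⟨⟨a', ha'⟩, ⟨w', hw'⟩⟩ h
      have h2 : a + (w : V) = a' + (w' : V) := congrArg Subtype.val h
      have h3 : a = a' := by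
        apply eo
        refine X.rad (X.Aadd ha ha') fun m hm => ?_
        have e : a + a' = (w : V) + w' := by
          apply eo
          have : a + a' + ((w : V) + w') = (a + w) + (a' + w') := by abel
          rw [this, h2, two]
        rw [X.symm, e, addr, w.2 m hm, w'.2 m hm, add_zero]
      subst h3
      have h4 : w = w' := Subtype.ext (add_left_cancel h2)
      subst h4
      rfl
  have h2 : Nat.card {t // q x t = 0} ≤ Nat.card (X.sub × Kx X.qA ⟨x, X.xA⟩) := by
    refine Nat.card_le_card_of_surjective (fun p => ⟨(p.1 : V) + ((p.2 : X.VA) : V), ?_⟩) ?_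
    · have h2 : q x ((p.2 : X.VA) : V) = 0 := p.2.2
      have h3 : A q x c (p.1 : V) := p.1.2
      rw [addr, h2, h3.1, add_zero]
    · rintro ⟨t, ht⟩
      obtain ⟨p, hp, h3⟩ := X.split ht
      refine ⟨⟨⟨p, hp⟩, ⟨⟨t + p, h3⟩, ?_⟩⟩, ?_⟩
      · change q x (t + p) = 0
        rw [addr, ht, hp.1, add_zero]
      · apply Subtype.ext
        change p + (t + p) = t
        rw [add_comm t, ← add_assoc, ZModModule.add_self, zero_add]
  have h3 := h1.trans ((X.mr _ hv').trans h2)
  rw [Nat.card_prod, Nat.card_prod] at h3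
  have h4 : 0 < Nat.card X.sub := Nat.card_pos
  exact Nat.le_of_mul_le_mul_left h3 h4

theorem thA {s : X.VA} (hs : Sl X.qA c s) (h : X.qA ⟨x, X.xA⟩ s = 0) : s = ⟨x, X.xA⟩ := by
  obtain ⟨v, hv⟩ := hs
  have h1 : A q x c ((s : V) + x) := X.memA (by
    rw [addr, X.alt, add_zero]; exact h) ⟨v, by
      rw [add_assoc, ZModModule.add_self, add_zero]; exact hv⟩
  have h2 := X.rad h1 fun m hm => by
    rw [X.symm, addr, s.2 m hm, X.xA m hm, add_zero]
  exact Subtype.ext (eo h2)

/-- (8) -/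
theorem eight {s : X.VA} (hs : Sl X.qA c s) : s = ⟨x, X.xA⟩ ∨ q x (s : V) = c := by
  have hx : Sl X.qA c ⟨x, X.xA⟩ := X.slA X.slx
  by_cases h4 : 4 ≤ Nat.card (Kx X.qA ⟨x, X.xA⟩)
  · have M : Pool.Agent.ETCD2.AN.MX X.qA c (Nat.card (Kx X.qA ⟨x, X.xA⟩)) :=
      { th := { toCL := X.clA
                thin := fun t s ht hs h => X.clA.thin1 hx (fun v hv h => X.thA hv h) ht hs h }
        mx := fun v hv => X.cardA hv }
    exact M.an h4 hx rfl s hs
  · obtain ⟨z, h1, h2⟩ := X.clA.link _ _ hx hs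
    have hz : z ≠ 0 := by
      rintro rfl
      rw [map_zero] at h1
      exact X.cne h1.symm
    have h3 := X.cardA hz
    by_cases e1 : (⟨x, X.xA⟩ : X.VA) + s = 0
    · left
      exact (eo e1).symm
    by_cases e2 : (⟨x, X.xA⟩ : X.VA) + s = z
    · right
      have e3 : (s : V) = x + z := by
        have : (s : V) = x + (x + s) := by rw [← add_assoc, ZModModule.add_self, zero_add]
        rw [this]
        congr 1
        exact congrArg Subtype.val e2
      rw [e3, addr, X.alt, zero_add]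
      exact h1
    · exfalso
      apply h4
      refine le_trans ?_ h3
      have zs : X.qA z (⟨x, X.xA⟩ + s) = 0 := by
        rw [map_add, X.clA.symm z, X.clA.symm z, h1, h2, two]
      have zz : X.qA z z = 0 := X.clA.alt z
      let g : Fin 4 → Kx X.qA z := ![0, ⟨z, zz⟩, ⟨⟨x, X.xA⟩ + s, zs⟩,
        ⟨z + (⟨x, X.xA⟩ + s), by
          change X.qA z (z + (⟨x, X.xA⟩ + s)) = 0
          rw [map_add, zz, zs, add_zero]⟩]
      have hg : Function.Injective g := by
        intro i j h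
        have h' : ((g i : X.VA)) = (g j : X.VA) := congrArg Subtype.val h
        have n1 : z + (⟨x, X.xA⟩ + s) ≠ 0 := fun h => e2 (eo h).symm
        have n2 : z + (⟨x, X.xA⟩ + s) ≠ z := fun h => e1 (add_eq_left.1 h)
        have n3 : z + (⟨x, X.xA⟩ + s) ≠ ⟨x, X.xA⟩ + s := fun h => hz (add_eq_right.1 h)
        fin_cases i <;> fin_cases j <;> first | rfl | exfalso
        · exact hz h'.symm
        · exact e1 h'.symm
        · exact n1 h'.symm
        · exact hz h'
        · exact e2 h'.symm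
        · exact n2 h'.symm
        · exact e1 h'
        · exact e2 h'
        · exact n3 h'.symm
        · exact n1 h'
        · exact n2 h'
        · exact n3 h'
      have := Nat.card_le_card_of_injective g hg
      rwa [Nat.card_fin] at this

/-- (9): `Δ_c(x) = <c>` -/
theorem nine {w s : V} (hw : q x w = c) (hs : q w s = 0) : q x s = 0 ∨ q x s = c := by
  have h1 : Sl q c (x + s) := ⟨w, by rw [addl, hw, X.symm, hs, add_zero]⟩
  obtain ⟨p, hp, h2, h3⟩ := X.seven h1
  have h4 : q x (x + s + p) = q x s := by rw [addr, addr, X.alt, hp.1, zero_add, add_zero]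
  rcases X.eight (s := ⟨x + s + p, h3⟩) (X.slA h2) with h | h
  · left
    have h5 : x + s + p = x := congrArg Subtype.val h
    rw [← h4, h5, X.alt]
  · right
    rw [← h4]
    exact h

end DX

end

/-- **THEOREM D2c** (note 2600, helper58; with THEOREM AN-M of helper62 and LDc of helper32).
`V` finite, `q` alternating and linked, `x ≠ 0` of maximal centralizer, `c ≠ 0` a value of `x`.
If `V_{x+l} ⊆ V_x` for all `l ∈ V_x` commuting with some `v`, `q x v = c`, then
`q x w = c` and `q w s = 0` imply `q x s ∈ {0, c}`. -/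
theorem d2c [Finite V] {q : V →ₗ[ZMod 2] V →ₗ[ZMod 2] B} (alt : ∀ v, q v v = 0)
    (link : ∀ a b r s, q a b = q r s → ∃ y, q a y = q a b ∧ q r y = q a b) {x : V} (x0 : x ≠ 0)
    (mr : ∀ v, v ≠ 0 → Nat.card {t // q v t = 0} ≤ Nat.card {t // q x t = 0}) {c : B}
    (c0 : c ≠ 0) (hd : ∀ l v, q x l = 0 → q x v = c → q l v = 0 → ∀ u, q (l + x) u = 0 →
      q x u = 0) {w s : V} (hw : q x w = c) (hs : q w s = 0) : q x s = 0 ∨ q x s = c := by
  have X : DX q x c :=
    { alt := alt
      link := fun k _ _ w r s h => link k r w s h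
      cne := c0
      hw := ⟨w, hw⟩
      d2 := fun l ⟨h1, v, h2, h3⟩ => hd l v h1 h2 h3
      full := link
      x0 := x0
      mr := mr }
  exact X.nine hw hs

end Pool.Agent.ETCR2
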