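import Pool.Agent.ETCR2.D2cQ3

/-!
D2C+ of note 2612 (helper93): the genuine form of THEOREM D2c, in all worlds.
-/

set_option autoImplicit false
set_option linter.unusedSectionVars false
set_option linter.unusedSimpArgs false
set_option linter.unnecessarySeqFocus false

namespace Pool.Agent.ETCR2

open Pool.Agent.Helper58.PLine (QData)
open Pool.Agent.ETCP
open Pool.Agent.ETCD2 (K4At)

variable {V Q : Type} [AddCommGroup V] [Module (ZMod 2) V] {D : QData V Q}

/-- `c ∈ q (K, K)`: no rank hypothesis -/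
theorem genuine1 (he : D.e = 0) {x : V} (k4 : K4At D x) {u k l : V}
    (hu : ¬ C D x u) (hk : C D x k) (hl : C D x l) (hkl : D.q k l = D.q x u) :
    ∃ l v t, C D x l ∧ C D x (u + v) ∧ C D l v ∧ C D (x + l) t ∧ ¬ C D x t ∧ ¬ C D x (t + u) := by
  by_contra hcon
  have H : ∀ l v t, C D x l → C D x (u + v) → C D l v → C D (x + l) t →
      C D x t ∨ C D x (t + u) := by
    intro l v t h1 h2 h3 h4
    by_contra h5
    push Not at h5
    exact hcon ⟨l, v, t, h1, h2, h3, h4, h5.1, h5.2⟩
  have xx := C.self he x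
  -- `H` in terms of `c ∈ Q_m`
  have H1 : ∀ m r t, C D x m → D.q m r = D.q x u → C D m t → C D x t ∨ C D x (t + u) := by
    intro m r t h1 h2 h3
    obtain ⟨v, g1, g2, g3⟩ := link h2.symm
    refine H (m + x) v t (h1.add xx) g1 (g3.of_eq (add_comm _ _) rfl) (h3.of_eq ?_ rfl)
    exact eo (by abel_nf <;> simp only [ch2, ch3, ch4, add_zero, zero_add])
  have hkx : D.q (k + x) l = D.q x u := by
    rw [← hkl]
    exact q_eq' (hl.of_eq (eo (by abel_nf <;> simp only [ch2, ch3, ch4, add_zero, zero_add])) rfl)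
  obtain ⟨w, s', h1, h2, h3, h4⟩ := k4 u hu
  have hxw : D.q x w = D.q x u := (q_eq_iff.2 h1).symm
  have hsw : D.q (s' + x) w = D.q x u := by
    rw [← hxw]
    exact q_eq' (h2.symm.of_eq (eo (by abel_nf <;> simp only [ch2, ch3, ch4, add_zero, zero_add]))
      rfl)
  -- `τ ∈ K` is impossible
  have noK : ∀ τ, D.q (s' + x) τ = D.q x u → C D x τ → False := by
    intro τ g1 g2
    have g3 : D.q s' τ = D.q x w := by
      rw [hxw, ← g1]
      exact q_eq' (g2.of_eq (eo (by abel_nf <;> simp only [ch2, ch3, ch4, add_zero, zero_add])) rfl)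
    have g4 : D.q s' (τ + x) = D.q x (w + s') := ETC.add_common g3 (D.symm s' x)
    obtain ⟨t, e1, e2, e3⟩ := link (show D.q x (w + s') = D.q (τ + x) s' by
      rw [D.symm (τ + x), g4])
    have e4 : C D τ t := e3.of_eq (eo (by
      abel_nf <;> simp only [ch2, ch3, ch4, add_zero, zero_add])) rfl
    rcases H1 τ s' t g2 (by rw [D.symm, g3, hxw]) e4 with e5 | e5
    · apply h4
      exact ((e1.add e5).add h1).of_eq rfl (eo (by
        abel_nf <;> simp only [ch2, ch3, ch4, add_zero, zero_add]))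
    · apply h3
      exact ((e1.add e5).add h1).of_eq rfl (eo (by
        abel_nf <;> simp only [ch2, ch3, ch4, add_zero, zero_add]))
  obtain ⟨τ, a1, a2, a3⟩ := link (hsw.trans hkl.symm)
  obtain ⟨τ', b1, b2, b3⟩ := link (hsw.trans hkx.symm)
  have a4 : D.q (s' + x) τ = D.q x u := by rw [← hsw]; exact (q_eq a1).symm
  have b4 : D.q (s' + x) τ' = D.q x u := by rw [← hsw]; exact (q_eq b1).symm
  have a5 : C D x (τ + u) := by
    rcases H1 k l _ hk hkl a2 with h | h
    · exact absurd ((hl.add h).of_eq rfl (eo (by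
        abel_nf <;> simp only [ch2, ch3, ch4, add_zero, zero_add]))) (fun h => noK τ a4 h)
    · exact (hl.add h).of_eq rfl (eo (by
        abel_nf <;> simp only [ch2, ch3, ch4, add_zero, zero_add]))
  have b5 : C D x (τ' + u) := by
    rcases H1 (k + x) l _ (hk.add xx) hkx b2 with h | h
    · exact absurd ((hl.add h).of_eq rfl (eo (by
        abel_nf <;> simp only [ch2, ch3, ch4, add_zero, zero_add]))) (fun h => noK τ' b4 h)
    · exact (hl.add h).of_eq rfl (eo (by
        abel_nf <;> simp only [ch2, ch3, ch4, add_zero, zero_add]))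
  have a6 : C D s' τ := by
    have := q_eq'_iff.1 (a4.trans (q_eq_iff.2 a5).symm)
    exact this.of_eq (eo (by abel_nf <;> simp only [ch2, ch3, ch4, add_zero, zero_add])) rfl
  have b6 : C D s' τ' := by
    have := q_eq'_iff.1 (b4.trans (q_eq_iff.2 b5).symm)
    exact this.of_eq (eo (by abel_nf <;> simp only [ch2, ch3, ch4, add_zero, zero_add])) rfl
  have b7 : C D k τ' := by
    have e1 : D.q (k + x) τ' = D.q x τ' := by
      rw [(q_eq_iff.2 b5), ← hkx]
      exact (q_eq b2).symm
    exact (q_eq'_iff.1 e1).of_eq (eo (by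
      abel_nf <;> simp only [ch2, ch3, ch4, add_zero, zero_add])) rfl
  have c1 : C D x (τ + τ') := (a5.add b5).of_eq rfl (eo (by
    abel_nf <;> simp only [ch2, ch3, ch4, add_zero, zero_add]))
  have c2 : D.q (τ + τ') k = D.q x u := by
    rw [D.symm, ← hkl]
    exact q_eq ((a2.add b7).of_eq rfl (by abel))
  rcases H1 (τ + τ') k s' c1 c2 (a6.add b6).symm with h | h
  · exact h3 h
  · exact h4 h

/-- **D2C+** (note 2612, helper93): in a minimal exotic, for every class `u + V_x ≠ V_x` of an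
element `x` of minimal rank there are `l ∈ V_x`, `v ∈ u + V_x` with `q (l, v) = 0`, and `t` with
`q (x + l, t) = 0` and `q (x, t) ∉ {0, q (x, u)}`. -/
theorem genuine [Finite V] (he : D.e = 0) {x : V}
    (mr : ∀ v, v ≠ 0 → Nat.card (D.ann v) ≤ Nat.card (D.ann x)) (k4 : K4At D x) {u : V}
    (hu : ¬ C D x u) :
    ∃ l v t, C D x l ∧ C D x (u + v) ∧ C D l v ∧ C D (x + l) t ∧ ¬ C D x t ∧ ¬ C D x (t + u) := by
  obtain ⟨l, v, t, h1, h2, h3, h4, h5⟩ := no_d2c he mr k4 hu
  by_cases h6 : C D x (t + u)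
  · refine genuine1 he k4 hu h1 (l := t + v) ?_ ?_
    · exact (h6.add h2).of_eq rfl (eo (by
        abel_nf <;> simp only [ch2, ch3, ch4, add_zero, zero_add]))
    · rw [← q_eq_iff.2 h6, ← q_eq (show C D l (t + (t + v)) from h3.of_eq rfl (eo (by
        abel_nf <;> simp only [ch2, ch3, ch4, add_zero, zero_add])))]
      exact q_eq' (h4.of_eq (add_comm _ _) rfl)
  · exact ⟨l, v, t, h1, h2, h3, h4, h5, h6⟩

end Pool.Agent.ETCR2
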