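import Pool.Agent.ED2.LDc
import Pool.Agent.ETCR2.Sep

/-!
THEOREM D2c of note 2600 (helper58), set-valued: if `|V_x|` is maximal and `V_{x+l} ⊆ V_x` for all
`l ∈ A_c(x)`, then the elements commuting with an element of `X_c` are in `V_x ∪ X_c`.
Steps (0) - (7).
-/

set_option autoImplicit false
set_option linter.unusedSectionVars false
set_option linter.unusedSimpArgs false
set_option linter.unnecessarySeqFocus false

namespace Pool.Agent.ETCR2

open Pool.Agent.Helper58.PLine (QData)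
open Pool.Agent.ETCP
open Pool.Agent.ED2 (Ac LD)

variable {V Q : Type} [AddCommGroup V] [Module (ZMod 2) V]

/-- `s` is a slot of `c` -/
def SlQ (D : QData V Q) (c : Q) (s : V) : Prop := ∃ v, D.q s v = c

/-- the hypotheses -/
structure DQ (D : QData V Q) (x : V) (c : Q) : Prop extends LD D x c where
  mr : ∀ v, v ≠ 0 → Nat.card (D.ann v) ≤ Nat.card (D.ann x)

section
variable {D : QData V Q} {x : V} {c : Q}

theorem q_of_C {a b v : V} (h : C D a b) (hv : D.q a v = c) : D.q a (b + v) = c := by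
  rw [← hv]
  exact q_eq (h.of_eq rfl (eo (by abel_nf <;> simp only [ch2, ch3, ch4, add_zero, zero_add])))

theorem q_of_C' {a b v : V} (h : C D b v) (hv : D.q a v = c) : D.q (b + a) v = c := by
  rw [D.symm]
  exact q_of_C h.symm (by rw [D.symm]; exact hv)

theorem q_qC {a v w : V} (hv : D.q a v = c) (hw : D.q a w = c) : C D a (v + w) :=
  q_eq_iff.1 (hv.trans hw.symm)

theorem q_qC' {a b v : V} (hv : D.q a v = c) (hw : D.q b v = c) : C D (a + b) v :=
  q_eq'_iff.1 (hv.trans hw.symm)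

theorem q_z {a v w : V} (h : D.q a v = c) (h' : C D a (v + w)) : D.q a w = c := by
  rw [← h]; exact (q_eq h').symm

theorem q_z' {a b v : V} (h : D.q a v = c) (h' : C D (a + b) v) : D.q b v = c := by
  rw [← h]; exact (q_eq' h').symm

namespace DQ

variable (X : DQ D x c)

include X

theorem com {s t : V} (hs : SlQ D c s) (ht : SlQ D c t) : ∃ y, D.q s y = c ∧ D.q t y = c := by
  obtain ⟨v, hv⟩ := hs
  obtain ⟨w, hw⟩ := ht
  obtain ⟨y, h1, h2⟩ := D.link s v t w (hv.trans hw.symm)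
  exact ⟨y, h1.symm.trans hv, h2.symm.trans hw⟩

theorem slx : SlQ D c x := X.hw

/-- (0) -/
theorem z0 {s t : V} (ht : SlQ D c t) (h : SlQ D c (s + t)) : ∃ u, C D s u ∧ D.q t u = c := by
  obtain ⟨u, h1, h2⟩ := X.com ht h
  exact ⟨u, (q_qC' h2 h1).of_eq (eo (by abel_nf <;> simp only [ch2, ch3, ch4, add_zero, zero_add])) rfl, h1⟩

theorem slot_of {s t : V} (h : D.q s t = c) : SlQ D c t := ⟨s, by rw [D.symm]; exact h⟩

theorem memA {l : V} (hl : C D x l) (h : SlQ D c (l + x)) : Ac D x c l := by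
  obtain ⟨u, h1, h2⟩ := X.z0 (s := l) X.slx h
  exact ⟨hl, u, h2, h1⟩

/-- (1) -/
theorem one {s y : V} (hs : SlQ D c s) (hy : D.q x y = c) (h : C D s y) :
    D.q x s = c ∧ Ac D x c (s + y) := by
  have h1 : SlQ D c (x + s) := ⟨y, by rw [add_comm]; exact q_of_C' h hy⟩
  obtain ⟨t, h2, h3⟩ := X.z0 hs h1
  have e : t + x + x = t := Pool.Agent.Helper58.PLine.add_self_add _ _
  have h5 : Ac D x c (t + x) := X.memA (h2.add (C.self X.he x)) (by rw [e]; exact X.slot_of h3)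
  have h6 : D.q (x + (t + x)) s = c := by
    have : x + (t + x) = t := by rw [add_comm, e]
    rw [this, D.symm]
    exact h3
  obtain ⟨h7, -⟩ := X.nb h5 h6
  refine ⟨h7, X.memA (q_qC h7 hy) ⟨y, ?_⟩⟩
  exact q_of_C' (h.add' (C.self X.he y)) hy

variable [Finite V]

theorem no_bigger {v t : V} (hv : v ≠ 0) (h : ∀ t, C D x t → C D v t) (ht : C D v t) :
    C D x t := by
  have h1 := X.mr v hv
  have h2 : (D.ann x : Set V) = (D.ann v : Set V) :=
    Set.eq_of_subset_of_ncard_le (fun t ht => h t ht) h1 (Set.toFinite _)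
  have h3 : t ∈ (D.ann v : Set V) := ht
  rw [← h2] at h3
  exact h3

theorem exT {w : V} (hw : D.q x w = c) : ∃ p, Ac D x c p ∧ D.q x (w + p) = c ∧
    ∀ m, Ac D x c m → C D m (w + p) := by
  obtain ⟨p, h1, h2⟩ := X.inner (k := w) fun m l hm hl => X.act hw hm hl
  exact ⟨p, h1, by rw [add_comm]; exact q_of_C h1.1 hw, h2⟩

/-- `rad A = 0` -/
theorem rad {l : V} (hl : Ac D x c l) (h : ∀ m, Ac D x c m → C D l m) : l = 0 := by
  by_contra hne
  obtain ⟨w, hw⟩ := X.hw
  obtain ⟨p, -, h1, h2⟩ := X.exT hw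
  have h3 : ∀ t, C D x t → C D l t := by
    intro t ht
    obtain ⟨p, hp, hp'⟩ := X.split ht
    exact ((hp' l hl).add (h p hp)).of_eq rfl (Pool.Agent.Helper58.PLine.add_self_add _ _)
  have h4 := X.no_bigger hne h3 (h2 l hl)
  exact X.cne (h1.symm.trans h4)

theorem sepA (f : V →ₗ[ZMod 2] ZMod 2) :
    ∃ m, Ac D x c m ∧ ∀ n, Ac D x c n → C D m n → f n = 0 := by
  obtain ⟨⟨m, hm⟩, h⟩ := sepQ X.toLD.res (by
    rintro ⟨v, hv⟩ h
    exact Subtype.ext (X.rad hv fun m hm => (show C D m v from h ⟨m, hm⟩).symm))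
    (f.comp X.sub.subtype)
  exact ⟨m, hm, fun n hn h0 => h ⟨n, hn⟩ h0⟩

/-- (3) (J1) -/
theorem j1 {s : V} (hs : SlQ D c s) :
    ∃ y, D.q s y = c ∧ D.q x y = c ∧ ∀ m, Ac D x c m → C D m y := by
  let U : Submodule (ZMod 2) V :=
    { carrier := {a | Ac D x c a ∧ ∃ k, C D s k ∧ C D x k ∧
        ∀ m, Ac D x c m → C D m (k + a)}
      zero_mem' := ⟨X.A0, 0, C.zero s, C.zero x, fun m _ => by rw [add_zero]; exact C.zero m⟩
      add_mem' := by
        rintro a b ⟨ha, k, h1, h2, h3⟩ ⟨hb, l, h1', h2', h3'⟩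
        refine ⟨X.Aadd ha hb, k + l, h1.add h1', h2.add h2', fun m hm => ?_⟩
        exact ((h3 m hm).add (h3' m hm)).of_eq rfl (by abel)
      smul_mem' := by
        intro r a ha
        rcases Pool.Agent.Helper58.PLine.zm r with rfl | rfl
        · rw [zero_smul]
          exact ⟨X.A0, 0, C.zero s, C.zero x, fun m _ => by rw [add_zero]; exact C.zero m⟩
        · rw [one_smul]; exact ha }
  obtain ⟨t0, h1, h2⟩ := X.com hs X.slx
  obtain ⟨p0, hp0, h3, h4⟩ := X.exT h2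
  by_cases hU : p0 ∈ U
  · obtain ⟨-, k, k1, k2, k3⟩ := hU
    refine ⟨t0 + k, by rw [add_comm]; exact q_of_C k1 h1, by rw [add_comm]; exact q_of_C k2 h2,
      fun m hm => ?_⟩
    exact ((h4 m hm).add (k3 m hm)).of_eq rfl
      (eo (by abel_nf <;> simp only [ch2, ch3, ch4, add_zero, zero_add]))
  · exfalso
    obtain ⟨f, f1, f2⟩ := ETC.exists_dual_sep hU
    obtain ⟨m, hm, hf⟩ := X.sepA f
    have h5 : SlQ D c (x + m) := by
      obtain ⟨-, u, h6, h7⟩ := hm
      exact ⟨u, X.slot h6 h7⟩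
    obtain ⟨t, h6, h7⟩ := X.com hs h5
    obtain ⟨h8, h9⟩ := X.nb hm h7
    obtain ⟨p, hp, h10, h11⟩ := X.exT h8
    have h12 : C D m p :=
      (h9.add (h11 m hm)).of_eq rfl (Pool.Agent.Helper58.PLine.add_add_self _ _)
    have h13 := hf p hp h12
    have h14 : p0 + p ∈ U := by
      refine ⟨X.Aadd hp0 hp, t0 + t, q_qC h1 h6, q_qC h2 h8, fun n hn => ?_⟩
      exact ((h4 n hn).add (h11 n hn)).of_eq rfl (by abel)
    have h15 := f2 _ h14
    rw [map_add, f1, h13, add_zero] at h15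
    exact one_ne_zero h15

/-- `A < Stab (S)` -/
theorem stab {s a : V} (hs : SlQ D c s) (ha : Ac D x c a) : SlQ D c (s + a) := by
  obtain ⟨y, h1, -, h3⟩ := X.j1 hs
  exact ⟨y, by rw [add_comm]; exact q_of_C' (h3 a ha) h1⟩

/-- (4) -/
theorem four {s y l : V} (hs : SlQ D c s) (hy : D.q x y = c) (hyA : ∀ m, Ac D x c m → C D m y)
    (hsy : SlQ D c (s + y)) (hl : Ac D x c l) : ∃ k, Ac D x c k ∧ C D l k ∧ D.q s (y + k) = c := by
  have h1 : SlQ D c ((y + l) + s) := by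
    have e : (y + l) + s = (s + y) + l := by abel
    rw [e]
    exact X.stab hsy hl
  obtain ⟨t, h2, h3⟩ := X.z0 hs h1
  have h4 : D.q x (y + l) = c := by rw [add_comm]; exact q_of_C hl.1 hy
  obtain ⟨h5, h6⟩ := X.one (s := t) (X.slot_of h3) h4 h2.symm
  refine ⟨t + (y + l) + l, X.Aadd h6 hl, ?_, ?_⟩
  · have h7 : C D y (t + (y + l)) := (hyA _ h6).symm
    have h8 : C D (y + l) (t + (y + l)) := h2.add (C.self X.he _)
    have h9 : C D l (t + (y + l)) :=
      (h7.add' h8).of_eq (Pool.Agent.Helper58.PLine.add_add_self _ _) rfl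
    exact h9.add (C.self X.he l)
  · have e : y + (t + (y + l) + l) = t :=
      eo (by abel_nf <;> simp only [ch2, ch3, ch4, add_zero, zero_add])
    rw [e]
    exact h3

/-- (5) -/
theorem five {s y : V} (hs : SlQ D c s) (hy : D.q x y = c) (hyA : ∀ m, Ac D x c m → C D m y)
    (hsy : SlQ D c (s + y)) : D.q s y = c := by
  by_contra hne
  obtain ⟨y0, hy0⟩ := hs
  have hd : y + y0 ∉ D.ann s := by
    intro h
    apply hne
    exact q_z hy0 ((show C D s (y + y0) from h).of_eq rfl (add_comm _ _))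
  obtain ⟨lam, hlam, hlam'⟩ := ETC.exists_dual_sep hd
  obtain ⟨m, hm, hf⟩ := X.sepA lam
  obtain ⟨k, h1, h2, h3⟩ := X.four ⟨y0, hy0⟩ hy hyA hsy hm
  have h4 := hf k h1 h2
  have h5 : (y + y0) + k ∈ D.ann s := by
    have := q_qC h3 hy0
    exact this.of_eq rfl (by abel)
  have h6 := hlam' _ h5
  rw [map_add, hlam, h4, add_zero] at h6
  exact one_ne_zero h6

theorem Ay {y l : V} (hy : D.q x y = c) (hl : Ac D y c l) : Ac D x c l := by
  obtain ⟨h1, w, h2, h3⟩ := hl
  obtain ⟨-, h4⟩ := X.one (s := l + y) (y := y) ⟨w, q_of_C' h3 h2⟩ hy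
    (h1.symm.add' (C.self X.he y))
  rwa [Pool.Agent.Helper58.PLine.add_self_add] at h4

/-- (6) -/
theorem six {y : V} (hy : D.q x y = c) (hyA : ∀ m, Ac D x c m → C D m y) : LD D y c where
  he := X.he
  cne := X.cne
  hw := ⟨x, by rw [D.symm]; exact hy⟩
  d2 := by
    intro l hl _ u hu
    have hl' := X.Ay hy hl
    have h1 : D.q (u + x) (l + y) = c := by
      refine q_of_C' ?_ (q_of_C hl'.1 hy)
      exact hu.symm.of_eq rfl (add_comm _ _)
    have h2 : C D y (l + y) := (hyA l hl').symm.add (C.self X.he y)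
    have h3 := X.five (s := u + x) ⟨_, h1⟩ hy hyA
      ⟨l + y, by rw [add_comm (u + x)]; exact q_of_C' h2 h1⟩
    exact ((q_qC' h3 hy).of_eq (Pool.Agent.Helper58.PLine.add_self_add _ _) rfl).symm

/-- (7) -/
theorem seven {s : V} (hs : SlQ D c s) :
    ∃ p, Ac D x c p ∧ SlQ D c (s + p) ∧ ∀ m, Ac D x c m → C D m (s + p) := by
  obtain ⟨y, h1, h2, h3⟩ := X.j1 hs
  obtain ⟨p, h4, h5⟩ := (X.six h2 h3).split (k := s + x) (q_qC' h1 h2).symm
  have h6 := X.Ay h2 h4
  refine ⟨p, h6, X.stab hs h6, fun m hm => ?_⟩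
  have h7 := h5 m ⟨(h3 m hm).symm, x, by rw [D.symm]; exact h2, hm.1.symm⟩
  exact (h7.add hm.1.symm).of_eq rfl
    (eo (by abel_nf <;> simp only [ch2, ch3, ch4, add_zero, zero_add]))

end DQ

end

end Pool.Agent.ETCR2
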