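import Pool.Agent.ETCR2.D2cQ

/-!
THEOREM D2c of note 2600 (helper58), set-valued, step (8): the geometry on `V_A`.
-/

set_option autoImplicit false
set_option linter.unusedSectionVars false
set_option linter.unusedSimpArgs false
set_option linter.unnecessarySeqFocus false

namespace Pool.Agent.ETCR2

open Pool.Agent.Helper58.PLine (QData)
open Pool.Agent.ETCP
open Pool.Agent.ED2 (Ac LD)

variable {V Q : Type} [AddCommGroup V] [Module (ZMod 2) V]
variable {D : QData V Q} {x : V} {c : Q}

namespace DQ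

variable (X : DQ D x c)

include X

omit X in
/-- `V_A` -/
def VA (_ : DQ D x c) : Submodule (ZMod 2) V where
  carrier := {v | ∀ m, Ac D x c m → C D m v}
  zero_mem' := fun m _ => C.zero m
  add_mem' := fun h h' m hm => (h m hm).add (h' m hm)
  smul_mem' := by
    intro r v h m hm
    rcases Pool.Agent.Helper58.PLine.zm r with rfl | rfl
    · rw [zero_smul]; exact C.zero m
    · rw [one_smul]; exact h m hm

omit X in
theorem mem_VA (X : DQ D x c) {v : V} : v ∈ X.VA ↔ ∀ m, Ac D x c m → C D m v := Iff.rfl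

theorem xA : x ∈ X.VA := fun m hm => hm.1.symm

variable [Finite V]

/-- slots in `V_A` -/
theorem slA {s : V} (hs : SlQ D c s) : ∃ v ∈ X.VA, D.q s v = c := by
  obtain ⟨y, h1, -, h3⟩ := X.j1 hs
  exact ⟨y, h3, h1⟩

/-- `c`-linkage in `V_A` -/
theorem lkA {s t : V} (hs : s ∈ X.VA) (ht : t ∈ X.VA) (h1 : SlQ D c s) (h2 : SlQ D c t) :
    ∃ v ∈ X.VA, D.q s v = c ∧ D.q t v = c := by
  obtain ⟨z, h3, h4⟩ := X.com h1 h2
  obtain ⟨p, hp, -, h5⟩ := X.seven (s := z) (X.slot_of h3)
  exact ⟨z + p, h5, by rw [add_comm]; exact q_of_C (hs p hp).symm h3,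
    by rw [add_comm]; exact q_of_C (ht p hp).symm h4⟩

/-- maximality in `V_A` -/
theorem cardA {v : V} (hv : v ∈ X.VA) (hv' : v ≠ 0) :
    Nat.card {t : X.VA // C D v t} ≤ Nat.card {t : X.VA // C D x t} := by
  have h1 : Nat.card (X.sub × {t : X.VA // C D v t}) ≤ Nat.card (D.ann v) := by
    refine Nat.card_le_card_of_injective
      (fun p => ⟨(p.1 : V) + ((p.2 : X.VA) : V), ?_⟩) ?_
    · exact (hv _ p.1.2).symm.add p.2.2
    · rintro ⟨⟨a, ha⟩, ⟨w, hw⟩⟩ ⟨⟨a', ha'⟩, ⟨w', hw'⟩⟩ h
      have h2 : a + (w : V) = a' + (w' : V) := congrArg Subtype.val h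
      have h3 : a = a' := by
        apply eo
        refine X.rad (X.Aadd ha ha') fun m hm => ?_
        have e : a + a' = (w : V) + w' := by
          apply eo
          have : a + a' + ((w : V) + w') = (a + w) + (a' + w') := by abel
          rw [this, h2, ZModModule.add_self]
        rw [e]
        exact ((w.2 m hm).add (w'.2 m hm)).symm
      subst h3
      have h4 : w = w' := Subtype.ext (add_left_cancel h2)
      subst h4
      rfl
  have h2 : Nat.card (D.ann x) ≤ Nat.card (X.sub × {t : X.VA // C D x t}) := by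
    refine Nat.card_le_card_of_surjective
      (fun p => ⟨(p.1 : V) + ((p.2 : X.VA) : V), ?_⟩) ?_
    · have h3 : Ac D x c (p.1 : V) := p.1.2
      exact h3.1.add p.2.2
    · rintro ⟨t, ht⟩
      obtain ⟨p, hp, h3⟩ := X.split ht
      refine ⟨⟨⟨p, hp⟩, ⟨⟨t + p, h3⟩, ?_⟩⟩, ?_⟩
      · exact (show C D x t from ht).add hp.1
      · apply Subtype.ext
        change p + (t + p) = t
        rw [add_comm t, ← add_assoc, ZModModule.add_self, zero_add]
  have h3 := h1.trans ((X.mr _ hv').trans h2)
  rw [Nat.card_prod, Nat.card_prod] at h3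
  have h4 : 0 < Nat.card X.sub := Nat.card_pos
  exact Nat.le_of_mul_le_mul_left h3 h4

/-- thinness of `c` at `x` in `V_A` -/
theorem thA {s : V} (hs' : s ∈ X.VA) (hs : SlQ D c s) (h : C D x s) : s = x := by
  have e : s + x + x = s := Pool.Agent.Helper58.PLine.add_self_add _ _
  have h1 : Ac D x c (s + x) := X.memA (h.add (C.self X.he x)) (by rw [e]; exact hs)
  have h2 := X.rad h1 fun m hm => ((hs' m hm).add (X.xA m hm)).symm
  exact eo h2

/-- (8) for a small group: `V_x ∩ V_A` of order at most `3` -/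
theorem eight0 (h4 : ¬ 4 ≤ Nat.card {t : X.VA // C D x t}) {s : V} (hs' : s ∈ X.VA)
    (hs : SlQ D c s) : s = x ∨ D.q x s = c := by
  obtain ⟨z, hz', h1, h2⟩ := X.lkA X.xA hs' X.slx hs
  have hz : z ≠ 0 := by
    rintro rfl
    exact X.cne (h1.symm.trans (C.zero x))
  have h3 := X.cardA hz' hz
  by_cases e1 : x + s = 0
  · left
    exact (eo e1).symm
  by_cases e2 : x + s = z
  · right
    have e3 : s = x + z := by rw [← e2, ← add_assoc, ZModModule.add_self, zero_add]
    rw [e3]
    exact q_of_C (C.self X.he x) h1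
  · exfalso
    apply h4
    refine le_trans ?_ h3
    have zs : C D z (x + s) := (q_qC' h1 h2).symm
    have zz : C D z z := C.self X.he z
    have hxs : x + s ∈ X.VA := X.VA.add_mem X.xA hs'
    let g : Fin 4 → {t : X.VA // C D z t} := ![⟨0, C.zero z⟩, ⟨⟨z, hz'⟩, zz⟩, ⟨⟨x + s, hxs⟩, zs⟩,
      ⟨⟨z + (x + s), X.VA.add_mem hz' hxs⟩, zz.add zs⟩]
    have hg : Function.Injective g := by
      intro i j h
      have h' : ((g i : X.VA) : V) = ((g j : X.VA) : V) :=
        congrArg Subtype.val (congrArg Subtype.val h)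
      have n1 : z + (x + s) ≠ 0 := fun h => e2 (eo h).symm
      have n2 : z + (x + s) ≠ z := fun h => e1 (add_eq_left.1 h)
      have n3 : z + (x + s) ≠ x + s := fun h => hz (add_eq_right.1 h)
      fin_cases i <;> fin_cases j <;> first | rfl | exfalso
      · exact hz h'.symm
      · exact e1 h'.symm
      · exact n1 h'.symm
      · exact hz h'
      · exact e2 h'.symm
      · exact n2 h'.symm
      · exact e1 h'
      · exact e2 h'
      · exact n3 h'.symm
      · exact n1 h'
      · exact n2 h'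
      · exact n3 h'
    have := Nat.card_le_card_of_injective g hg
    rwa [Nat.card_fin] at this

end DQ

end Pool.Agent.ETCR2
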