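import Pool.Agent.ETCR2.D2cP

/-!
The handshake step of note 2622 (helper41): in world A, `e ∈ N (c)` is a symmetric irreflexive
relation on the odd set `Q_x - 0`; with D2C+ it is enough that every `N (c) ∪ 0` has even order,
for instance that it is a subgroup (LAW SUB).
-/

set_option autoImplicit false
set_option linter.unusedSectionVars false
set_option linter.unusedSimpArgs false
set_option linter.unnecessarySeqFocus false

namespace Pool.Agent.ETCR2

open Pool.Agent.Helper58.PLine (QData)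
open Pool.Agent.ETCP
open Pool.Agent.ETCD2 (K4At)

theorem card_even (E : Type) [AddCommGroup E] [Module (ZMod 2) E] [Finite E] [Nontrivial E] :
    Even (Nat.card E) := by
  have := Module.Finite.of_finite (R := ZMod 2) (M := E)
  have h1 : Nat.card E = 2 ^ Module.finrank (ZMod 2) E := by
    have := Module.natCard_eq_pow_finrank (K := ZMod 2) (V := E)
    rwa [Nat.card_zmod] at this
  rw [h1]
  have h2 : 0 < Module.finrank (ZMod 2) E := Module.finrank_pos
  exact (even_iff_two_dvd.2 (dvd_pow_self 2 h2.ne'))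

/-- a symmetric relation on a finite nonzero elementary abelian `2`-group with `R a 0`, whose
classes `{b | R a b}`, `a ≠ 0`, all have even order, has some `a ≠ 0` with `R a a` -/
theorem handshake {E : Type} [AddCommGroup E] [Module (ZMod 2) E] [Finite E] [Nontrivial E]
    (R : E → E → Prop) (hs : ∀ a b, R a b → R b a) (h0 : ∀ a, R a 0)
    (hi : ∀ a, a ≠ 0 → ¬ R a a) (hev : ∀ a, a ≠ 0 → Even (Nat.card {b // R a b})) : False := by
  classical
  have := Fintype.ofFinite E
  let G : SimpleGraph {e : E // e ≠ 0} :=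
    { Adj := fun a b => R a b
      symm := ⟨fun a b h => hs _ _ h⟩
      loopless := ⟨fun a h => hi _ a.2 h⟩ }
  have hd : ∀ a : {e : E // e ≠ 0}, Odd (G.degree a) := by
    intro a
    have h1 : Nat.card {b // R a b} = G.degree a + 1 := by
      rw [← SimpleGraph.card_neighborSet_eq_degree, Nat.card_eq_fintype_card]
      have e1 : {b // R (a : E) b} ≃ Option (G.neighborSet a) :=
        { toFun := fun b => if h : b.1 = 0 then none else some ⟨⟨b.1, h⟩, b.2⟩
          invFun := fun o => match o with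
            | none => ⟨0, h0 _⟩
            | some b => ⟨b.1.1, b.2⟩
          left_inv := by
            rintro ⟨b, hb⟩
            by_cases h : b = 0
            · subst h; simp
            · simp [h]
          right_inv := by
            rintro (_ | ⟨⟨b, hb⟩, hb'⟩)
            · simp
            · simp [hb] }
      rw [Fintype.card_congr e1, Fintype.card_option]
    have h2 := hev a a.2
    rw [h1] at h2
    by_contra h3
    rw [Nat.not_odd_iff_even] at h3
    exact (Nat.even_add_one.1 h2) h3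
  have h1 := G.even_card_odd_degree_vertices
  have h2 : (Finset.univ.filter fun v => Odd (G.degree v)) = Finset.univ :=
    Finset.filter_true_of_mem fun v _ => hd v
  rw [h2, Finset.card_univ] at h1
  have h3 : Fintype.card E = Fintype.card {e : E // e ≠ 0} + 1 := by
    have h4 := Fintype.card_subtype_compl (fun e : E => e = 0)
    have h5 : Fintype.card {e : E // e = 0} = 1 := Fintype.card_subtype_eq 0
    rw [h5] at h4
    have h6 : 0 < Fintype.card E := Fintype.card_pos
    have h7 : Fintype.card {e : E // e ≠ 0} = Fintype.card {e : E // ¬ e = 0} := rfl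
    rw [h7, h4]
    omega
  have h4 := card_even E
  rw [Nat.card_eq_fintype_card, h3] at h4
  exact (Nat.even_add_one.1 h4) h1

variable {V Q : Type} [AddCommGroup V] [Module (ZMod 2) V] {D : QData V Q}

/-- `q (x, t) ∈ N (c) ∪ 0` for `c = q (x, u)`: there is `l ∈ V_x` with `c ∈ x V_l` and
`q (x, t) ∈ x V_{x + l}` -/
def Nb (D : QData V Q) (x u t : V) : Prop :=
  ∃ l v s, C D x l ∧ C D x (u + v) ∧ C D l v ∧ C D x (t + s) ∧ C D (x + l) s

theorem cz (D : QData V Q) (x : V) : C D x 0 := by
  have h := (D.add x 0 0).1 rfl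
  rwa [add_zero] at h

theorem Nb.zero {x u t : V} (h : C D x t) : Nb D x u t := by
  refine ⟨0, u, 0, cz D x, ?_, (cz D u).symm, ?_, cz D _⟩
  · rw [two]; exact cz D x
  · rwa [add_zero]

theorem Nb.symm (he : D.e = 0) {x u t : V} (h : Nb D x u t) : Nb D x t u := by
  obtain ⟨l, v, s, h1, h2, h3, h4, h5⟩ := h
  refine ⟨x + l, s, v, (C.self he x).add h1, h4, h5, h2, ?_⟩
  rwa [aa]

theorem Nb.left {x u u' t : V} (h : C D x (u + u')) (h1 : Nb D x u t) : Nb D x u' t := by
  obtain ⟨l, v, s, g1, g2, g3, g4, g5⟩ := h1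
  refine ⟨l, v, s, g1, ?_, g3, g4, g5⟩
  exact (h.add g2).of_eq rfl (eo (by
    abel_nf <;> simp only [ch2, ch3, ch4, add_zero, zero_add]))

theorem Nb.right {x u t t' : V} (h : C D x (t + t')) (h1 : Nb D x u t) : Nb D x u t' := by
  obtain ⟨l, v, s, g1, g2, g3, g4, g5⟩ := h1
  refine ⟨l, v, s, g1, g2, g3, ?_, g5⟩
  exact (h.add g4).of_eq rfl (eo (by
    abel_nf <;> simp only [ch2, ch3, ch4, add_zero, zero_add]))

/-- a loop `c ∈ N (c)` is a symbol of `V_x` -/
theorem Nb.loop {x u : V} (h : Nb D x u u) :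
    ∃ k l, C D x k ∧ C D x l ∧ D.q k l = D.q x u := by
  obtain ⟨l, v, s, h1, h2, h3, h4, h5⟩ := h
  refine ⟨l, v + s, h1, ?_, ?_⟩
  · exact (h2.add h4).of_eq rfl (eo (by
      abel_nf <;> simp only [ch2, ch3, ch4, add_zero, zero_add]))
  · have e1 : D.q l (v + s) = D.q l s := q_eq (h3.of_eq rfl (eo (by
      abel_nf <;> simp only [ch2, ch3, ch4, add_zero, zero_add])))
    have e2 : D.q l s = D.q x s := q_eq' (h5.of_eq (add_comm _ _) rfl)
    rw [e1, e2]
    exact (q_eq h4).symm

/-- the relation on the quotient `V / V_x` -/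
def NbQ (D : QData V Q) (x : V) (a b : V ⧸ D.ann x) : Prop :=
  ∃ u t, (D.ann x).mkQ u = a ∧ (D.ann x).mkQ t = b ∧ Nb D x u t

theorem mk_eq {x u u' : V} : (D.ann x).mkQ u = (D.ann x).mkQ u' ↔ C D x (u + u') := by
  rw [← sub_eq_zero, ← map_sub, Submodule.mkQ_apply, Submodule.Quotient.mk_eq_zero]
  have : u - u' = u + u' := by rw [sub_eq_add_neg, ZModModule.neg_eq_self]
  rw [this]
  rfl

theorem NbQ_iff {x u t : V} : NbQ D x ((D.ann x).mkQ u) ((D.ann x).mkQ t) ↔ Nb D x u t := by
  constructor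
  · rintro ⟨u', t', h1, h2, h3⟩
    exact (h3.left (mk_eq.1 h1)).right (mk_eq.1 h2)
  · intro h
    exact ⟨u, t, rfl, rfl, h⟩

/-- **handshake**: world A at `x` (no `q (x, u) ≠ 0` is a symbol of `V_x`) and all classes
`N (c) ∪ 0` of even order are incompatible -/
theorem parity_even [Finite V] (he : D.e = 0) {x u0 : V} (hu0 : ¬ C D x u0)
    (hA : ∀ u k l, ¬ C D x u → C D x k → C D x l → D.q k l ≠ D.q x u)
    (hev : ∀ u, ¬ C D x u → Even (Nat.card {b // NbQ D x ((D.ann x).mkQ u) b})) : False := by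
  have : Nontrivial (V ⧸ D.ann x) := by
    refine ⟨(D.ann x).mkQ u0, (D.ann x).mkQ 0, fun h => hu0 ?_⟩
    have := mk_eq.1 h
    rwa [add_zero] at this
  have : Finite (V ⧸ D.ann x) := Finite.of_surjective _ (Submodule.mkQ_surjective _)
  refine handshake (NbQ D x) ?_ ?_ ?_ ?_
  · rintro a b ⟨u, t, h1, h2, h3⟩
    exact ⟨t, u, h2, h1, h3.symm he⟩
  · intro a
    obtain ⟨u, rfl⟩ := Submodule.mkQ_surjective _ a
    rw [← map_zero (D.ann x).mkQ, NbQ_iff]
    exact Nb.zero (cz D x)
  · intro a ha h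
    obtain ⟨u, rfl⟩ := Submodule.mkQ_surjective _ a
    rw [NbQ_iff] at h
    obtain ⟨k, l, h1, h2, h3⟩ := h.loop
    refine hA u k l (fun h4 => ha ?_) h1 h2 h3
    rw [← map_zero (D.ann x).mkQ, mk_eq, add_zero]
    exact h4
  · intro a ha
    obtain ⟨u, rfl⟩ := Submodule.mkQ_surjective _ a
    refine hev u fun h4 => ha ?_
    rw [← map_zero (D.ann x).mkQ, mk_eq, add_zero]
    exact h4

/-- **LAW SUB + D2C+ refute world A** (note 2622, helper41): `x` of minimal rank in a structure
with `K4At`, no symbol of `V_x` is a value of `x`, and the classes `N (c) ∪ 0`, `c ∈ Q_x - 0`, are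
closed under addition. -/
theorem parity_sub [Finite V] (he : D.e = 0) {x u0 : V} (hu0 : ¬ C D x u0)
    (mr : ∀ v, v ≠ 0 → Nat.card (D.ann v) ≤ Nat.card (D.ann x)) (k4 : K4At D x)
    (hA : ∀ u k l, ¬ C D x u → C D x k → C D x l → D.q k l ≠ D.q x u)
    (sub : ∀ u t t', ¬ C D x u → Nb D x u t → Nb D x u t' → Nb D x u (t + t')) : False := by
  refine parity_even he hu0 hA fun u hu => ?_
  let W : Submodule (ZMod 2) (V ⧸ D.ann x) :=
    { carrier := {b | NbQ D x ((D.ann x).mkQ u) b}
      zero_mem' := by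
        change NbQ D x _ 0
        rw [← map_zero (D.ann x).mkQ, NbQ_iff]
        exact Nb.zero (cz D x)
      add_mem' := by
        intro a b ha hb
        obtain ⟨t, rfl⟩ := Submodule.mkQ_surjective _ a
        obtain ⟨t', rfl⟩ := Submodule.mkQ_surjective _ b
        change NbQ D x _ _ at ha hb ⊢
        rw [NbQ_iff] at ha hb
        rw [← map_add, NbQ_iff]
        exact sub u t t' hu ha hb
      smul_mem' := by
        intro r a ha
        rcases Pool.Agent.Helper58.PLine.zm r with h | h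
        · rw [h, zero_smul]
          change NbQ D x _ 0
          rw [← map_zero (D.ann x).mkQ, NbQ_iff]
          exact Nb.zero (cz D x)
        · rw [h, one_smul]
          exact ha }
  have hW : Nontrivial W := by
    obtain ⟨l, v, t, h1, h2, h3, h4, h5, h6⟩ := genuine he mr k4 hu
    refine ⟨⟨(D.ann x).mkQ t, ?_⟩, 0, fun h => h5 ?_⟩
    · change NbQ D x _ _
      rw [NbQ_iff]
      exact ⟨l, v, t, h1, h2, h3, by rw [two]; exact cz D x, h4⟩
    · have h7 := congrArg Subtype.val h
      change (D.ann x).mkQ t = 0 at h7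
      rw [← map_zero (D.ann x).mkQ] at h7
      have := mk_eq.1 h7
      rwa [add_zero] at this
  have : Finite (V ⧸ D.ann x) := Finite.of_surjective _ (Submodule.mkQ_surjective _)
  exact card_even W

/-- handshake with an arbitrary symmetric biadditive relation `R` containing the failing pairs -/
theorem parity_rel [Finite V] (he : D.e = 0) {x u0 : V} (hu0 : ¬ C D x u0)
    (mr : ∀ v, v ≠ 0 → Nat.card (D.ann v) ≤ Nat.card (D.ann x)) (k4 : K4At D x)
    (R : V → V → Prop) (hs : ∀ u t, R u t → R t u) (h0 : ∀ u t, C D x t → R u t)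
    (hadd : ∀ u t t', ¬ C D x u → R u t → R u t' → R u (t + t'))
    (hi : ∀ u, ¬ C D x u → ¬ R u u) (hR : ∀ u t, ¬ C D x u → ¬ C D x t → Nb D x u t → R u t) :
    False := by
  have hl : ∀ u t t', ¬ C D x u → C D x (t + t') → R u t → R u t' := by
    intro u t t' hu h h1
    have := hadd u t (t + t') hu h1 (h0 u _ h)
    rwa [aa] at this
  have hl' : ∀ u u' t, ¬ C D x t → C D x (u + u') → R u t → R u' t := by
    intro u u' t ht h h1
    exact hs _ _ (hl t u u' ht h (hs _ _ h1))
  have hfin : Finite (V ⧸ D.ann x) := Finite.of_surjective _ (Submodule.mkQ_surjective _)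
  have : Nontrivial (V ⧸ D.ann x) := by
    refine ⟨(D.ann x).mkQ u0, (D.ann x).mkQ 0, fun h => hu0 ?_⟩
    have := mk_eq.1 h
    rwa [add_zero] at this
  have hne : ∀ u, (D.ann x).mkQ u ≠ 0 ↔ ¬ C D x u := by
    intro u
    rw [← map_zero (D.ann x).mkQ, ne_eq, mk_eq, add_zero]
  have hout : ∀ a : V ⧸ D.ann x, ∃ u, (D.ann x).mkQ u = a := Submodule.mkQ_surjective _
  -- the relation on the quotient
  let T : V ⧸ D.ann x → V ⧸ D.ann x → Prop := fun a b =>
    ∃ u t, (D.ann x).mkQ u = a ∧ (D.ann x).mkQ t = b ∧ (C D x u ∨ C D x t ∨ R u t)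
  have hT : ∀ u t, ¬ C D x u → (T ((D.ann x).mkQ u) ((D.ann x).mkQ t) ↔ (C D x t ∨ R u t)) := by
    intro u t hu
    constructor
    · rintro ⟨u', t', h1, h2, h3⟩
      have hu' : ¬ C D x u' := by
        intro h
        apply hu
        exact (h.add (mk_eq.1 h1)).of_eq rfl (eo (by
          abel_nf <;> simp only [ch2, ch3, ch4, add_zero, zero_add]))
      by_cases ht : C D x t
      · exact Or.inl ht
      · have ht' : ¬ C D x t' := by
          intro h
          apply ht
          exact (h.add (mk_eq.1 h2)).of_eq rfl (eo (by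
            abel_nf <;> simp only [ch2, ch3, ch4, add_zero, zero_add]))
        rcases h3 with h3 | h3 | h3
        · exact absurd h3 hu'
        · exact absurd h3 ht'
        · exact Or.inr (hl u t' t hu (mk_eq.1 h2) (hl' u' u t' ht' (mk_eq.1 h1) h3))
    · rintro (h | h)
      · exact ⟨u, t, rfl, rfl, Or.inr (Or.inl h)⟩
      · exact ⟨u, t, rfl, rfl, Or.inr (Or.inr h)⟩
  refine handshake T ?_ ?_ ?_ ?_
  · rintro a b ⟨u, t, h1, h2, h3⟩
    refine ⟨t, u, h2, h1, ?_⟩
    rcases h3 with h3 | h3 | h3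
    · exact Or.inr (Or.inl h3)
    · exact Or.inl h3
    · exact Or.inr (Or.inr (hs _ _ h3))
  · intro a
    obtain ⟨u, rfl⟩ := hout a
    exact ⟨u, 0, rfl, map_zero _, Or.inr (Or.inl (cz D x))⟩
  · intro a ha h
    obtain ⟨u, rfl⟩ := hout a
    have hu := (hne u).1 ha
    rw [hT u u hu] at h
    exact h.elim hu (hi u hu)
  · intro a ha
    obtain ⟨u, rfl⟩ := hout a
    have hu := (hne u).1 ha
    let W : Submodule (ZMod 2) (V ⧸ D.ann x) :=
      { carrier := {b | T ((D.ann x).mkQ u) b}
        zero_mem' := ⟨u, 0, rfl, map_zero _, Or.inr (Or.inl (cz D x))⟩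
        add_mem' := by
          intro a b ha hb
          obtain ⟨t, rfl⟩ := hout a
          obtain ⟨t', rfl⟩ := hout b
          change T _ _ at ha hb ⊢
          rw [hT u t hu] at ha
          rw [hT u t' hu] at hb
          rw [← map_add, hT u _ hu]
          right
          exact hadd u t t' hu (ha.elim (h0 u t) id) (hb.elim (h0 u t') id)
        smul_mem' := by
          intro r a ha
          rcases Pool.Agent.Helper58.PLine.zm r with h | h
          · rw [h, zero_smul]
            exact ⟨u, 0, rfl, map_zero _, Or.inr (Or.inl (cz D x))⟩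
          · rw [h, one_smul]
            exact ha }
    have hW : Nontrivial W := by
      obtain ⟨l, v, t, h1, h2, h3, h4, h5, h6⟩ := genuine he mr k4 hu
      refine ⟨⟨(D.ann x).mkQ t, ?_⟩, 0, fun h => h5 ?_⟩
      · change T _ _
        rw [hT u t hu]
        right
        exact hR u t hu h5 ⟨l, v, t, h1, h2, h3, by rw [two]; exact cz D x, h4⟩
      · have h7 := congrArg Subtype.val h
        change (D.ann x).mkQ t = 0 at h7
        rw [← map_zero (D.ann x).mkQ] at h7
        have := mk_eq.1 h7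
        rwa [add_zero] at this
    exact card_even W

/-- **(SQ) refutes world A** (LEMMA LP of note 2629, helper52): if for every `c = q (x, u) ≠ 0`
some symmetric bilinear form `θ` on `V / V_x` vanishes on all failing pairs and has
`θ (u, u) = 1`, then `x` is not of minimal rank in a structure with `K4At`. -/
theorem parity_sq [Finite V] (he : D.e = 0) {x u0 : V} (hu0 : ¬ C D x u0)
    (mr : ∀ v, v ≠ 0 → Nat.card (D.ann v) ≤ Nat.card (D.ann x)) (k4 : K4At D x)
    (sq : ∀ u, ¬ C D x u → ∃ θ : V →ₗ[ZMod 2] V →ₗ[ZMod 2] ZMod 2, (∀ a b, θ a b = θ b a) ∧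
      (∀ k v, C D x k → θ k v = 0) ∧
      (∀ l v s, C D x l → C D l v → C D (x + l) s → θ v s = 0) ∧ θ u u = 1) : False := by
  let Θ : (V →ₗ[ZMod 2] V →ₗ[ZMod 2] ZMod 2) → Prop := fun θ => (∀ a b, θ a b = θ b a) ∧
      (∀ k v, C D x k → θ k v = 0) ∧
      (∀ l v s, C D x l → C D l v → C D (x + l) s → θ v s = 0)
  refine parity_rel he hu0 mr k4 (fun u t => ∀ θ, Θ θ → θ u t = 0) ?_ ?_ ?_ ?_ ?_
  · intro u t h θ hθ
    rw [hθ.1]
    exact h θ hθ
  · intro u t ht θ hθ
    rw [hθ.1]
    exact hθ.2.1 t u ht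
  · intro u t t' _ h h' θ hθ
    rw [map_add, h θ hθ, h' θ hθ, add_zero]
  · intro u hu h
    obtain ⟨θ, h1, h2, h3, h4⟩ := sq u hu
    rw [h θ ⟨h1, h2, h3⟩] at h4
    exact zero_ne_one h4
  · rintro u t _ _ ⟨l, v, s, h1, h2, h3, h4, h5⟩ θ hθ
    have e1 : θ v s = 0 := hθ.2.2 l v s h1 h3 h5
    have e2 : θ (u + v) s = 0 := hθ.2.1 _ _ h2
    have e3 : θ (t + s) u = 0 := hθ.2.1 _ _ h4
    rw [map_add, LinearMap.add_apply, e1, add_zero] at e2
    rw [map_add, LinearMap.add_apply, hθ.1 s u, e2, add_zero] at e3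
    rw [hθ.1]
    exact e3

/-- prime characters: if for every `c = q (x, u) ≠ 0` some character `χ` of `V / V_x` with
`χ u = 1` kills, for every `l ∈ V_x`, one of `V_l`, `V_{x + l}`, then `x` is not of minimal rank
in a structure with `K4At` (note 2629). -/
theorem parity_prime [Finite V] (he : D.e = 0) {x u0 : V} (hu0 : ¬ C D x u0)
    (mr : ∀ v, v ≠ 0 → Nat.card (D.ann v) ≤ Nat.card (D.ann x)) (k4 : K4At D x)
    (pr : ∀ u, ¬ C D x u → ∃ χ : V →ₗ[ZMod 2] ZMod 2, (∀ k, C D x k → χ k = 0) ∧ χ u = 1 ∧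
      ∀ l, C D x l → (∀ v, C D l v → χ v = 0) ∨ ∀ v, C D (x + l) v → χ v = 0) : False := by
  refine parity_sq he hu0 mr k4 fun u hu => ?_
  obtain ⟨χ, h1, h2, h3⟩ := pr u hu
  refine ⟨LinearMap.mk₂ (ZMod 2) (fun a b => χ a * χ b) ?_ ?_ ?_ ?_, ?_, ?_, ?_, ?_⟩
  · intro a b c; rw [map_add, add_mul]
  · intro r a b; rw [map_smul, smul_eq_mul, smul_eq_mul, mul_assoc]
  · intro a b c; rw [map_add, mul_add]
  · intro r a b; rw [map_smul, smul_eq_mul, smul_eq_mul, mul_left_comm]
  · intro a b
    simp only [LinearMap.mk₂_apply]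
    rw [mul_comm]
  · intro k v hk
    simp only [LinearMap.mk₂_apply]
    rw [h1 k hk, zero_mul]
  · intro l v s hl hv hs
    simp only [LinearMap.mk₂_apply]
    rcases h3 l hl with h | h
    · rw [h v hv, zero_mul]
    · rw [h s hs, mul_zero]
  · simp only [LinearMap.mk₂_apply]
    rw [h2, mul_one]

end Pool.Agent.ETCR2
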