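import Pool.Agent.ETCR2.Base

/-!
THEOREM LDc of note 2502 (helper32) in the frame where only the planes meeting `K = V_x` are
linked, and the predicates of THEOREM R2 of note 2569.
-/

set_option autoImplicit false
set_option linter.unusedSectionVars false

namespace Pool.Agent.ETCR2

variable {V B : Type} [AddCommGroup V] [Module (ZMod 2) V] [AddCommGroup B] [Module (ZMod 2) B]

/-- `l ∈ K` and `i ∈ J_l = q (x, V_l)` -/
def A (q : V →ₗ[ZMod 2] V →ₗ[ZMod 2] B) (x : V) (i : B) (l : V) : Prop :=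
  q x l = 0 ∧ ∃ v, q x v = i ∧ q l v = 0

/-- `J_{l+x} = 0` -/
def Pu (q : V →ₗ[ZMod 2] V →ₗ[ZMod 2] B) (x : V) (l : V) : Prop :=
  ∀ v, q (l + x) v = 0 → q x v = 0

/-- hypotheses of Theorem LDc at the symbol `c` -/
structure LD (q : V →ₗ[ZMod 2] V →ₗ[ZMod 2] B) (x : V) (c : B) : Prop extends Kc q x where
  cne : c ≠ 0
  hw : ∃ w, q x w = c
  d2 : ∀ l, A q x c l → Pu q x l

section
variable {q : V →ₗ[ZMod 2] V →ₗ[ZMod 2] B} {x : V} {c : B}

theorem Kc.xx (F : Kc q x) : q x x = 0 := F.alt x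

theorem Kc.addx (F : Kc q x) {l : V} (hl : q x l = 0) : q x (l + x) = 0 := by
  rw [addr, hl, F.alt, add_zero]

theorem A.add_x {i : B} {l : V} (F : Kc q x) (h : A q x i (l + x)) : q x l = 0 := by
  have := h.1
  rwa [addr, F.alt, add_zero] at this

namespace LD

variable (X : LD q x c)

include X

theorem A0 : A q x c 0 := by
  obtain ⟨w, hw⟩ := X.hw
  exact ⟨map_zero _, w, hw, by rw [map_zero, LinearMap.zero_apply]⟩

theorem nb {l v : V} (hl : A q x c l) (hv : q (l + x) v = c) : q x v = c ∧ q l v = 0 := by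
  have key : q x v = c := by
    obtain ⟨hxl, w, hw, hlw⟩ := hl
    have h1 : q (l + x) (v + w) = 0 := by
      rw [addr, hv, addl, hlw, hw, zero_add, two]
    have h2 := X.d2 l ⟨hxl, w, hw, hlw⟩ _ h1
    rw [addr, hw] at h2
    exact eo h2
  refine ⟨key, ?_⟩
  rw [addl, key] at hv
  have := sw hv
  rwa [two] at this

theorem slot {l w : V} (hw : q x w = c) (hlw : q l w = 0) : q (l + x) w = c := by
  rw [addl, hlw, hw, zero_add]

theorem pair {l l' : V} (hl : A q x c l) (hl' : A q x c l') :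
    ∃ w, q x w = c ∧ q l w = 0 ∧ q l' w = 0 := by
  obtain ⟨w, hw, hlw⟩ := hl.2
  obtain ⟨w', hw', hlw'⟩ := hl'.2
  obtain ⟨t, f1, f2⟩ := X.lks (a := l + x) (b := l' + x) (by
    rw [addr, X.addx hl.1, X.addx hl'.1, add_zero]) (X.slot hw hlw) (X.slot hw' hlw')
  obtain ⟨g1, g2⟩ := X.nb hl f1
  obtain ⟨g3, g4⟩ := X.nb hl' f2
  exact ⟨t, g1, g2, g4⟩

theorem Aadd {l l' : V} (hl : A q x c l) (hl' : A q x c l') : A q x c (l + l') := by
  obtain ⟨w, h1, h2, h3⟩ := X.pair hl hl'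
  exact ⟨by rw [addr, hl.1, hl'.1, add_zero], w, h1, by rw [addl, h2, h3, add_zero]⟩

/-- `A_c` as a subspace -/
def sub (X : LD q x c) : Submodule (ZMod 2) V where
  carrier := {l | A q x c l}
  add_mem' := fun h1 h2 => X.Aadd h1 h2
  zero_mem' := X.A0
  smul_mem' := by
    intro a l hl
    rcases Pool.Agent.Helper58.PLine.zm a with rfl | rfl
    · rw [zero_smul]; exact X.A0
    · rw [one_smul]; exact hl

/-- (b) of the note -/
theorem star {w l : V} (hw : q x w = c) (hl : A q x c l) :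
    ∃ m, A q x c m ∧ q w m = 0 ∧ q (w + m) l = 0 := by
  obtain ⟨w', hw', hlw'⟩ := hl.2
  have e2 : q w x = c := by rw [X.symm, hw]
  obtain ⟨t, f1, f2⟩ := X.lkn (X.addx hl.1) X.cne (X.slot hw' hlw') e2
  obtain ⟨g1, g2⟩ := X.nb hl f1
  have hwm : q w (w + t + x) = 0 := by rw [addr, addr, X.alt, f2, e2, zero_add, two]
  refine ⟨w + t + x, ⟨?_, w, hw, ?_⟩, hwm, ?_⟩
  · rw [addr, addr, hw, g1, two, zero_add, X.alt]
  · rw [X.symm]; exact hwm
  · have h3 : w + (w + t + x) = t + x := by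
      rw [← add_assoc, ← add_assoc, ZModModule.add_self, zero_add]
    rw [h3, addl, X.symm t l, g2, hl.1, add_zero]

omit X in
theorem act_aux [Finite V] (X : LD q x c) {w m l : V} (hw : q x w = c) (hm : A q x c m)
    (hl : A q x c l) : ∃ n, A q x c n ∧ q (w + n) m = 0 ∧ q (w + n) l = 0 := by
  obtain ⟨n, h1, h2, h3⟩ := count (W := X.sub) X.alt X.symm (w := w) (by
    intro a ha s hs
    have ha' : A q x c a := ha
    obtain ⟨k, h1, h2, h3⟩ := X.star (w := w + a) (l := s) (by rw [addr, hw, ha'.1, add_zero]) hs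
    exact ⟨k, h1, h2, h3⟩) (show m ∈ X.sub from hm) (show l ∈ X.sub from hl)
  exact ⟨n, h1, h2, h3⟩

theorem actK [Finite V] {k m l : V} (hk : q x k = 0) (hm : A q x c m) (hl : A q x c l) :
    ∃ n, A q x c n ∧ q (k + n) m = 0 ∧ q (k + n) l = 0 := by
  obtain ⟨w, hw⟩ := X.hw
  obtain ⟨n, h1, h2, h3⟩ := X.act_aux hw hm hl
  obtain ⟨n', h1', h2', h3'⟩ := X.act_aux (w := w + k) (by rw [addr, hw, hk, add_zero]) hm hl
  have e : k + (n + n') = w + n + (w + k + n') := by
    have : w + n + (w + k + n') = (w + w) + (k + (n + n')) := by abel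
    rw [this, ZModModule.add_self, zero_add]
  refine ⟨n + n', X.Aadd h1 h1', ?_, ?_⟩
  · rw [e, addl, h2, h2', add_zero]
  · rw [e, addl, h3, h3', add_zero]

/-- `A` is linked -/
theorem linked [Finite V] {l m l' m' : V} (hl : A q x c l) (hm : A q x c m) (hl' : A q x c l')
    (hm' : A q x c m') (h : q l m = q l' m') :
    ∃ n, A q x c n ∧ q l n = q l m ∧ q l' n = q l m := by
  obtain ⟨t, f1, f2⟩ := X.lks (a := l + x) (b := l' + x) (r := m) (s := m') (t := q l m) (by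
    rw [addr, X.addx hl.1, X.addx hl'.1, add_zero]) (by rw [addl, hm.1, add_zero])
    (by rw [addl, hm'.1, add_zero, h])
  have g1 : q x (t + m) = 0 := X.d2 l hl _ (by
    rw [addr, f1, addl, hm.1, add_zero, two])
  have hxt : q x t = 0 := by
    rw [addr, hm.1, add_zero] at g1; exact g1
  rw [addl, hxt, add_zero] at f1 f2
  obtain ⟨n, hn, p1, p2⟩ := X.actK hxt hl hl'
  refine ⟨n, hn, ?_, ?_⟩
  · rw [addl, X.symm t, f1, X.symm n] at p1
    exact (eo p1).symm
  · rw [addl, X.symm t, f2, X.symm n] at p2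
    exact (eo p2).symm

theorem inn [Finite V] {v : V}
    (hv : ∀ m l, A q x c m → A q x c l → ∃ n, A q x c n ∧ q (v + n) m = 0 ∧ q (v + n) l = 0) :
    ∃ p, A q x c p ∧ ∀ m, A q x c m → q m (v + p) = 0 := by
  obtain ⟨p, h1, h2⟩ := inner (W := X.sub) X.alt X.symm
    (fun a ha b hb a' ha' b' hb' h => X.linked ha hb ha' hb' h) (v := v)
    (fun m hm l hl => hv m l hm hl)
  exact ⟨p, h1, h2⟩

/-- some element of `w + A` kills `A` -/
theorem exw [Finite V] {w : V} (hw : q x w = c) :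
    ∃ p, A q x c p ∧ ∀ m, A q x c m → q m (w + p) = 0 :=
  X.inn fun _ _ hm hl => X.act_aux hw hm hl

/-- `V_x = A + C(A)` -/
theorem split [Finite V] {k : V} (hk : q x k = 0) :
    ∃ p, A q x c p ∧ ∀ m, A q x c m → q m (k + p) = 0 :=
  X.inn fun _ _ hm hl => X.actK hk hm hl

/-- (e) of the note -/
theorem lkE [Finite V] {m m' n n' : V} (hm : q x m = 0) (hm' : q x m' = 0) (hn : A q x c n)
    (hn' : A q x c n') (h : q m m' = q n n')
    (hc : (∀ v, q m v = 0 → q x v = 0) ∨ ∀ v, q (m + x) v = 0 → q x v = 0) :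
    ∃ k, A q x c k ∧ q m k = q n n' ∧ q n k = q n n' := by
  by_cases ht : q n n' = 0
  · refine ⟨0, X.A0, ?_, ?_⟩
    · rw [map_zero, ht]
    · rw [map_zero, ht]
  obtain ⟨w0, hw0⟩ := X.hw
  obtain ⟨p, hp, hA0⟩ := X.exw hw0
  have hw : q x (w0 + p) = c := by rw [addr, hw0, hp.1, add_zero]
  generalize w0 + p = w at hw hA0
  have hA : ∀ m, A q x c m → q m w = 0 := hA0
  have hstar : ∃ ms, q x ms = 0 ∧ q ms m' = q n n' ∧ (∀ v, q ms v = 0 → q x v = 0) ∧
      (ms = m ∨ ms = m + x) := by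
    rcases hc with hc | hc
    · exact ⟨m, hm, h, hc, Or.inl rfl⟩
    · exact ⟨m + x, X.addx hm, by rw [addl, hm', add_zero, h], hc, Or.inr rfl⟩
  obtain ⟨ms, h0, h1, h3, h4⟩ := hstar
  have e2 : q (w + n) n' = q n n' := by rw [addl, X.symm w, hA n' hn', zero_add]
  obtain ⟨k, g1, g2⟩ := X.lkn h0 ht h1 e2
  have hxk : q x k = 0 := by
    have := h3 (m' + k) (by rw [addr, h1, g1, two])
    rwa [addr, hm', zero_add] at this
  have hmk : q m k = q n n' := by
    rcases h4 with rfl | rfl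
    · exact g1
    · rw [addl, hxk, add_zero] at g1; exact g1
  have hkA : A q x c k := by
    refine ⟨hxk, m + (w + n), ?_, ?_⟩
    · rw [addr, addr, hm, hw, hn.1, zero_add, add_zero]
    · rw [addr, X.symm k m, X.symm k, hmk, g2, two]
  refine ⟨k, hkA, hmk, ?_⟩
  rw [addl, X.symm w, hA k hkA, zero_add] at g2
  exact g2

end LD

end

end Pool.Agent.ETCR2
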