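import Pool.Agent.ETCR2.R2Two2

/-!
THEOREM R2 (notes 2549, 2569): the case D2c(g), section 2 of note 2549 (helper31).
-/

set_option autoImplicit false
set_option linter.unusedSectionVars false

namespace Pool.Agent.ETCR2

variable {V B : Type} [AddCommGroup V] [Module (ZMod 2) V] [AddCommGroup B] [Module (ZMod 2) B]

section
variable {q : V →ₗ[ZMod 2] V →ₗ[ZMod 2] B} {x : V} {c e : B}

/-- the frame: D2c(c+e) -/
structure ON (q : V →ₗ[ZMod 2] V →ₗ[ZMod 2] B) (x : V) (c e : B) : Prop extends R2 q x c e where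
  pg : ∀ l, A q x (c + e) l → Pu q x l

namespace ON

variable (O : ON q x c e)

include O

theorem ld : LD q x (c + e) where
  toKc := O.toKc
  cne := O.g0
  hw := O.rot.hc
  d2 := O.pg

/-- (ii): (P1) -/
theorem ii {b l : V} (hb : Dd q x c e b) (hl : q x l = 0) :
    ∃ k, q x k = 0 ∧ q b k = 0 ∧ A q x c (l + k) := by
  obtain ⟨-, v, hv, hbv⟩ := (O.Dd_iff.1 hb).1
  rcases O.P1 hb hl hv hbv with h | ⟨m, h1, h2, h3⟩
  · exact h
  · exfalso
    have h4 : Dd q x (c + e) e m := ⟨h1, l + v, by rw [addr, hl, hv, zero_add, aab], h3⟩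
    obtain ⟨h5, -, v', h6, h7⟩ := O.rot.Dd_iff.1 h4
    exact O.e0 (h6.symm.trans (O.pg m h5 v' h7))

/-- an element of `A_c` not in `D(c,e)` is pure -/
theorem pu {l : V} (h : A q x c l) (hn : ¬ Dd q x c e l) : Pu q x l := by
  intro v hv
  rcases O.val v with h1 | h1 | h1 | h1
  · exact h1
  · exact (O.nJ O.c0 h ⟨O.addx h.1, v, h1, hv⟩).elim
  · exact (hn (O.Dd_iff.2 ⟨h, O.addx h.1, v, h1, hv⟩)).elim
  · exfalso
    obtain ⟨h0, w, h2, h3⟩ := id h
    have h4 := O.pg (l + x) ⟨O.addx h0, v, h1, hv⟩ w (by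
      rw [add_assoc, ZModModule.add_self, add_zero]; exact h3)
    exact O.c0 (h2.symm.trans h4)

variable [Finite V]

/-- the data of the proof -/
theorem data {b : V} (hb : Dd q x c e b) : ∃ a1 c1 y0 a, A q x (c + e) a1 ∧ b = a1 + c1 ∧
    (∀ m, A q x (c + e) m → q m c1 = 0) ∧ A q x (c + e) a ∧
    (∀ m, A q x (c + e) m → q m y0 = 0) ∧ q x y0 = c + e ∧ q b (y0 + a) = e := by
  obtain ⟨a1, h1, h2⟩ := O.ld.split hb.1
  obtain ⟨-, u, h3, h4⟩ := id hb
  obtain ⟨a, h5, h6⟩ := O.ld.exw h3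
  refine ⟨a1, b + a1, u + a, a, h1, ?_, h2, h5, h6, ?_, ?_⟩
  · rw [add_comm b a1, ← add_assoc, ZModModule.add_self, zero_add]
  · rw [addr, h3, h5.1, add_zero]
  · rw [add_assoc, ZModModule.add_self, add_zero, h4]

/-- CASE II: an element of `D(c,e)` commuting with `A_g` is in `rad K` -/
theorem caseII {c1 : V} (hd : Dd q x c e c1) (hA : ∀ m, A q x (c + e) m → q m c1 = 0) :
    ∀ k, q x k = 0 → q c1 k = 0 := by
  obtain ⟨-, u, h3, h4⟩ := id hd
  obtain ⟨a0, h5, h6⟩ := O.ld.exw h3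
  have hx0 : q x (u + a0) = c + e := by rw [addr, h3, h5.1, add_zero]
  have hy0 : q c1 (u + a0) = e := by rw [addr, h4, O.symm c1, hA a0 h5, add_zero]
  generalize u + a0 = y0 at h6 hx0 hy0
  -- it is enough to treat the elements commuting with `A`
  suffices key : ∀ l, q x l = 0 → (∀ m, A q x (c + e) m → q m l = 0) → q c1 l = 0 by
    intro k hk
    obtain ⟨p, hp, h7⟩ := O.ld.split hk
    have h8 := key (k + p) (by rw [addr, hk, hp.1, add_zero]) h7
    rw [addr, O.symm c1 p, hA p hp, add_zero] at h8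
    exact h8
  intro l hl hlA
  by_contra hne
  obtain ⟨k, hk, hck, hA'⟩ := O.ii hd hl
  have hl'x : q x (l + k) = 0 := by rw [addr, hl, hk, add_zero]
  have hcl' : q c1 (l + k) = q c1 l := by rw [addr, hck, add_zero]
  generalize l + k = l' at hA' hl'x hcl'
  have hnd : ¬ Dd q x c e l' := by
    intro h
    have h7 := O.iAg hd h
    have h8 := hA _ h7
    rw [addl, O.alt, zero_add, O.symm, hcl'] at h8
    exact hne h8
  have hpu := O.pu hA' hnd
  obtain ⟨a', ha', hc'⟩ := O.ld.split hl'x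
  -- `l' = a' + c'`, `c' = l' + a'`
  have h7 : q c1 (y0 + a') = e := by rw [addr, hy0, O.symm c1, hA a' ha', add_zero]
  obtain ⟨m, m1, -, -, m4⟩ := O.C2 hl'x hpu (Or.inl hA')
    (show q x (y0 + a') = c + e by rw [addr, hx0, ha'.1, add_zero]) hd.1 h7
  have hxu : q x (y0 + a' + l') = c + e := by
    rw [addr, addr, hx0, ha'.1, hl'x, add_zero, add_zero]
  have h8 : Dd q x c e (c1 + m) := ⟨by rw [addr, hd.1, m1, add_zero], _, hxu, m4⟩
  have h9 := O.iAg hd h8
  -- `m ∈ A`
  rw [← add_assoc, ZModModule.add_self, zero_add] at h9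
  have h10 : q m (y0 + a' + l') = 0 := by
    have e1 : y0 + a' + l' = y0 + (l' + a') := by abel
    rw [e1, addr, h6 m h9, hc' m h9, add_zero]
  rw [addl, h10, add_zero, addr, h7, hcl'] at m4
  exact hne (add_eq_left.1 m4)

/-- CASE I is impossible -/
theorem caseI {a1 c1 y0 a : V} (ha1 : A q x (c + e) a1) (hd : Dd q x c e (a1 + c1))
    (hC : ∀ m, A q x (c + e) m → q m c1 = 0) (ha : A q x (c + e) a)
    (hy0 : ∀ m, A q x (c + e) m → q m y0 = 0) (hx0 : q x y0 = c + e)
    (hb : q (a1 + c1) (y0 + a) = e)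
    (hn : (∀ v, q c1 v = 0 → q x v = 0) ∨ ∀ v, q (c1 + x) v = 0 → q x v = 0) : False := by
  have hc1x : q x c1 = 0 := by
    have := hd.1
    rw [addr, ha1.1, zero_add] at this
    exact this
  -- `c1 y0 = e + e'`
  have hcy : q c1 y0 = e + q a1 a := by
    rw [addl, addr, addr, hy0 a1 ha1, zero_add, O.symm c1 a, hC a ha, add_zero] at hb
    rw [add_comm] at hb
    exact sw hb
  -- `q (c1, K) ∩ q (A, A) = 0`
  have key : ∀ k n n', q x k = 0 → A q x (c + e) n → A q x (c + e) n' → q c1 k = q n n' →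
      q c1 k = 0 := by
    intro k n n' hk h1 h2 h3
    obtain ⟨k', h4, h5, -⟩ := O.ld.lkE hc1x hk h1 h2 h3 hn
    rw [h3, ← h5, O.symm]
    exact hC k' h4
  have he' : q a1 a ≠ 0 := by
    intro h
    rw [h, add_zero] at hcy
    have h1 : Dd q x c e c1 := ⟨hc1x, y0, hx0, hcy⟩
    obtain ⟨⟨-, v, h2, h3⟩, -, v', h4, h5⟩ := O.Dd_iff.1 h1
    rcases hn with hn | hn
    · exact O.c0 (h2.symm.trans (hn v h3))
    · exact O.e0 (h4.symm.trans (hn v' h5))
  have hux : q x (y0 + a) = c + e := by rw [addr, hx0, ha.1, add_zero]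
  -- elements of `D(c,e)` are in `c1 + A`
  have hDA : ∀ b2, Dd q x c e b2 → A q x (c + e) (b2 + c1) := by
    intro b2 h
    have h1 := O.ld.Aadd (O.iAg hd h) ha1
    have e1 : a1 + c1 + b2 + a1 = b2 + c1 + (a1 + a1) := by abel
    rwa [e1, ZModModule.add_self, add_zero] at h1
  -- `c1` kills the elements commuting with `A`
  have hrad0 : ∀ l, q x l = 0 → (∀ m, A q x (c + e) m → q m l = 0) → q c1 l = 0 := by
    intro l hl hlA
    by_contra hne
    obtain ⟨k, hk, hbk, hA'⟩ := O.ii hd hl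
    have hl'x : q x (l + k) = 0 := by rw [addr, hl, hk, add_zero]
    have hbl' : q (a1 + c1) (l + k) = q c1 l := by
      rw [addr, hbk, add_zero, addl, hlA a1 ha1, zero_add]
    generalize l + k = l' at hA' hl'x hbl'
    obtain ⟨a', ha', hc'⟩ := O.ld.split hl'x
    have hnd : ¬ Dd q x c e l' := by
      intro h
      have h1 := hDA l' h
      -- `l' = c1 + a''`
      have h2 : q (a1 + c1) l' = q a1 (l' + c1) := by
        have e1 : l' = (l' + c1) + c1 := by rw [add_assoc, ZModModule.add_self, add_zero]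
        rw [e1, addr, addl, addl, hC a1 ha1, O.alt, zero_add, add_zero, O.symm c1, hC _ h1,
          add_zero, ← e1]
      exact hne (key l a1 (l' + c1) hl ha1 h1 (by rw [← hbl', h2]))
    have hpu := O.pu hA' hnd
    -- `b l' = a1 a' + c1 c'`
    have h1 : q a1 l' = q a1 a' := by
      have := hc' a1 ha1
      rw [addr] at this
      exact eo this
    have h2 : q a1 a' + q c1 l' = q c1 l := by rw [← hbl', addl, h1]
    have h3 : q c1 (l + l') = q a1 a' := by
      rw [addr, ← h2, aab]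
    have h4 : q a1 a' = 0 := by
      rw [← h3]
      exact key (l + l') a1 a' (by rw [addr, hl, hl'x, add_zero]) ha1 ha' h3
    rw [h4, zero_add] at h2
    obtain ⟨m, m1, -, -, m4⟩ := O.C2 hl'x hpu (Or.inl hA') hux hd.1 hb
    have hxu : q x (y0 + a + l') = c + e := by
      rw [addr, hux, hl'x, add_zero]
    have h8 : Dd q x c e (a1 + c1 + m) := ⟨by rw [addr, hd.1, m1, add_zero], _, hxu, m4⟩
    have hnA := hDA _ h8
    obtain ⟨n, hn0⟩ : ∃ n, n = a1 + c1 + m + c1 := ⟨_, rfl⟩
    rw [← hn0] at hnA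
    have e2 : a1 + c1 + m = c1 + n := by
      rw [hn0]
      have : c1 + (a1 + c1 + m + c1) = a1 + c1 + m + (c1 + c1) := by abel
      rw [this, ZModModule.add_self, add_zero]
    rw [e2] at m4
    -- `(c1 + n)(y0 + a + l') = e`
    have h9 : q n l' = q n a' := by
      have := hc' n hnA
      rw [addr] at this
      exact eo this
    have h10 : q n (a + a') = q a1 a + q c1 l := by
      rw [addl, addr, addr, addr, addr, hcy, hy0 n hnA, zero_add, O.symm c1 a, hC a ha,
        add_zero, h2, h9] at m4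
      rw [addr]
      -- `e + a1 a + c1 l + (n a + n a') = e`
      have h11 : e + (q a1 a + q c1 l + (q n a + q n a')) = e := by
        refine Eq.trans ?_ m4
        abel
      have h12 := add_eq_left.1 h11
      rw [add_comm] at h12
      exact eo h12
    -- the symbol `s`
    have hs0 : q a1 a + q c1 l ≠ 0 := by
      intro h
      have h11 := (eo h).symm
      exact hne (key l a1 a hl ha1 ha h11)
    have e3 : q (n + x) (a + a') = q a1 a + q c1 l := by
      rw [addl, h10, addr q x a a', ha.1, ha'.1, add_zero, add_zero]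
    have e4 : q (a1 + c1) (a + l) = q a1 a + q c1 l := by
      rw [addl, addr, addr, hlA a1 ha1, add_zero, O.symm c1 a, hC a ha, zero_add]
    obtain ⟨k', f1, f2⟩ := O.lkn (O.addx hnA.1) hs0 e3 e4
    have f3 : q x k' = 0 := by
      have := O.pg n hnA (k' + (a + a')) (by rw [addr, f1, e3, two])
      rwa [addr, addr q x a a', ha.1, ha'.1, add_zero, add_zero] at this
    rw [addl, f3, add_zero] at f1
    obtain ⟨kA, hkA, hkC⟩ := O.ld.split f3
    have f4 : q n k' = q n kA := by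
      have := hkC n hnA
      rw [addr] at this
      exact eo this
    have f5 : q a1 k' = q a1 kA := by
      have := hkC a1 ha1
      rw [addr] at this
      exact eo this
    have f6 : q c1 k' = q (a1 + n) kA := by
      rw [addl, f5] at f2
      rw [addl, ← f4, f1, ← f2, aa]
    have f7 := key k' (a1 + n) kA f3 (O.ld.Aadd ha1 hnA) hkA f6
    have f8 : q a1 kA = q a1 a + q c1 l := by
      rw [addl, f5, f7, add_zero] at f2
      exact f2
    have f9 : q c1 l = q a1 (a + kA) := by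
      rw [addr, f8, aa]
    exact hne (key l a1 (a + kA) hl ha1 (O.ld.Aadd ha hkA) f9)
  have hrad : ∀ k, q x k = 0 → q c1 k = 0 := by
    intro k hk
    obtain ⟨p, hp, h7⟩ := O.ld.split hk
    have h8 := hrad0 (k + p) (by rw [addr, hk, hp.1, add_zero]) h7
    rw [addr, O.symm c1 p, hC p hp, add_zero] at h8
    exact h8
  -- part 2
  -- `c1 + n ∈ D(c,e)` for `n ∈ L`
  have hL : ∀ n n', A q x (c + e) n → A q x (c + e) n' → q n n' = q a1 a →
      q (c1 + n) (y0 + n') = e := by
    intro n n' h1 h2 h3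
    rw [addl, addr, addr, hcy, O.symm c1 n', hC n' h2, add_zero, hy0 n h1, zero_add, h3, aab]
  obtain ⟨u0, hu0⟩ := O.hE
  -- (α): for `n ∈ L` some `p ∈ A` has `u0 n = la + n p`, `la = u0 c1 + e`
  have hal : ∀ n n', A q x (c + e) n → A q x (c + e) n' → q n n' = q a1 a →
      ∃ p, A q x (c + e) p ∧ q n u0 = q c1 u0 + e + q n p := by
    intro n n' h1 h2 h3
    have h4 : Dd q x c e (c1 + n) := ⟨by rw [addr, hc1x, h1.1, add_zero], y0 + n', by
      rw [addr, hx0, h2.1, add_zero], hL n n' h1 h2 h3⟩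
    obtain ⟨u1, h5, h6⟩ := R2.Ax O.toKc (O.Dd_iff.1 h4).2
    have h7 : q x (u1 + u0) = 0 := by rw [addr, h5, hu0, two]
    obtain ⟨p, hp, h8⟩ := O.ld.split h7
    refine ⟨p, hp, ?_⟩
    have h9 := h8 n h1
    rw [addr, addr] at h9
    -- `n u1 + n u0 + n p = 0`
    have h10 := hrad _ h7
    rw [addr] at h10
    rw [addl] at h6
    -- `c1 u1 + n u1 = e`
    have h11 : q c1 u1 = q c1 u0 := eo h10
    have h12 : q n u1 = e + q c1 u0 := by
      rw [h11, add_comm] at h6
      exact sw h6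
    have h13 : q n u1 + q n u0 = q n p := eo h9
    have h14 : q n u0 = q n p + q n u1 := by
      rw [← h13, add_comm (q n u1), aab]
    rw [h14, h12, add_comm e]
    abel
  -- `e ∈ J_n` for `n ∈ L`
  have heJ : ∀ n n', A q x (c + e) n → A q x (c + e) n' → q n n' = q a1 a → A q x e n := by
    intro n n' h1 h2 h3
    obtain ⟨p1, hp1, g1⟩ := hal n n' h1 h2 h3
    obtain ⟨p2, hp2, g2⟩ := hal n' n h2 h1 (by rw [O.symm, h3])
    obtain ⟨p3, hp3, g3⟩ := hal (n + n') n' (O.ld.Aadd h1 h2) h2 (by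
      rw [addl, O.alt, add_zero, h3])
    -- `n (u0 + p3) = n' (p2 + p3)`
    have g4 : q n (u0 + p3) = q n' (p2 + p3) := by
      rw [addl, g1, g2, addl] at g3
      rw [addr, addr, g1]
      have hz : q c1 u0 + e + q n p1 + (q c1 u0 + e + q n' p2) +
          (q c1 u0 + e + (q n p3 + q n' p3)) = 0 := by
        rw [g3, two]
      apply eo
      rw [← hz]
      have : q c1 u0 + e + q n p1 + q n p3 + (q n' p2 + q n' p3) =
        q c1 u0 + e + q n p1 + q n p3 + (q n' p2 + q n' p3) +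
          ((q c1 u0 + e) + (q c1 u0 + e)) := by rw [two, add_zero]
      rw [this]
      abel
    by_cases ht : q n' (p2 + p3) = 0
    · exact ⟨h1.1, u0 + p3, by rw [addr, hu0, hp3.1, add_zero], by rw [g4, ht]⟩
    · have e1 : q (n' + x) (p2 + p3) = q n' (p2 + p3) := by
        rw [addl, addr q x, hp2.1, hp3.1, add_zero, add_zero]
      obtain ⟨k, f1, f2⟩ := O.lkn (O.addx h2.1) ht e1 g4
      have f3 : q x k = 0 := by
        have := O.pg n' h2 (k + (p2 + p3)) (by rw [addr, f1, e1, two])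
        rwa [addr, addr q x p2, hp2.1, hp3.1, add_zero, add_zero] at this
      refine ⟨h1.1, u0 + p3 + k, by rw [addr, addr, hu0, hp3.1, f3, add_zero, add_zero], ?_⟩
      rw [addr, g4, f2, two]
  -- the contradiction
  have hne1 := heJ a a1 ha ha1 (by rw [O.symm])
  have h1 : Dd q x c e (c1 + a1) := by rw [add_comm]; exact hd
  obtain ⟨m, m1, -, -, m4⟩ := O.C2 ha.1 (O.pg a ha) (Or.inr hne1) hux h1.1
    (hL a1 a ha1 ha rfl)
  have e1 : y0 + a + a = y0 := by rw [add_assoc, ZModModule.add_self, add_zero]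
  rw [e1] at m4
  have h2 : Dd q x c e (c1 + a1 + m) := ⟨by rw [addr, h1.1, m1, add_zero], y0, hx0, m4⟩
  have h3 := hDA _ h2
  have h4 := hy0 _ h3
  rw [addl, m4, hcy] at h4
  apply he'
  rw [← add_assoc, two, zero_add] at h4
  exact h4

/-- (ONE): some element of `D(c,e)` is in `rad K` -/
theorem one {b : V} (hb : Dd q x c e b) : ∃ z, Dd q x c e z ∧ ∀ k, q x k = 0 → q z k = 0 := by
  obtain ⟨a1, c1, y0, a, h1, h2, h3, h4, h5, h6, h7⟩ := O.data hb
  subst h2
  have hc1x : q x c1 = 0 := by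
    have := hb.1
    rw [addr, h1.1, zero_add] at this
    exact this
  by_cases n1 : ∀ v, q c1 v = 0 → q x v = 0
  · exact (O.caseI h1 hb h3 h4 h5 h6 h7 (Or.inl n1)).elim
  by_cases n2 : ∀ v, q (c1 + x) v = 0 → q x v = 0
  · exact (O.caseI h1 hb h3 h4 h5 h6 h7 (Or.inr n2)).elim
  push Not at n1 n2
  obtain ⟨v, v1, v2⟩ := n1
  obtain ⟨w, w1, w2⟩ := n2
  -- `c1` is a violator
  have hd : Dd q x c e c1 := by
    have nog : ∀ {l}, A q x (c + e) l → ∀ v, q (l + x) v = 0 → q x v = 0 := fun h => O.pg _ h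
    rcases O.val v with hv | hv | hv | hv
    · exact (v2 hv).elim
    · rcases O.val w with hw | hw | hw | hw
      · exact (w2 hw).elim
      · exact (O.nJ O.c0 ⟨hc1x, v, hv, v1⟩ ⟨O.addx hc1x, w, hw, w1⟩).elim
      · exact O.Dd_iff.2 ⟨⟨hc1x, v, hv, v1⟩, O.addx hc1x, w, hw, w1⟩
      · exact (v2 (nog ⟨O.addx hc1x, w, hw, w1⟩ v (by
          rw [add_assoc, ZModModule.add_self, add_zero]; exact v1))).elim
    · rcases O.val w with hw | hw | hw | hw
      · exact (w2 hw).elim
      · exfalso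
        -- `c1 + x ∈ D(c,e)`, so `x ∈ A`
        have h8 : Dd q x c e (c1 + x) := O.Dd_iff.2 ⟨⟨O.addx hc1x, w, hw, w1⟩,
          R2.Axx.2 ⟨hc1x, v, hv, v1⟩⟩
        have h9 := O.ld.Aadd (O.iAg hb h8) h1
        have e1 : a1 + c1 + (c1 + x) + a1 = x + (a1 + a1) + (c1 + c1) := by abel
        rw [e1, ZModModule.add_self, ZModModule.add_self, add_zero, add_zero] at h9
        obtain ⟨-, v', h10, h11⟩ := h9
        exact O.g0 (h10.symm.trans h11)
      · exact (O.nJ O.e0 ⟨hc1x, v, hv, v1⟩ ⟨O.addx hc1x, w, hw, w1⟩).elim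
      · exact (v2 (nog ⟨O.addx hc1x, w, hw, w1⟩ v (by
          rw [add_assoc, ZModModule.add_self, add_zero]; exact v1))).elim
    · exact (w2 (nog ⟨hc1x, v, hv, v1⟩ w w1)).elim
  exact ⟨c1, hd, O.caseII hd h3⟩

end ON

/-- **THEOREM R2** (note 2569, helper46; note 2549, helper31).  `V` finite, `q` alternating,
`K = V_x`, only the planes meeting `K` linked, `Q_x = {0, c, e, c + e}`, `Q_x ∩ q (K, K) = 0`.
If `D(c,e)` is not empty, it contains an element `z` of `rad K` (so `V_x ⊂ V_z` properly). -/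
theorem R2.main [Finite V] (R : R2 q x c e) {b : V} (hb : Dd q x c e b) :
    ∃ z, Dd q x c e z ∧ ∀ k, q x k = 0 → q z k = 0 := by
  have O : ON q x c e :=
    { toR2 := R
      pg := by
        intro l h v hv
        rcases R.val v with h1 | h1 | h1 | h1
        · exact h1
        · exfalso
          -- `l ∈ D(c+e,c)`
          have R' : R2 q x (e + c) c := R.swap.rot
          have h2 : Dd q x (e + c) c l := R'.Dd_iff.2 ⟨by rw [add_comm e c]; exact h,
            R.addx h.1, v, h1, hv⟩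
          exact R.swap.two (R.Dx hb) h2
        · exfalso
          exact R.two hb (R.rot.Dd_iff.2 ⟨h, R.addx h.1, v, h1, hv⟩)
        · exact (R.nJ R.g0 h ⟨R.addx h.1, v, h1, hv⟩).elim }
  exact O.one hb

end

end Pool.Agent.ETCR2
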