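import Pool.Agent.ETCR2.R2Two

/-!
THEOREM R2 of note 2569 (helper46): thick elements, sections 3, 7, 8.
-/

set_option autoImplicit false
set_option linter.unusedSectionVars false

namespace Pool.Agent.ETCR2

variable {V B : Type} [AddCommGroup V] [Module (ZMod 2) V] [AddCommGroup B] [Module (ZMod 2) B]

/-- thick elements of class `i + j` -/
def Tk (q : V →ₗ[ZMod 2] V →ₗ[ZMod 2] B) (x : V) (i j : B) (u : V) : Prop :=
  q x u = i + j ∧ ∃ b, q x b = 0 ∧ q b u = j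

/-- all thick elements: `Th_g`, `Th_c`, `Th_e` -/
def Th (q : V →ₗ[ZMod 2] V →ₗ[ZMod 2] B) (x : V) (c e : B) (u : V) : Prop :=
  Tk q x c e u ∨ Tk q x (c + e) e u ∨ Tk q x c (c + e) u

section
variable {q : V →ₗ[ZMod 2] V →ₗ[ZMod 2] B} {x : V} {c e : B}

theorem Tk.swap (F : Kc q x) {i j : B} {u : V} (h : Tk q x i j u) : Tk q x j i u := by
  obtain ⟨h1, b, h2, h3⟩ := h
  refine ⟨by rw [h1, add_comm], b + x, F.addx h2, ?_⟩
  rw [addl, h3, h1, add_comm i j, aa]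

theorem Tk.Dd {i j : B} {u b : V} (h1 : q x u = i + j) (hb : q x b = 0) (hbu : q b u = j) :
    Dd q x i j b := ⟨hb, u, h1, hbu⟩

/-- the frame of (TWO): both pairs occur -/
structure TW (q : V →ₗ[ZMod 2] V →ₗ[ZMod 2] B) (x : V) (c e : B) : Prop extends R2 q x c e where
  d1 : ∃ b, Dd q x c e b
  d2 : ∃ b, Dd q x (c + e) e b

namespace TW

variable (T : TW q x c e)

/-- the symmetry `c ↔ c + e` -/
theorem rot (T : TW q x c e) : TW q x (c + e) e where
  toR2 := T.toR2.rot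
  d1 := T.d2
  d2 := by rw [aab]; exact T.d1

theorem Th_rot {u : V} (F : Kc q x) (h : Th q x c e u) : Th q x (c + e) e u := by
  rcases h with h | h | h
  · right; left; rwa [aab]
  · left; exact h
  · right; right
    rw [aab]; exact h.swap F

include T

/-- `K_u ⊆ W` for `u` in `Th_g` -/
theorem Ku1 {u k : V} (hu : Tk q x c e u) (hk : q x k = 0) (h : q k u = 0) : Wd q x c e k := by
  obtain ⟨h1, b, h2, h3⟩ := hu
  obtain ⟨b', hb'⟩ := T.d2
  have := T.DDW (b := b) (b2 := b + k) ⟨h2, u, h1, h3⟩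
    ⟨by rw [addr, h2, hk, add_zero], u, h1, by rw [addl, h3, h, add_zero]⟩ hb'
  rwa [← add_assoc, ZModModule.add_self, zero_add] at this

/-- `K_u ⊆ W` for `u` in `Th_c` -/
theorem Ku2 {u k : V} (hu : Tk q x (c + e) e u) (hk : q x k = 0) (h : q k u = 0) :
    Wd q x c e k := R2.Wrot' (T.rot.Ku1 hu hk h)

/-- `K_u ⊆ W` for `u` in `Th_e` -/
theorem Ku3 {u k : V} (hu : Tk q x c (c + e) u) (hk : q x k = 0) (h : q k u = 0) :
    Wd q x c e k := by
  obtain ⟨h1, b3, h2, h3⟩ := hu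
  obtain ⟨b, hb⟩ := T.d1
  -- labels `(e,c)`: `b + x ∈ D(e,c)`, `b3 + x ∈ D(c+e,c)`
  have R' := T.toR2.swap
  have g1 : q x u = e + c + c := by rw [h1, ← add_assoc, two, zero_add, aab]
  have h3' : q (b3 + x) u = c := by
    rw [addl, h3, h1, add_comm c (c + e), aa]
  have hb3 : Dd q x (e + c) c (b3 + x) := ⟨T.addx h2, u, g1, h3'⟩
  have hb3k : Dd q x (e + c) c (b3 + x + k) :=
    ⟨by rw [addr, T.addx h2, hk, add_zero], u, g1, by rw [addl, h3', h, add_zero]⟩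
  have h5 := R'.rot.DDW hb3 hb3k (R'.rotD (T.toR2.Dx hb))
  rw [← add_assoc, ZModModule.add_self, zero_add] at h5
  exact (R2.Wrot' h5).symm

theorem Ku {u k : V} (hu : Th q x c e u) (hk : q x k = 0) (h : q k u = 0) : Wd q x c e k := by
  rcases hu with hu | hu | hu
  exacts [T.Ku1 hu hk h, T.Ku2 hu hk h, T.Ku3 hu hk h]

/-- `Th_g + l = Th_g` for pure `l` with `c` or `e` in `J_l` -/
theorem Tl1 {u l : V} (hu : Tk q x c e u) (hl : q x l = 0) (hp : Pu q x l)
    (hJ : A q x c l ∨ A q x e l) : Tk q x c e (u + l) := by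
  obtain ⟨h1, b, h2, h3⟩ := hu
  obtain ⟨m, g1, -, -, g4⟩ := T.C2 hl hp hJ h1 h2 h3
  exact ⟨by rw [addr, h1, hl, add_zero], b + m, by rw [addr, h2, g1, add_zero], g4⟩

theorem Tl2 {u l : V} (hu : Tk q x (c + e) e u) (hl : q x l = 0) (hp : Pu q x l)
    (hJ : A q x (c + e) l ∨ A q x e l) : Tk q x (c + e) e (u + l) := T.rot.Tl1 hu hl hp hJ

theorem Tl3 {u l : V} (hu : Tk q x c (c + e) u) (hl : q x l = 0) (hp : Pu q x l)
    (hJ : A q x c l ∨ A q x (c + e) l) : Tk q x c (c + e) (u + l) := by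
  obtain ⟨h1, b, h2, h3⟩ := hu
  obtain ⟨m, g1, -, -, g4⟩ := T.toR2.swap.rot.swap.C2 hl hp
    (by rw [add_comm e c]; exact hJ) (by rw [add_comm e c]; exact h1) h2
    (by rw [add_comm e c]; exact h3)
  exact ⟨by rw [addr, h1, hl, add_zero], b + m, by rw [addr, h2, g1, add_zero], by
    rw [add_comm c e]; exact g4⟩

theorem Tw {u w : V} (hu : Th q x c e u) (hw : Wd q x c e w) : Th q x c e (u + w) := by
  have hp := T.Wpure hw
  rcases hu with hu | hu | hu
  · exact Or.inl (T.Tl1 hu hw.1.1 hp (Or.inl hw.1))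
  · exact Or.inr (Or.inl (T.Tl2 hu hw.1.1 hp (Or.inr hw.2)))
  · exact Or.inr (Or.inr (T.Tl3 hu hw.1.1 hp (Or.inl hw.1)))

/-- (7): the hypothesis of the count -/
theorem ha {y s : V} (hy : Th q x c e y) (hs : Wd q x c e s) :
    ∃ k, Wd q x c e k ∧ q y k = 0 ∧ q (y + k) s = 0 := by
  by_cases ht : q y s = 0
  · exact ⟨0, T.W0, map_zero _, by rw [add_zero, ht]⟩
  obtain ⟨v', h1, h2⟩ := T.Wsplit hs y
  have e1 : q (s + x) (y + v') = q y s := by
    rw [addl, h1, add_zero, addr, h2, add_zero, T.symm]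
  have e2 : q (y + s) s = q y s := by rw [addl, T.alt, add_zero]
  obtain ⟨r, f1, f2⟩ := T.lkn (T.addx hs.1.1) ht e1 e2
  obtain ⟨g1, g2⟩ := T.Wnb hs (v := y) (r := r) (by rw [f1, T.symm])
  have g3 : q y r = 0 := by
    rw [addl, g1, T.symm s y] at f2
    exact add_eq_right.1 f2
  refine ⟨r, T.Ku hy g2 (by rw [T.symm, g3]), g3, ?_⟩
  rw [addl, T.symm r s, g1, T.symm s y, two]

/-- thick elements act on pairs of elements of `W` as elements of `W` -/
theorem act [Finite V] {y m l : V} (hy : Th q x c e y) (hm : Wd q x c e m)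
    (hl : Wd q x c e l) : ∃ n, Wd q x c e n ∧ q (y + n) m = 0 ∧ q (y + n) l = 0 := by
  obtain ⟨n, h1, h2, h3⟩ := count (W := T.W) T.alt T.symm (w := y) (by
    intro a ha s hs
    obtain ⟨k, h1, h2, h3⟩ := T.ha (T.Tw hy ha) hs
    exact ⟨k, h1, h2, h3⟩) (show m ∈ T.W from hm) (show l ∈ T.W from hl)
  exact ⟨n, h1, h2, h3⟩

/-- the elements acting on pairs of elements of `W` as elements of `W` -/
def U (T : TW q x c e) : Submodule (ZMod 2) V where
  carrier := {v | ∀ m l, Wd q x c e m → Wd q x c e l →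
    ∃ n, Wd q x c e n ∧ q (v + n) m = 0 ∧ q (v + n) l = 0}
  zero_mem' := fun m l _ _ => ⟨0, T.W0, by rw [add_zero, map_zero, LinearMap.zero_apply],
    by rw [add_zero, map_zero, LinearMap.zero_apply]⟩
  add_mem' := by
    intro v v' h h' m l hm hl
    obtain ⟨n, h1, h2, h3⟩ := h m l hm hl
    obtain ⟨n', h1', h2', h3'⟩ := h' m l hm hl
    have e1 : v + v' + (n + n') = (v + n) + (v' + n') := by abel
    exact ⟨n + n', T.Wadd h1 h1', by rw [e1, addl, h2, h2', add_zero],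
      by rw [e1, addl, h3, h3', add_zero]⟩
  smul_mem' := by
    intro a v h
    rcases Pool.Agent.Helper58.PLine.zm a with rfl | rfl
    · rw [zero_smul]
      exact fun m l _ _ => ⟨0, T.W0, by rw [add_zero, map_zero, LinearMap.zero_apply],
        by rw [add_zero, map_zero, LinearMap.zero_apply]⟩
    · rw [one_smul]; exact h

/-- `Y`: the span of the thick elements -/
def Y (_ : TW q x c e) : Submodule (ZMod 2) V := Submodule.span (ZMod 2) {u | Th q x c e u}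

theorem YU [Finite V] : T.Y ≤ T.U := by
  refine Submodule.span_le.2 fun u hu => ?_
  exact fun m l hm hl => T.act hu hm hl

omit T in
theorem thY (T : TW q x c e) {u : V} (h : Th q x c e u) : u ∈ T.Y := Submodule.subset_span h

omit T in
theorem Ysub (T : TW q x c e) {u k : V} (h : u ∈ T.Y) (h' : u + k ∈ T.Y) : k ∈ T.Y := by
  have := T.Y.add_mem h h'
  rwa [← add_assoc, ZModModule.add_self, zero_add] at this

theorem ex1 : ∃ u, Tk q x c e u := by
  obtain ⟨b, h1, u, h2, h3⟩ := T.d1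
  exact ⟨u, h2, b, h1, h3⟩

theorem ex2 : ∃ u, Tk q x (c + e) e u := T.rot.ex1

omit T in
theorem Y_rot (T : TW q x c e) : T.rot.Y = T.Y := by
  unfold Y
  congr 1
  ext u
  constructor
  · intro h
    have h' := Th_rot T.toKc h
    rwa [aab] at h'
  · intro h
    exact Th_rot T.toKc h

theorem WY {w : V} (h : Wd q x c e w) : w ∈ T.Y := by
  obtain ⟨u, hu⟩ := T.ex1
  exact T.Ysub (T.thY (Or.inl hu)) (T.thY (T.Tw (Or.inl hu) h))

theorem xY : x ∈ T.Y := by
  obtain ⟨u, h1, b, h2, h3⟩ := T.ex1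
  refine T.Ysub (u := u) (T.thY (Or.inl ⟨h1, b, h2, h3⟩)) (T.thY (Or.inl ⟨?_, b, h2, ?_⟩))
  · rw [addr, h1, T.alt, add_zero]
  · rw [addr, h3, T.symm, h2, add_zero]

/-- `K_b ⊆ Y` for `b ∈ D(c,e)` -/
theorem KbY {b k : V} (hb : Dd q x c e b) (hk : q x k = 0) (h : q b k = 0) : k ∈ T.Y := by
  obtain ⟨h1, u, h2, h3⟩ := hb
  refine T.Ysub (u := u) (T.thY (Or.inl ⟨h2, b, h1, h3⟩)) (T.thY (Or.inl ⟨?_, b, h1, ?_⟩))
  · rw [addr, h2, hk, add_zero]
  · rw [addr, h3, h, add_zero]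

theorem KbY' {b k : V} (hb : Dd q x (c + e) e b) (hk : q x k = 0) (h : q b k = 0) :
    k ∈ T.Y := by
  rw [← T.Y_rot]
  exact T.rot.KbY hb hk h

theorem bY {b : V} (hb : Dd q x c e b) : b ∈ T.Y := T.KbY hb hb.1 (T.alt b)

theorem bY' {b : V} (hb : Dd q x (c + e) e b) : b ∈ T.Y := T.KbY' hb hb.1 (T.alt b)

theorem bY3 {b : V} (hb : Dd q x c (c + e) b) : b ∈ T.Y := by
  obtain ⟨h1, u, h2, h3⟩ := hb
  refine T.Ysub (u := u) (T.thY (Or.inr (Or.inr ⟨h2, b, h1, h3⟩)))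
    (T.thY (Or.inr (Or.inr ⟨?_, b, h1, ?_⟩)))
  · rw [addr, h2, h1, add_zero]
  · rw [addr, h3, T.alt, add_zero]

/-- pure elements of `A_c` and `A_e` are in `Y` -/
theorem pY {l : V} (hl : q x l = 0) (hp : Pu q x l) (hJ : A q x c l ∨ A q x e l) : l ∈ T.Y := by
  obtain ⟨u, hu⟩ := T.ex1
  exact T.Ysub (T.thY (Or.inl hu)) (T.thY (Or.inl (T.Tl1 hu hl hp hJ)))

theorem pY' {l : V} (hl : q x l = 0) (hp : Pu q x l) (hJ : A q x (c + e) l ∨ A q x e l) :
    l ∈ T.Y := by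
  rw [← T.Y_rot]
  exact T.rot.pY hl hp hJ

/-- `A_c ⊆ Y` -/
theorem AcY {l : V} (h : A q x c l) : l ∈ T.Y := by
  by_cases hp : Pu q x l
  · exact T.pY h.1 hp (Or.inl h)
  · unfold Pu at hp
    push Not at hp
    obtain ⟨v, h1, h2⟩ := hp
    rcases T.val v with h3 | h3 | h3 | h3
    · exact (h2 h3).elim
    · exact (T.nJ T.c0 h ⟨T.addx h.1, v, h3, h1⟩).elim
    · exact T.bY (T.Dd_iff.2 ⟨h, T.addx h.1, v, h3, h1⟩)
    · refine T.bY3 ?_
      have R' : R2 q x c (c + e) := by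
        have := T.toR2.swap.rot.swap
        rwa [add_comm e c] at this
      exact R'.Dd_iff.2 ⟨h, T.addx h.1, v, h3, h1⟩

theorem AgY {l : V} (h : A q x (c + e) l) : l ∈ T.Y := by
  rw [← T.Y_rot]
  exact T.rot.AcY h

/-- `A_e ⊆ Y` -/
theorem AeY {l : V} (h : A q x e l) : l ∈ T.Y := by
  by_cases hp : Pu q x l
  · exact T.pY h.1 hp (Or.inr h)
  · unfold Pu at hp
    push Not at hp
    obtain ⟨v, h1, h2⟩ := hp
    have hx : l + x ∈ T.Y := by
      rcases T.val v with h3 | h3 | h3 | h3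
      · exact (h2 h3).elim
      · exact T.AcY ⟨T.addx h.1, v, h3, h1⟩
      · exact (T.nJ T.e0 h ⟨T.addx h.1, v, h3, h1⟩).elim
      · exact T.AgY ⟨T.addx h.1, v, h3, h1⟩
    have := T.Y.add_mem hx T.xY
    rwa [add_assoc, ZModModule.add_self, add_zero] at this

end TW

end

end Pool.Agent.ETCR2
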