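import Pool.Agent.ETCR2.R2a

/-!
THEOREM R2 of note 2569 (helper46): the pairs `D(c,e)` and `D(g,e)` are not both nonempty.
Steps 1 - 8.
-/

set_option autoImplicit false
set_option linter.unusedSectionVars false

namespace Pool.Agent.ETCR2

variable {V B : Type} [AddCommGroup V] [Module (ZMod 2) V] [AddCommGroup B] [Module (ZMod 2) B]

/-- `w ∈ W`: `w ∈ K` and `J_w = E` -/
def Wd (q : V →ₗ[ZMod 2] V →ₗ[ZMod 2] B) (x : V) (c e : B) (w : V) : Prop :=
  A q x c w ∧ A q x e w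

section
variable {q : V →ₗ[ZMod 2] V →ₗ[ZMod 2] B} {x : V} {c e : B}

namespace R2

theorem Wswap {w : V} (h : Wd q x c e w) : Wd q x e c w := h.symm

theorem Wg {w : V} (h : Wd q x c e w) : A q x (c + e) w := Aj h.1 h.2

theorem Wrot {w : V} (h : Wd q x c e w) : Wd q x (c + e) e w := ⟨Wg h, h.2⟩

theorem Wrot' {w : V} (h : Wd q x (c + e) e w) : Wd q x c e w := by
  refine ⟨?_, h.2⟩
  have := Aj h.1 h.2
  rwa [aab] at this

variable (R : R2 q x c e)

include R

theorem W0 : Wd q x c e 0 := by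
  obtain ⟨v, hv⟩ := R.hc
  obtain ⟨w, hw⟩ := R.hE
  exact ⟨⟨map_zero _, v, hv, by rw [map_zero, LinearMap.zero_apply]⟩,
    ⟨map_zero _, w, hw, by rw [map_zero, LinearMap.zero_apply]⟩⟩

theorem Wpure {w : V} (h : Wd q x c e w) : Pu q x w := by
  intro v hv
  have h' : q x w = 0 := h.1.1
  rcases R.val v with h1 | h1 | h1 | h1
  · exact h1
  · exact (R.nJ R.c0 h.1 ⟨R.addx h', v, h1, hv⟩).elim
  · exact (R.nJ R.e0 h.2 ⟨R.addx h', v, h1, hv⟩).elim
  · exact (R.nJ R.g0 (Wg h) ⟨R.addx h', v, h1, hv⟩).elim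

omit R in
/-- neighbours of `l + x` for a pure `l` -/
theorem nbp {i : B} {l z : V} (hp : Pu q x l) (h : A q x i l) (hz : q (l + x) z = i) :
    q x z = i ∧ q l z = 0 := by
  obtain ⟨-, w, h1, h2⟩ := h
  have h4 := hp (z + w) (by rw [addr, hz, addl, h2, h1, zero_add, two])
  rw [addr, h1] at h4
  have h5 := eo h4
  refine ⟨h5, ?_⟩
  rw [addl, h5] at hz
  have := sw hz
  rwa [two] at this

omit R in
/-- `J` of the sum of two pure elements -/
theorem padd (F : Kc q x) {i : B} {l l' : V} (hp : Pu q x l) (hp' : Pu q x l') (h : A q x i l)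
    (h' : A q x i l') : A q x i (l + l') := by
  obtain ⟨w, h1, h2⟩ := h.2
  obtain ⟨w', h1', h2'⟩ := h'.2
  obtain ⟨t, f1, f2⟩ := F.lks (a := l + x) (b := l' + x) (r := w) (s := w') (t := i) (by
    rw [addr, F.addx h.1, F.addx h'.1, add_zero]) (by rw [addl, h2, h1, zero_add])
    (by rw [addl, h2', h1', zero_add])
  obtain ⟨g1, g2⟩ := nbp hp h f1
  obtain ⟨g3, g4⟩ := nbp hp' h' f2
  exact ⟨by rw [addr, h.1, h'.1, add_zero], t, g1, by rw [addl, g2, g4, add_zero]⟩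

theorem Wadd {w w' : V} (h : Wd q x c e w) (h' : Wd q x c e w') : Wd q x c e (w + w') :=
  ⟨padd R.toKc (R.Wpure h) (R.Wpure h') h.1 h'.1, padd R.toKc (R.Wpure h) (R.Wpure h') h.2 h'.2⟩

omit R in
/-- `W` as a subspace -/
def W (R : R2 q x c e) : Submodule (ZMod 2) V where
  carrier := {l | Wd q x c e l}
  add_mem' := fun h1 h2 => R.Wadd h1 h2
  zero_mem' := R.W0
  smul_mem' := by
    intro a l hl
    rcases Pool.Agent.Helper58.PLine.zm a with rfl | rfl
    · rw [zero_smul]; exact R.W0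
    · rw [one_smul]; exact hl

/-- 1.: `V = K + V_w` -/
theorem Wsplit {w : V} (h : Wd q x c e w) (v : V) : ∃ v', q x (v + v') = 0 ∧ q w v' = 0 := by
  rcases R.val v with h1 | h1 | h1 | h1
  · exact ⟨0, by rw [add_zero, h1], map_zero _⟩
  · obtain ⟨-, v', h2, h3⟩ := h.1
    exact ⟨v', by rw [addr, h1, h2, two], h3⟩
  · obtain ⟨-, v', h2, h3⟩ := h.2
    exact ⟨v', by rw [addr, h1, h2, two], h3⟩
  · obtain ⟨-, v', h2, h3⟩ := Wg h
    exact ⟨v', by rw [addr, h1, h2, two], h3⟩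

/-- 1.: neighbours of `w + x` at a value of `w` -/
theorem Wnb {w v r : V} (h : Wd q x c e w) (hr : q (w + x) r = q w v) :
    q w r = q w v ∧ q x r = 0 := by
  obtain ⟨v', h1, h2⟩ := R.Wsplit h v
  have h3 : q w (v + v') = q w v := by rw [addr, h2, add_zero]
  have h4 : q x (r + (v + v')) = 0 := R.Wpure h _ (by
    rw [addr, hr, addl, h3, h1, add_zero, two])
  have h5 : q x r = 0 := by rw [addr, h1, add_zero] at h4; exact h4
  exact ⟨by rw [addl, h5, add_zero] at hr; exact hr, h5⟩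

/-- 1.: `S_i + W = S_i` -/
theorem Wstab {i : B} {w s r : V} (h : Wd q x c e w) (hi : i = c ∨ i = e) (hs : q s r = i) :
    ∃ y, q x y = i ∧ q w y = 0 ∧ q s y = i := by
  have hA : A q x i w := by rcases hi with rfl | rfl; exacts [h.1, h.2]
  have hi0 : i ≠ 0 := by rcases hi with rfl | rfl; exacts [R.c0, R.e0]
  obtain ⟨h1, v, h2, h3⟩ := id hA
  obtain ⟨y, f1, f2⟩ := R.lkn (R.addx h1) hi0 (r := v) (by rw [addl, h3, h2, zero_add]) hs
  obtain ⟨g1, g2⟩ := nbp (R.Wpure h) hA f1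
  exact ⟨y, g1, g2, f2⟩

/-- `D(c,e) + W = D(c,e)` -/
theorem DW {b w : V} (hb : Dd q x c e b) (h : Wd q x c e w) : Dd q x c e (b + w) := by
  obtain ⟨h1, h2⟩ := R.Dd_iff.1 hb
  have hx : q x (b + w) = 0 := by rw [addr, hb.1, h.1.1, add_zero]
  rw [R.Dd_iff]
  constructor
  · -- `c ∈ Q_{b+x}`
    obtain ⟨-, v, h3, h4⟩ := h1
    obtain ⟨y, g1, g2, g3⟩ := R.Wstab h (Or.inl rfl) (s := b + x) (r := v) (by
      rw [addl, h4, h3, zero_add])
    refine R.Aof R.c0 R.hc hx (r := y) ?_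
    have e1 : b + w + x = (b + x) + w := by abel
    rw [e1, addl, g3, g2, add_zero]
  · obtain ⟨v, h3, h4⟩ := Ax R.toKc h2
    obtain ⟨y, g1, g2, g3⟩ := R.Wstab h (Or.inr rfl) (s := b) (r := v) h4
    exact R.Aofx R.e0 R.hE hx (r := y) (by rw [addl, g3, g2, add_zero])

/-- 2.: some `z ∈ X_e` with `b z = b' z = e` -/
theorem exz {b b' : V} (hb : Dd q x c e b) (hb' : Dd q x (c + e) e b') :
    ∃ z, q x z = e ∧ q b z = e ∧ q b' z = e := by
  obtain ⟨v, h1, h2⟩ := Ax R.toKc (R.Dd_iff.1 hb).2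
  obtain ⟨v', h3, h4⟩ := Ax R.toKc (R.rot.Dd_iff.1 hb').2
  obtain ⟨z, f1, f2⟩ := R.lkn hb.1 R.e0 h2 h4
  refine ⟨z, ?_, f1, f2⟩
  -- the class of `z`
  have g1 := R.Jb hb (v := z + v) (by rw [addr, f1, h2, two])
  have g2 := R.rot.Jb hb' (v := z + v') (by rw [addr, f2, h4, two])
  rw [addr, h1] at g1
  rw [addr, h3] at g2
  rcases g1 with g1 | g1
  · exact eo g1
  · rcases g2 with g2 | g2
    · exact eo g2
    · exfalso
      have h5 := g1.symm.trans g2
      exact R.e0 (left_eq_add.1 h5)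

/-- 2.: `c ∉ J_{m+x}` for `m = b + b'` -/
theorem nocm {b b' : V} (hb : Dd q x c e b) (hb' : Dd q x (c + e) e b')
    (h : A q x c (b + b' + x)) : False := by
  obtain ⟨v, h1, h2⟩ := Ax R.toKc h
  obtain ⟨-, w, h3, h4⟩ := (R.Dd_iff.1 hb).1
  have e0 : q x (b + x + (b + b')) = 0 := by
    rw [addr, addr, addr, R.alt, hb.1, hb'.1, add_zero, add_zero]
  obtain ⟨y, f1, f2⟩ := R.lks (a := b + x) (b := b + b') (r := w) (s := v) (t := c) e0
    (by rw [addl, h4, h3, zero_add]) h2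
  have g1 := R.Jbx hb (v := y + w) (by rw [addr, f1, addl, h4, h3, zero_add, two])
  have g2 := R.rot.Jbx hb' (v := y) (by
    have : b' + x = (b + x) + (b + b') := by
      have : (b + x) + (b + b') = (b' + x) + (b + b) := by abel
      rw [this, ZModModule.add_self, add_zero]
    rw [this, addl, f1, f2, two])
  rw [addr, h3] at g1
  rcases g1 with g1 | g1
  · have g3 := eo g1
    rcases g2 with g2 | g2
    · exact R.c0 (g3.symm.trans g2)
    · exact R.ce (g3.symm.trans g2)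
  · rcases g2 with g2 | g2
    · rw [g2, zero_add] at g1
      exact R.ce g1
    · rw [g2] at g1
      exact R.c0 (add_eq_left.1 g1)

/-- 2.: `m = b + b'` is pure and `e ∈ J_m` -/
theorem mA {b b' : V} (hb : Dd q x c e b) (hb' : Dd q x (c + e) e b') :
    A q x e (b + b') := by
  obtain ⟨z, h1, h2, h3⟩ := R.exz hb hb'
  exact ⟨by rw [addr, hb.1, hb'.1, add_zero], z, h1, by rw [addl, h2, h3, two]⟩

theorem rotD {b : V} (hb : Dd q x c e b) : Dd q x (c + e + e) e b := by rwa [aab]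

theorem mPu {b b' : V} (hb : Dd q x c e b) (hb' : Dd q x (c + e) e b') : Pu q x (b + b') := by
  have hA := R.mA hb hb'
  have hk : q x (b + b') = 0 := hA.1
  intro v hv
  rcases R.val v with h | h | h | h
  · exact h
  · exact (R.nocm hb hb' ⟨R.addx hk, v, h, hv⟩).elim
  · exact (R.nJ R.e0 hA ⟨R.addx hk, v, h, hv⟩).elim
  · refine (R.rot.nocm hb' (R.rotD hb) ?_).elim
    rw [add_comm b' b]
    exact ⟨R.addx hk, v, h, hv⟩

/-- `m ∉ W` -/
theorem mnW {b b' : V} (hb : Dd q x c e b) (hb' : Dd q x (c + e) e b') :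
    ¬ Wd q x c e (b + b') := by
  intro h
  have h1 := R.DW hb h
  rw [← add_assoc, ZModModule.add_self, zero_add] at h1
  -- `b' ∈ D(c,e)` and `b' ∈ D(c+e,e)`
  obtain ⟨-, v, h2, h3⟩ := (R.Dd_iff.1 h1).1
  rcases R.rot.Jb hb' h3 with h4 | h4
  · exact R.c0 (h2.symm.trans h4)
  · exact R.e0 (left_eq_add.1 (h2.symm.trans h4))

/-- (i) of note 2549, first half: a common `e`-neighbour -/
theorem i1 {b b' : V} (hb : Dd q x c e b) (hb' : Dd q x c e b') :
    A q x e (b + b') ∨ A q x (c + e) (b + b') := by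
  obtain ⟨v, h1, h2⟩ := Ax R.toKc (R.Dd_iff.1 hb).2
  obtain ⟨v', h3, h4⟩ := Ax R.toKc (R.Dd_iff.1 hb').2
  obtain ⟨z, f1, f2⟩ := R.lkn hb.1 R.e0 h2 h4
  have g1 := R.Jb hb (v := z + v) (by rw [addr, f1, h2, two])
  rw [addr, h1] at g1
  have hk : q x (b + b') = 0 := by rw [addr, hb.1, hb'.1, add_zero]
  have hz : q (b + b') z = 0 := by rw [addl, f1, f2, two]
  rcases g1 with g1 | g1
  · exact Or.inl ⟨hk, z, eo g1, hz⟩
  · exact Or.inr ⟨hk, z, sw g1, hz⟩

/-- (i) of note 2549, second half: a common `c`-neighbour -/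
theorem i2 {b b' : V} (hb : Dd q x c e b) (hb' : Dd q x c e b') :
    A q x c (b + b') ∨ A q x (c + e) (b + b') := by
  have h := R.swap.i1 (R.Dx hb) (R.Dx hb')
  have e1 : b + x + (b' + x) = b + b' := by
    have : b + x + (b' + x) = b + b' + (x + x) := by abel
    rw [this, ZModModule.add_self, add_zero]
  rw [e1, add_comm e c] at h
  exact h

/-- (i) of note 2549 -/
theorem iAg {b b' : V} (hb : Dd q x c e b) (hb' : Dd q x c e b') : A q x (c + e) (b + b') := by
  rcases R.i1 hb hb' with h | h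
  · rcases R.i2 hb hb' with h' | h'
    · exact Aj h' h
    · exact h'
  · exact h

/-- 2.: `D(c,e) = b + W` -/
theorem DDW {b b2 b' : V} (hb : Dd q x c e b) (hb2 : Dd q x c e b2)
    (hb' : Dd q x (c + e) e b') : Wd q x c e (b + b2) := by
  have h1 : A q x e (b + b2) := by
    have := padd R.toKc (R.mPu hb hb') (R.mPu hb2 hb') (R.mA hb hb') (R.mA hb2 hb')
    have e1 : b + b' + (b2 + b') = b + b2 := by
      have : b + b' + (b2 + b') = b + b2 + (b' + b') := by abel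
      rw [this, ZModModule.add_self, add_zero]
    rwa [e1] at this
  have h2 := R.iAg hb hb2
  refine ⟨?_, h1⟩
  have := Aj h2 h1
  rwa [aab] at this

end R2

end

end Pool.Agent.ETCR2
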