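import Pool.Agent.ETCR2.R2Thick

/-!
THEOREM R2 of note 2569 (helper46): sections 8 - 10.
-/

set_option autoImplicit false
set_option linter.unusedSectionVars false

namespace Pool.Agent.ETCR2

variable {V B : Type} [AddCommGroup V] [Module (ZMod 2) V] [AddCommGroup B] [Module (ZMod 2) B]
variable {q : V →ₗ[ZMod 2] V →ₗ[ZMod 2] B} {x : V} {c e : B}

namespace TW

variable (T : TW q x c e)

include T

theorem R' : R2 q x c (c + e) := by
  have := T.toR2.swap.rot.swap
  rwa [add_comm e c] at this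

/-- the two links of sections 8 and 10 -/
theorem links {b b' l v z : V} (hb : Dd q x c e b) (hb' : Dd q x (c + e) e b')
    (hl : q x l = 0) (ht : q b l ≠ 0) (hbv : q b v = 0)
    (hu : q b' (l + v) = e) (hz : q x z = e) (hbz : q b z = e) (hbz' : q b' z = e) :
    (∃ k, q x k = 0 ∧ q b k = 0 ∧ q (l + k + b) (l + v) = 0) ∨
      ∃ k1 k6, q x k1 = 0 ∧ q b k1 = 0 ∧ q x k6 = 0 ∧ q (b + b') k6 = 0 ∧
        q (l + k1 + k6 + (b + b')) (l + v) = 0 := by
  have hm := T.mA hb hb'
  have hmp := T.mPu hb hb'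
  have e1 : q (b + b' + x) z = e := by rw [addl, addl, hbz, hbz', two, zero_add, hz]
  have e2 : q (l + v) b' = e := by rw [T.symm, hu]
  obtain ⟨y, f1, f2⟩ := T.lkn (T.addx hm.1) T.e0 e1 e2
  have k61 : q x (y + z) = 0 := hmp _ (by rw [addr, f1, e1, two])
  have k62 : q (b + b') (y + z) = 0 := by
    have : q (b + b' + x) (y + z) = 0 := by rw [addr, f1, e1, two]
    rw [addl, k61, add_zero] at this
    exact this
  have e3 : q (b + x) l = q b l := by rw [addl, hl, add_zero]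
  have e4 : q (l + v) b = q b l := by rw [T.symm, addr, hbv, add_zero]
  obtain ⟨y', g1, g2⟩ := T.lkn (T.addx hb.1) ht e3 e4
  rcases T.Jbx hb (v := y' + l) (by rw [addr, g1, e3, two]) with h | h
  · left
    refine ⟨y' + l, h, ?_, ?_⟩
    · have : q (b + x) (y' + l) = 0 := by rw [addr, g1, e3, two]
      rw [addl, h, add_zero] at this
      exact this
    · have e5 : l + (y' + l) + b = y' + b + (l + l) := by abel
      rw [e5, ZModModule.add_self, add_zero, T.symm, addr, g2, e4, two]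
  · right
    have e6 : q x (y' + l + z) = 0 := by rw [addr, h, hz, two]
    have e7 : q (b + x) (y' + l + z) = 0 := by
      rw [addr, addr, g1, e3, two, zero_add, addl, hbz, hz, two]
    refine ⟨y' + l + z, y + z, e6, ?_, k61, k62, ?_⟩
    · rw [addl, e6, add_zero] at e7; exact e7
    · have e8 : l + (y' + l + z) + (y + z) + (b + b') = (y' + b) + (y + b') + (l + l) + (z + z) := by
        abel
      rw [e8, ZModModule.add_self, ZModModule.add_self, add_zero, add_zero, T.symm, addr, addr,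
        addr, g2, e4, f2, e2, two, two, add_zero]

/-- (P1) at `b + x` -/
theorem P1x {b l v : V} (hb : Dd q x c e b) (hl : q x l = 0) (hv : q x v = e)
    (hbv : q (b + x) v = 0) :
    (∃ k, q x k = 0 ∧ q b k = 0 ∧ A q x e (l + k)) ∨ Tk q x c (c + e) (l + v) := by
  rcases T.toR2.swap.P1 (T.toR2.Dx hb) hl hv hbv with ⟨k, h1, h2, h3⟩ | ⟨m, h1, h2, h3⟩
  · left
    refine ⟨k, h1, ?_, h3⟩
    rw [addl, h1, add_zero] at h2
    exact h2
  · right
    have h4 : Tk q x (c + e) c (l + v) := by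
      refine ⟨?_, m, h1, h3⟩
      rw [addr, hl, hv, zero_add, add_comm c e, aab]
    exact h4.swap T.toKc

theorem P1c {b l v : V} (hb : Dd q x c e b) (hl : q x l = 0) (hv : q x v = c)
    (hbv : q b v = 0) :
    (∃ k, q x k = 0 ∧ q b k = 0 ∧ A q x c (l + k)) ∨ Tk q x (c + e) e (l + v) := by
  rcases T.toR2.P1 hb hl hv hbv with h | ⟨m, h1, h2, h3⟩
  · exact Or.inl h
  · right
    exact ⟨by rw [addr, hl, hv, zero_add, aab], m, h1, h3⟩

/-- section 8 -/
theorem KY {l : V} (hl : q x l = 0) : l ∈ T.Y := by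
  by_contra hlY
  obtain ⟨b, hb⟩ := T.d1
  obtain ⟨-, v, hv, hbv⟩ := (T.Dd_iff.1 hb).1
  obtain ⟨-, v2, hv2, hbv2⟩ := (T.Dd_iff.1 hb).2
  -- `X_c`
  have a1 : Tk q x (c + e) e (l + v) := by
    rcases T.P1c hb hl hv hbv with ⟨k, h1, h2, h3⟩ | h
    · exfalso
      apply hlY
      have := T.Y.add_mem (T.AcY h3) (T.KbY hb h1 h2)
      rwa [add_assoc, ZModModule.add_self, add_zero] at this
    · exact h
  -- `X_e`
  have a2 : ∀ l, q x l = 0 → l ∉ T.Y → Tk q x c (c + e) (l + v2) := by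
    intro l hl hlY
    rcases T.P1x hb hl hv2 hbv2 with ⟨k, h1, h2, h3⟩ | h
    · exfalso
      apply hlY
      have := T.Y.add_mem (T.AeY h3) (T.KbY hb h1 h2)
      rwa [add_assoc, ZModModule.add_self, add_zero] at this
    · exact h
  have a3 : v2 ∉ T.Y := by
    intro h
    apply hlY
    have h1 := T.thY (Or.inr (Or.inr (a2 l hl hlY)))
    have := T.Y.add_mem h1 h
    rwa [add_assoc, ZModModule.add_self, add_zero] at this
  -- `X_e ∩ Y = Th_e`
  have a4 : ∀ w, q x w = e → w ∈ T.Y → Tk q x c (c + e) w := by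
    intro w hw hwY
    have h1 : q x (w + v2) = 0 := by rw [addr, hw, hv2, two]
    have h2 : w + v2 ∉ T.Y := fun h => a3 (T.Ysub hwY h)
    have := a2 _ h1 h2
    rwa [add_assoc, ZModModule.add_self, add_zero] at this
  obtain ⟨-, b', hb'x, hb'u⟩ := id a1
  have hb' : Dd q x (c + e) e b' := ⟨hb'x, l + v, a1.1, hb'u⟩
  obtain ⟨z, z1, z2, z3⟩ := T.exz hb hb'
  have ht : q b l ≠ 0 := fun h => hlY (T.KbY hb hl h)
  have hmx := (T.mA hb hb').1
  have mz : q (b + b') z = 0 := by rw [addl, z2, z3, two]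
  have zY : z ∉ T.Y := fun h => T.mnW hb hb' (T.Ku3 (a4 z z1 h) hmx mz)
  have KmY : ∀ k, q x k = 0 → q (b + b') k = 0 → k ∈ T.Y := by
    intro k hk hmk
    by_contra hkY
    have h1 : q x (z + v2) = 0 := by rw [addr, z1, hv2, two]
    have h2 : z + v2 ∈ T.Y := by
      by_contra h
      apply zY
      have := T.thY (Or.inr (Or.inr (a2 _ h1 h)))
      rwa [add_assoc, ZModModule.add_self, add_zero] at this
    have h3 := T.thY (Or.inr (Or.inr (a2 k hk hkY)))
    have h4 := T.Y.add_mem h2 h3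
    have e1 : z + v2 + (k + v2) = z + k := by
      have : z + v2 + (k + v2) = z + k + (v2 + v2) := by abel
      rw [this, ZModModule.add_self, add_zero]
    rw [e1] at h4
    exact T.mnW hb hb' (T.Ku3 (a4 (z + k) (by rw [addr, z1, hk, add_zero]) h4) hmx
      (by rw [addr, mz, hmk, add_zero]))
  rcases T.links hb hb' hl ht hbv hb'u z1 z2 z3 with ⟨k, h1, h2, h3⟩ |
    ⟨k1, k6, h1, h2, h3, h4, h5⟩
  · have h4 := T.WY (T.Ku2 a1 (by rw [addr, addr, hl, h1, hb.1, add_zero, add_zero]) h3)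
    apply hlY
    have h5 := T.Y.add_mem (T.Y.add_mem h4 (T.bY hb)) (T.KbY hb h1 h2)
    have e1 : l + k + b + b + k = l + (k + k) + (b + b) := by abel
    rwa [e1, ZModModule.add_self, ZModModule.add_self, add_zero, add_zero] at h5
  · have h6 := T.WY (T.Ku2 a1 (by rw [addr, addr, addr, hl, h1, h3, hmx, add_zero, add_zero,
      add_zero]) h5)
    apply hlY
    have h7 := T.Y.add_mem (T.Y.add_mem (T.Y.add_mem h6 (T.KbY hb h1 h2)) (KmY k6 h3 h4))
      (T.Y.add_mem (T.bY hb) (T.bY' hb'))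
    have e1 : l + k1 + k6 + (b + b') + k1 + k6 + (b + b') =
        l + (k1 + k1) + (k6 + k6) + (b + b' + (b + b')) := by abel
    rwa [e1, ZModModule.add_self, ZModModule.add_self, ZModModule.add_self, add_zero, add_zero,
      add_zero] at h7

/-- section 8: `Y = V` -/
theorem YV (v : V) : v ∈ T.Y := by
  obtain ⟨u, hu⟩ := T.ex1
  obtain ⟨u', hu'⟩ := T.ex2
  have m1 := T.thY (Or.inl hu)
  have m2 := T.thY (Or.inr (Or.inl hu'))
  have c2 : q x u' = c := by rw [hu'.1, aab]
  rcases T.val v with h | h | h | h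
  · exact T.KY h
  · have := T.KY (l := u' + v) (by rw [addr, c2, h, two])
    exact T.Ysub m2 this
  · have := T.KY (l := u + u' + v) (by
      rw [addr, addr, hu.1, c2, h, add_comm c e, aab, two])
    exact T.Ysub (T.Y.add_mem m1 m2) this
  · have := T.KY (l := u + v) (by rw [addr, hu.1, h, two])
    exact T.Ysub m1 this

variable [Finite V]

theorem actV (v : V) {m l : V} (hm : Wd q x c e m) (hl : Wd q x c e l) :
    ∃ n, Wd q x c e n ∧ q (v + n) m = 0 ∧ q (v + n) l = 0 := T.YU (T.YV v) m l hm hl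

/-- section 9: `V = W + V_W` -/
theorem VW (v : V) : ∃ p, Wd q x c e p ∧ ∀ m, Wd q x c e m → q m (v + p) = 0 := by
  obtain ⟨p, h1, h2⟩ := inner (W := T.W) T.alt T.symm (by
    intro a ha b hb a' ha' b' hb' h
    have ha : Wd q x c e a := ha
    have ha' : Wd q x c e a' := ha'
    have hb : Wd q x c e b := hb
    have hb' : Wd q x c e b' := hb'
    obtain ⟨y, f1, f2⟩ := T.lks (a := a + x) (b := a' + x) (r := b) (s := b') (t := q a b) (by
      rw [addr, T.addx ha.1.1, T.addx ha'.1.1, add_zero]) (by rw [addl, hb.1.1, add_zero])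
      (by rw [addl, hb'.1.1, add_zero, h])
    obtain ⟨g1, -⟩ := T.Wnb ha (v := b) f1
    obtain ⟨g2, -⟩ := T.Wnb ha' (v := b') (r := y) (by rw [f2, h])
    obtain ⟨n, hn, h3, h4⟩ := T.actV y ha ha'
    refine ⟨n, hn, ?_, ?_⟩
    · rw [addl, T.symm y, g1, T.symm n] at h3
      exact (eo h3).symm
    · rw [addl, T.symm y, g2, ← h, T.symm n] at h4
      exact (eo h4).symm) (v := v) (fun m hm l hl => T.actV v hm hl)
  exact ⟨p, h1, h2⟩

omit [Finite V] in
/-- section 10: the case `W ⊆ rad V` -/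
theorem ten (hr : ∀ w, Wd q x c e w → ∀ v, q w v = 0) : False := by
  obtain ⟨b, hb⟩ := T.d1
  obtain ⟨-, v, hv, hbv⟩ := (T.Dd_iff.1 hb).1
  -- `b` kills the pure elements of `A_c` and `A_e`
  have bp : ∀ l, q x l = 0 → Pu q x l → (A q x c l ∨ A q x e l) → q b l = 0 := by
    intro l hl hp hJ
    obtain ⟨-, u, h1, h2⟩ := id hb
    obtain ⟨m, g1, g2, g3, -⟩ := T.C2 hl hp hJ h1 hb.1 h2
    have h3 := hr m (T.Ku1 ⟨h1, b, hb.1, h2⟩ g1 (by rw [T.symm, g2])) l
    rw [addl, h3, add_zero] at g3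
    exact g3
  -- `b` kills `A_c`
  have bc : ∀ l, A q x c l → q b l = 0 := by
    intro l h
    by_cases hp : Pu q x l
    · exact bp l h.1 hp (Or.inl h)
    · unfold Pu at hp
      push Not at hp
      obtain ⟨w, h1, h2⟩ := hp
      rcases T.val w with h3 | h3 | h3 | h3
      · exact (h2 h3).elim
      · exact (T.nJ T.c0 h ⟨T.addx h.1, w, h3, h1⟩).elim
      · obtain ⟨b', hb'⟩ := T.d2
        have h4 := hr _ (T.DDW hb (T.Dd_iff.2 ⟨h, T.addx h.1, w, h3, h1⟩) hb') l
        rw [addl, T.alt, add_zero] at h4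
        exact h4
      · have h4 : Dd q x c (c + e) l := T.R'.Dd_iff.2 ⟨h, T.addx h.1, w, h3, h1⟩
        have h5 : Dd q x (e + c) c (l + x) := by
          have := T.R'.Dx h4
          rwa [add_comm e c]
        have h6 := T.toR2.swap.mA (T.toR2.Dx hb) h5
        have h7 := T.toR2.swap.mPu (T.toR2.Dx hb) h5
        have e1 : b + x + (l + x) = b + l := by
          have : b + x + (l + x) = b + l + (x + x) := by abel
          rw [this, ZModModule.add_self, add_zero]
        rw [e1] at h6 h7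
        have h8 := bp _ h6.1 h7 (Or.inl h6)
        rw [addr, T.alt, zero_add] at h8
        exact h8
  -- `b` kills `A_e`
  have be : ∀ l, A q x e l → q b l = 0 := by
    intro l h
    by_cases hp : Pu q x l
    · exact bp l h.1 hp (Or.inr h)
    · unfold Pu at hp
      push Not at hp
      obtain ⟨w, h1, h2⟩ := hp
      have h5 : q b (l + x) = 0 := by
        rcases T.val w with h3 | h3 | h3 | h3
        · exact (h2 h3).elim
        · exact bc _ ⟨T.addx h.1, w, h3, h1⟩
        · exact (T.nJ T.e0 h ⟨T.addx h.1, w, h3, h1⟩).elim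
        · have h4 : Dd q x (c + e) e (l + x) := T.toR2.rot.Dd_iff.2
            ⟨⟨T.addx h.1, w, h3, h1⟩, R2.Axx.2 h⟩
          have h6 := T.mA hb h4
          have h8 := bp _ h6.1 (T.mPu hb h4) (Or.inr h6)
          rw [addr, T.alt, zero_add] at h8
          exact h8
      rw [addr, T.symm b x, hb.1, add_zero] at h5
      exact h5
  -- `b K ≠ 0`
  obtain ⟨l, hl, ht⟩ : ∃ l, q x l = 0 ∧ q b l ≠ 0 := by
    by_contra hcon
    push Not at hcon
    obtain ⟨u, h1, b', h2, h3⟩ := T.ex2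
    have hb' : Dd q x (c + e) e b' := ⟨h2, u, h1, h3⟩
    rw [aab] at h1
    have h4 := hcon (u + v) (by rw [addr, h1, hv, two])
    rw [addr, hbv, add_zero] at h4
    have h5 := T.mA hb hb'
    exact T.nJ T.e0 h5 (T.Aofx T.e0 T.hE h5.1 (r := u) (by rw [addl, h4, h3, zero_add]))
  have a1 : Tk q x (c + e) e (l + v) := by
    rcases T.P1c hb hl hv hbv with ⟨k, h1, h2, h3⟩ | h
    · exfalso
      apply ht
      have := bc _ h3
      rwa [addr, h2, add_zero] at this
    · exact h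
  obtain ⟨-, b', hb'x, hb'u⟩ := id a1
  have hb' : Dd q x (c + e) e b' := ⟨hb'x, l + v, a1.1, hb'u⟩
  obtain ⟨z, z1, z2, z3⟩ := T.exz hb hb'
  have hmA := T.mA hb hb'
  have hmx := hmA.1
  have mz : q (b + b') z = 0 := by rw [addl, z2, z3, two]
  have KmB : ∀ k, q x k = 0 → q (b + b') k = 0 → q b k = 0 := by
    intro k hk hmk
    by_contra hbk
    have h4 : Tk q x c (c + e) (k + z) := by
      rcases T.P1x hb hk z1 (by rw [addl, z2, z1, two]) with ⟨k', h1, h2, h3⟩ | h
      · exfalso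
        apply hbk
        have := be _ h3
        rwa [addr, h2, add_zero] at this
      · exact h
    exact T.mnW hb hb' (T.Ku3 h4 hmx (by rw [addr, mz, hmk, add_zero]))
  have hbm : q b (b + b') = 0 := bp _ hmx (T.mPu hb hb') (Or.inr hmA)
  rcases T.links hb hb' hl ht hbv hb'u z1 z2 z3 with ⟨k, h1, h2, h3⟩ |
    ⟨k1, k6, h1, h2, h3, h4, h5⟩
  · have h4 := hr _ (T.Ku2 a1 (by rw [addr, addr, hl, h1, hb.1, add_zero, add_zero]) h3) b
    rw [T.symm, addr, addr, h2, T.alt, add_zero, add_zero] at h4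
    exact ht h4
  · have h6 := hr _ (T.Ku2 a1 (by rw [addr, addr, addr, hl, h1, h3, hmx, add_zero, add_zero,
      add_zero]) h5) b
    rw [T.symm, addr, addr, addr, h2, KmB k6 h3 h4, hbm, add_zero, add_zero, add_zero] at h6
    exact ht h6

omit T [Finite V] in
/-- `V_W` -/
def Vw (_ : TW q x c e) : Submodule (ZMod 2) V where
  carrier := {v | ∀ m, Wd q x c e m → q m v = 0}
  zero_mem' := fun m _ => map_zero _
  add_mem' := fun h h' m hm => by rw [addr, h m hm, h' m hm, add_zero]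
  smul_mem' := fun r v h m hm => by rw [map_smul, h m hm, smul_zero]

omit [Finite V] in
theorem xW : x ∈ T.Vw := fun m hm => by rw [T.symm]; exact hm.1.1

/-- a representative in `V_W` -/
theorem rep (v : V) : ∃ p, Wd q x c e p ∧ v + p ∈ T.Vw := T.VW v

/-- section 9: the structure on `V_W` -/
theorem r9 : R2 (q.domRestrict₁₂ T.Vw T.Vw) ⟨x, T.xW⟩ c e where
  alt := fun v => T.alt _
  link := by
    rintro k hk k0 w r s h
    have k0' : (k : V) ≠ 0 := fun h => k0 (Subtype.ext h)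
    obtain ⟨y, h1, h2⟩ := T.link (k : V) hk k0' (w : V) r s h
    obtain ⟨p, hp, h3⟩ := T.rep y
    refine ⟨⟨y + p, h3⟩, ?_, ?_⟩
    · change q (k : V) (y + p) = q (k : V) (r : V)
      rw [addr, h1, T.symm (k : V) p, k.2 p hp, add_zero]
    · change q (w : V) (y + p) = q (k : V) (r : V)
      rw [addr, h2, T.symm (w : V) p, w.2 p hp, add_zero]
  wA := fun k l hk hl r h => T.wA (k : V) (l : V) hk hl (r : V) h
  c0 := T.c0
  e0 := T.e0
  ce := T.ce
  hc := by
    obtain ⟨v, hv⟩ := T.hc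
    obtain ⟨p, hp, h3⟩ := T.rep v
    refine ⟨⟨v + p, h3⟩, ?_⟩
    change q x (v + p) = c
    rw [addr, hv, hp.1.1, add_zero]
  hE := by
    obtain ⟨v, hv⟩ := T.hE
    obtain ⟨p, hp, h3⟩ := T.rep v
    refine ⟨⟨v + p, h3⟩, ?_⟩
    change q x (v + p) = e
    rw [addr, hv, hp.1.1, add_zero]
  val := fun v => T.val (v : V)

theorem d9 {i j : B} {b : V} (hb : ∀ w, Wd q x c e w → Dd q x i j (b + w)) :
    ∃ b', Dd (q.domRestrict₁₂ T.Vw T.Vw) ⟨x, T.xW⟩ i j b' := by
  obtain ⟨p, hp, h1⟩ := T.rep b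
  obtain ⟨h2, u, h3, h4⟩ := hb p hp
  obtain ⟨p', hp', h5⟩ := T.rep u
  refine ⟨⟨b + p, h1⟩, h2, ⟨u + p', h5⟩, ?_, ?_⟩
  · change q x (u + p') = i + j
    rw [addr, h3, hp'.1.1, add_zero]
  · change q (b + p) (u + p') = j
    rw [addr, h4, T.symm _ p', h1 p' hp', add_zero]

theorem t9 : TW (q.domRestrict₁₂ T.Vw T.Vw) ⟨x, T.xW⟩ c e where
  toR2 := T.r9
  d1 := by
    obtain ⟨b, hb⟩ := T.d1
    exact T.d9 fun w hw => T.DW hb hw
  d2 := by
    obtain ⟨b, hb⟩ := T.d2
    exact T.d9 fun w hw => T.rot.DW hb (R2.Wrot hw)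

/-- **(TWO)**: the pairs `D(c,e)` and `D(c+e,e)` are not both nonempty -/
theorem two_false : False := by
  refine T.t9.ten ?_
  rintro w ⟨⟨h1, v, h2, h3⟩, -, v', h4, h5⟩ u
  have hw : Wd q x c e (w : V) := ⟨⟨h1, (v : V), h2, h3⟩, h1, (v' : V), h4, h5⟩
  exact u.2 (w : V) hw

end TW

/-- **(TWO)** of THEOREM R2 -/
theorem R2.two [Finite V] (R : R2 q x c e) {b b' : V} (hb : Dd q x c e b)
    (hb' : Dd q x (c + e) e b') : False :=
  TW.two_false (T := { toR2 := R, d1 := ⟨b, hb⟩, d2 := ⟨b', hb'⟩ })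

end Pool.Agent.ETCR2
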