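import Pool.Agent.ETCR2.LD

/-!
THEOREM R2 of note 2569 (helper46, helper31): rank two, world A, only the planes meeting `K = V_x`
linked.  Basic facts, LEMMA C2 and (P1) of note 2549 (helper31).
-/

set_option autoImplicit false
set_option linter.unusedSectionVars false

namespace Pool.Agent.ETCR2

variable {V B : Type} [AddCommGroup V] [Module (ZMod 2) V] [AddCommGroup B] [Module (ZMod 2) B]

/-- the frame of THEOREM R2: `Q_x = {0, c, e, c + e}` and `Q_x ∩ q (K, K) = 0` -/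
structure R2 (q : V →ₗ[ZMod 2] V →ₗ[ZMod 2] B) (x : V) (c e : B) : Prop extends Kc q x where
  wA : ∀ k l, q x k = 0 → q x l = 0 → ∀ r, q k l = q x r → q k l = 0
  c0 : c ≠ 0
  e0 : e ≠ 0
  ce : c ≠ e
  hc : ∃ v, q x v = c
  hE : ∃ v, q x v = e
  val : ∀ v, q x v = 0 ∨ q x v = c ∨ q x v = e ∨ q x v = c + e

/-- `b ∈ D(i,j)` -/
def Dd (q : V →ₗ[ZMod 2] V →ₗ[ZMod 2] B) (x : V) (i j : B) (b : V) : Prop :=
  q x b = 0 ∧ ∃ u, q x u = i + j ∧ q b u = j

section
variable {q : V →ₗ[ZMod 2] V →ₗ[ZMod 2] B} {x : V} {c e : B}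

namespace R2

theorem swap (R : R2 q x c e) : R2 q x e c where
  toKc := R.toKc
  wA := R.wA
  c0 := R.e0
  e0 := R.c0
  ce := R.ce.symm
  hc := R.hE
  hE := R.hc
  val := by
    intro v
    rcases R.val v with h | h | h | h
    · exact Or.inl h
    · exact Or.inr (Or.inr (Or.inl h))
    · exact Or.inr (Or.inl h)
    · exact Or.inr (Or.inr (Or.inr (by rw [h, add_comm])))

theorem rot (R : R2 q x c e) : R2 q x (c + e) e where
  toKc := R.toKc
  wA := R.wA
  c0 := fun h => R.ce (eo h)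
  e0 := R.e0
  ce := fun h => R.c0 (add_eq_right.1 h)
  hc := by
    obtain ⟨v, hv⟩ := R.hc
    obtain ⟨w, hw⟩ := R.hE
    exact ⟨v + w, by rw [addr, hv, hw]⟩
  hE := R.hE
  val := by
    intro v
    rcases R.val v with h | h | h | h
    · exact Or.inl h
    · exact Or.inr (Or.inr (Or.inr (by rw [h, aab])))
    · exact Or.inr (Or.inr (Or.inl h))
    · exact Or.inr (Or.inl h)

variable (R : R2 q x c e)

include R

theorem g0 : c + e ≠ 0 := R.rot.c0

/-- world A for a value of `x` -/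
theorem nq {i : B} (i0 : i ≠ 0) (hi : ∃ v, q x v = i) {k l : V} (hk : q x k = 0) (hl : q x l = 0)
    (h : q k l = i) : False := by
  obtain ⟨v, hv⟩ := hi
  exact i0 (by rw [← h]; exact R.wA k l hk hl v (by rw [h, hv]))

/-- `J_l ∩ J_{l+x} = 0` -/
theorem nJ {i : B} (i0 : i ≠ 0) {l : V} (h : A q x i l) (h' : A q x i (l + x)) : False := by
  obtain ⟨h1, v, h2, h3⟩ := h
  obtain ⟨-, w, h4, h5⟩ := h'
  refine R.nq i0 ⟨v, h2⟩ h1 (l := v + w) (by rw [addr, h2, h4, two]) ?_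
  rw [addl, h4] at h5
  rw [addr, h3, zero_add]
  exact eo h5

omit R in
theorem Ax (F : Kc q x) {i : B} {l : V} (h : A q x i (l + x)) : ∃ v, q x v = i ∧ q l v = i := by
  obtain ⟨-, v, h1, h2⟩ := h
  rw [addl, h1] at h2
  exact ⟨v, h1, eo h2⟩

omit R in
theorem Axx {i : B} {l : V} : A q x i (l + x + x) ↔ A q x i l := by
  rw [add_assoc, ZModModule.add_self, add_zero]

omit R in
theorem Aj {i j : B} {l : V} (h : A q x i l) (h' : A q x j l) : A q x (i + j) l := by
  obtain ⟨h1, v, h2, h3⟩ := h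
  obtain ⟨-, w, h4, h5⟩ := h'
  exact ⟨h1, v + w, by rw [addr, h2, h4], by rw [addr, h3, h5, add_zero]⟩

/-- `i ∈ Q_x ∩ Q_l`, so `i ∈ J_{l+x}` -/
theorem Aofx {i : B} (i0 : i ≠ 0) {l r : V} (hi : ∃ v, q x v = i) (hl : q x l = 0)
    (h : q l r = i) : A q x i (l + x) := by
  obtain ⟨v, hv⟩ := hi
  obtain ⟨y, h1, h2⟩ := R.lkn hl i0 h hv
  exact ⟨R.addx hl, y, h2, by rw [addl, h1, h2, two]⟩

/-- `i ∈ Q_x ∩ Q_{l+x}`, so `i ∈ J_l` -/
theorem Aof {i : B} (i0 : i ≠ 0) {l r : V} (hi : ∃ v, q x v = i) (hl : q x l = 0)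
    (h : q (l + x) r = i) : A q x i l := by
  rw [← Axx]
  exact R.Aofx i0 hi (R.addx hl) h

/-- the two definitions of `D(c,e)` -/
theorem Dd_iff {b : V} : Dd q x c e b ↔ A q x c b ∧ A q x e (b + x) := by
  constructor
  · rintro ⟨h1, u, h2, h3⟩
    refine ⟨R.Aof R.c0 R.hc h1 (r := u) ?_, R.Aofx R.e0 R.hE h1 h3⟩
    rw [addl, h2, h3, add_comm c e, aa]
  · rintro ⟨⟨h1, v, h2, h3⟩, h4⟩
    obtain ⟨w, h5, h6⟩ := Ax R.toKc h4
    exact ⟨h1, v + w, by rw [addr, h2, h5], by rw [addr, h3, h6, zero_add]⟩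

/-- `D(e,c) = x + D(c,e)` -/
theorem Dx {b : V} (h : Dd q x c e b) : Dd q x e c (b + x) := by
  rw [R.swap.Dd_iff, Axx]
  exact (R.Dd_iff.1 h).symm

theorem Dnx {b : V} (h : Dd q x e c (b + x)) : Dd q x c e b := by
  rw [R.swap.Dd_iff, Axx] at h
  exact R.Dd_iff.2 h.symm

/-- `J_b = <c>` for `b ∈ D(c,e)` -/
theorem Jb {b v : V} (hb : Dd q x c e b) (hv : q b v = 0) : q x v = 0 ∨ q x v = c := by
  obtain ⟨h1, h2⟩ := R.Dd_iff.1 hb
  rcases R.val v with h | h | h | h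
  · exact Or.inl h
  · exact Or.inr h
  · exact (R.nJ R.e0 ⟨hb.1, v, h, hv⟩ h2).elim
  · refine (R.nJ R.e0 ?_ h2).elim
    have := Aj h1 (⟨hb.1, v, h, hv⟩ : A q x (c + e) b)
    rwa [aa] at this

/-- `J_{b+x} = <e>` for `b ∈ D(c,e)` -/
theorem Jbx {b v : V} (hb : Dd q x c e b) (hv : q (b + x) v = 0) : q x v = 0 ∨ q x v = e :=
  R.swap.Jb (R.Dx hb) hv

/-- LEMMA C2 of note 2549 -/
theorem C2 {l u b : V} (hl : q x l = 0) (hp : Pu q x l) (hJ : A q x c l ∨ A q x e l)
    (hu : q x u = c + e) (hb : q x b = 0) (hbu : q b u = e) :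
    ∃ m, q x m = 0 ∧ q u m = 0 ∧ q (b + m) l = 0 ∧ q (b + m) (u + l) = e := by
  have nb : ∀ i z, A q x i l → q (l + x) z = i → q x z = i ∧ q l z = 0 := by
    rintro i z ⟨-, w, h1, h2⟩ h3
    have h4 := hp (z + w) (by rw [addr, h3, addl, h2, h1, zero_add, two])
    rw [addr, h1] at h4
    have h5 := eo h4
    refine ⟨h5, ?_⟩
    rw [addl, h5] at h3
    have := sw h3
    rwa [two] at this
  have hlx := R.addx hl
  have fin : ∀ m, q x m = 0 → q u m = 0 → q (b + m) l = 0 →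
      ∃ m, q x m = 0 ∧ q u m = 0 ∧ q (b + m) l = 0 ∧ q (b + m) (u + l) = e := by
    intro m h1 h2 h3
    exact ⟨m, h1, h2, h3, by rw [addr, h3, add_zero, addl, hbu, R.symm m u, h2, add_zero]⟩
  rcases hJ with hJ | hJ
  · -- the symbol `c`
    obtain ⟨-, w, h1, h2⟩ := id hJ
    have e1 : q (l + x) w = c := by rw [addl, h2, h1, zero_add]
    have e2 : q u (b + x) = c := by
      rw [addr, R.symm u b, hbu, R.symm u x, hu, add_comm c e, aa]
    have e3 : q (u + x) (b + x) = c := by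
      rw [addl, e2, addr, hb, R.alt, add_zero, add_zero]
    obtain ⟨z1, f1, f2⟩ := R.lkn hlx R.c0 e1 e2
    obtain ⟨z2, f3, f4⟩ := R.lkn hlx R.c0 e1 e3
    obtain ⟨g1, g2⟩ := nb c z1 hJ f1
    obtain ⟨g3, g4⟩ := nb c z2 hJ f3
    have g5 : q u z2 = 0 := by
      rw [addl, g3] at f4
      have := sw f4
      rwa [two] at this
    refine fin (b + (z1 + z2) + x) ?_ ?_ ?_
    · rw [addr, addr, addr, hb, g1, g3, two, R.alt, add_zero, add_zero]
    · rw [addr, addr, addr, R.symm u b, hbu, f2, g5, add_zero, R.symm u x, hu, add_comm e c, two]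
    · have : b + (b + (z1 + z2) + x) = (z1 + z2 + x) + (b + b) := by abel
      rw [this, ZModModule.add_self, add_zero, addl, addl, R.symm z1, g2, R.symm z2, g4, hl,
        add_zero, add_zero]
  · -- the symbol `e`
    obtain ⟨-, w, h1, h2⟩ := id hJ
    have e1 : q (l + x) w = e := by rw [addl, h2, h1, zero_add]
    have e2 : q u b = e := by rw [R.symm, hbu]
    have e3 : q (u + x) b = e := by rw [addl, e2, hb, add_zero]
    obtain ⟨z1, f1, f2⟩ := R.lkn hlx R.e0 e1 e2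
    obtain ⟨z2, f3, f4⟩ := R.lkn hlx R.e0 e1 e3
    obtain ⟨g1, g2⟩ := nb e z1 hJ f1
    obtain ⟨g3, g4⟩ := nb e z2 hJ f3
    have g5 : q u z2 = 0 := by
      rw [addl, g3] at f4
      have := sw f4
      rwa [two] at this
    refine fin (b + (z1 + z2)) ?_ ?_ ?_
    · rw [addr, addr, hb, g1, g3, two, add_zero]
    · rw [addr, addr, R.symm u b, hbu, f2, g5, add_zero, two]
    · have : b + (b + (z1 + z2)) = (z1 + z2) + (b + b) := by abel
      rw [this, ZModModule.add_self, add_zero, addl, R.symm z1, g2, R.symm z2, g4, add_zero]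

/-- (P1) of note 2549 / section 5 of note 2569 -/
theorem P1 {b l v : V} (hb : Dd q x c e b) (hl : q x l = 0) (hv : q x v = c) (hbv : q b v = 0) :
    (∃ k, q x k = 0 ∧ q b k = 0 ∧ A q x c (l + k)) ∨
      ∃ m, q x m = 0 ∧ q b m = 0 ∧ q m (l + v) = e := by
  have hbx : b + x ≠ 0 := by
    intro h
    have h1 : q (b + x) v = 0 := by rw [h, map_zero, LinearMap.zero_apply]
    rcases R.Jbx hb h1 with h2 | h2
    · exact R.c0 (hv.symm.trans h2)
    · exact R.ce (hv.symm.trans h2)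
  obtain ⟨t, ht⟩ : ∃ t, q b l = t := ⟨_, rfl⟩
  have e1 : q (b + x) l = t := by rw [addl, hl, add_zero, ht]
  have e2 : q (l + v) b = t := by rw [R.symm, addr, hbv, add_zero, ht]
  have e3 : q (l + v + x) b = t := by rw [addl, e2, hb.1, add_zero]
  obtain ⟨y1, f1, f2⟩ := R.lk (R.addx hb.1) hbx e1 e2
  obtain ⟨y2, f3, f4⟩ := R.lk (R.addx hb.1) hbx e1 e3
  have g1 : q (b + x) (l + y1) = 0 := by rw [addr, e1, f1, two]
  have g2 : q (b + x) (l + y2) = 0 := by rw [addr, e1, f3, two]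
  -- the first alternative
  have alt1 : ∀ y, q x (l + y) = 0 → q (b + x) y = t → q (l + v) y = t →
      ∃ k, q x k = 0 ∧ q b k = 0 ∧ A q x c (l + k) := by
    intro y h1 h2 h3
    have h4 : q x y = 0 := by rw [addr, hl, zero_add] at h1; exact h1
    have h5 : q b y = t := by rw [addl, h4, add_zero] at h2; exact h2
    refine ⟨l + y, h1, by rw [addr, ht, h5, two], ?_⟩
    have e4 : l + (l + y) = y := by rw [← add_assoc, ZModModule.add_self, zero_add]
    rw [e4]
    refine ⟨h4, v + (l + y) + b, by rw [addr, addr, hv, h1, hb.1, add_zero, add_zero], ?_⟩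
    have e5 : v + (l + y) + b = (l + v) + y + b := by abel
    rw [e5, addr, addr, R.alt, R.symm y, h3, R.symm y b, h5, add_zero, two]
  rcases R.Jbx hb g1 with h1 | h1
  · exact Or.inl (alt1 y1 h1 f1 f2)
  rcases R.Jbx hb g2 with h2 | h2
  · refine Or.inl (alt1 y2 h2 f3 ?_)
    have h4 : q x y2 = 0 := by rw [addr, hl, zero_add] at h2; exact h2
    rw [addl, h4, add_zero] at f4
    exact f4
  · right
    have h3 : q x y1 = e := by rw [addr, hl, zero_add] at h1; exact h1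
    have h4 : q x y2 = e := by rw [addr, hl, zero_add] at h2; exact h2
    have h5 : q x (y1 + y2) = 0 := by rw [addr, h3, h4, two]
    refine ⟨y1 + y2, h5, ?_, ?_⟩
    · have : q (b + x) (y1 + y2) = 0 := by rw [addr, f1, f3, two]
      rw [addl, h5, add_zero] at this
      exact this
    · rw [addl, h4] at f4
      rw [R.symm, addr, f2, sw f4, ← add_assoc, two, zero_add]

end R2

end

end Pool.Agent.ETCR2
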